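import Mathlib

/-!
Definitions for the asymptotic `L^p` norm of the Beurling transform (MP_9e2694_an, frozen S05571).
-/

set_option autoImplicit false

open MeasureTheory Complex Filter Topology
open scoped ContDiff

namespace Pool.Agent.Lib.MP_9e2694_an

/-- The Wirtinger derivative `∂`. -/
noncomputable def dz (f : ℂ → ℂ) (z : ℂ) : ℂ := (fderiv ℝ f z 1 - I * fderiv ℝ f z I) / 2

/-- The Wirtinger derivative `∂̄`. -/
noncomputable def dzb (f : ℂ → ℂ) (z : ℂ) : ℂ := (fderiv ℝ f z 1 + I * fderiv ℝ f z I) / 2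

/-- Test functions: smooth with compact support. -/
def Test (k : ℂ → ℂ) : Prop := ContDiff ℝ (⊤ : ℕ∞) k ∧ HasCompactSupport k

/-- The (solid) Cauchy transform. -/
noncomputable def Cau (k : ℂ → ℂ) (z : ℂ) : ℂ := (1 / (Real.pi : ℂ)) * ∫ w : ℂ, k (z - w) / w

/-- The Beurling transform on test functions, `T k = C (∂ k)`. -/
noncomputable def Beu (k : ℂ → ℂ) : ℂ → ℂ := Cau (dz k)

theorem Test.add {f g : ℂ → ℂ} (hf : Test f) (hg : Test g) : Test (fun z => f z + g z) :=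
  ⟨hf.1.add hg.1, hf.2.add hg.2⟩

theorem Test.sub {f g : ℂ → ℂ} (hf : Test f) (hg : Test g) : Test (fun z => f z - g z) :=
  ⟨hf.1.sub hg.1, hf.2.sub hg.2⟩

theorem Test.const_mul {f : ℂ → ℂ} (c : ℂ) (hf : Test f) : Test (fun z => c * f z) :=
  ⟨contDiff_const.mul hf.1, hf.2.mul_left⟩

theorem Test.mul_left {f g : ℂ → ℂ} (hf : Test f) (hg : ContDiff ℝ (⊤ : ℕ∞) g) :
    Test (fun z => f z * g z) :=
  ⟨hf.1.mul hg, hf.2.mul_right⟩

theorem Test.fderiv_apply {f : ℂ → ℂ} (hf : Test f) (v : ℂ) :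
    Test (fun z => fderiv ℝ f z v) := by
  refine ⟨?_, ?_⟩
  · exact (hf.1.fderiv_right (m := (⊤ : ℕ∞)) (by exact le_refl _)).clm_apply contDiff_const
  · exact hf.2.fderiv_apply (𝕜 := ℝ) v

theorem Test.dz {f : ℂ → ℂ} (hf : Test f) : Test (dz f) := by
  have h := ((hf.fderiv_apply 1).sub ((hf.fderiv_apply I).const_mul I)).const_mul (1 / 2)
  have e : (fun z => (1 / 2 : ℂ) * (fderiv ℝ f z 1 - I * fderiv ℝ f z I)) =
      Pool.Agent.Lib.MP_9e2694_an.dz f := by
    funext z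
    unfold Pool.Agent.Lib.MP_9e2694_an.dz
    ring
  rwa [e] at h

theorem Test.dzb {f : ℂ → ℂ} (hf : Test f) : Test (dzb f) := by
  have h := ((hf.fderiv_apply 1).add ((hf.fderiv_apply I).const_mul I)).const_mul (1 / 2)
  have e : (fun z => (1 / 2 : ℂ) * (fderiv ℝ f z 1 + I * fderiv ℝ f z I)) =
      Pool.Agent.Lib.MP_9e2694_an.dzb f := by
    funext z
    unfold Pool.Agent.Lib.MP_9e2694_an.dzb
    ring
  rwa [e] at h

theorem Test.continuous {f : ℂ → ℂ} (hf : Test f) : Continuous f := hf.1.continuous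

theorem Test.integrable {f : ℂ → ℂ} (hf : Test f) : Integrable f :=
  hf.continuous.integrable_of_hasCompactSupport hf.2

end Pool.Agent.Lib.MP_9e2694_an
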