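import Mathlib
import Pool.Agent.Lib.MP_9e2694_an.Basic

/-!
Smoothness, derivative and linearity of the Cauchy transform and of the Beurling transform on test
functions.
-/

set_option autoImplicit false

open MeasureTheory Complex Filter Topology
open scoped ContDiff Convolution

namespace Pool.Agent.Lib.MP_9e2694_an

theorem locInt_inv : LocallyIntegrable (fun w : ℂ => 1 / w) := by
  have hd : ∀ᵐ w : ℂ, ‖(1 : ℂ) / w‖ ≤ 1 * ‖w‖ ^ (-(1 : ℝ)) := by
    refine Filter.Eventually.of_forall fun x => ?_
    rw [norm_div, norm_one, one_mul, Real.rpow_neg_one, one_div]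
  have hm : AEStronglyMeasurable (fun w : ℂ => (1 : ℂ) / w) volume :=
    (measurable_const.div measurable_id).aestronglyMeasurable
  exact locallyIntegrable_of_norm_le_rpow (by rw [Complex.finrank_real_complex]; norm_num)
    (by rw [Complex.finrank_real_complex]; norm_num) hd hm

theorem cau_eq_conv (k : ℂ → ℂ) (z : ℂ) :
    Cau k z = (1 / (Real.pi : ℂ)) *
      ((fun w : ℂ => 1 / w) ⋆[ContinuousLinearMap.mul ℝ ℂ, volume] k) z := by
  unfold Cau convolution
  congr 1
  apply integral_congr_ae
  refine Filter.Eventually.of_forall fun w => ?_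
  simp only [ContinuousLinearMap.mul_apply']
  ring

theorem integrable_cau {k : ℂ → ℂ} (hk : Continuous k) (hc : HasCompactSupport k) (z : ℂ) :
    Integrable (fun w : ℂ => k (z - w) / w) := by
  have h := hc.convolutionExists_right (ContinuousLinearMap.mul ℝ ℂ) locInt_inv hk z
  have h' : Integrable (fun w : ℂ => ContinuousLinearMap.mul ℝ ℂ (1 / w) (k (z - w))) volume := h
  refine h'.congr (Filter.Eventually.of_forall fun w => ?_)
  simp only [ContinuousLinearMap.mul_apply']
  ring

theorem contDiff_cau {k : ℂ → ℂ} (hk : Test k) : ContDiff ℝ (⊤ : ℕ∞) (Cau k) := by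
  have h : Cau k = fun z => (1 / (Real.pi : ℂ)) *
      ((fun w : ℂ => 1 / w) ⋆[ContinuousLinearMap.mul ℝ ℂ, volume] k) z := by
    funext z; exact cau_eq_conv k z
  rw [h]
  exact contDiff_const.mul
    (hk.2.contDiff_convolution_right (ContinuousLinearMap.mul ℝ ℂ) locInt_inv hk.1)

theorem fderiv_cau {k : ℂ → ℂ} (hk : Test k) (z v : ℂ) :
    fderiv ℝ (Cau k) z v = Cau (fun w => fderiv ℝ k w v) z := by
  have h : Cau k = fun z => (1 / (Real.pi : ℂ)) *
      ((fun w : ℂ => 1 / w) ⋆[ContinuousLinearMap.mul ℝ ℂ, volume] k) z := by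
    funext z; exact cau_eq_conv k z
  have hk1 : ContDiff ℝ 1 k := hk.1.of_le (by exact_mod_cast le_top)
  have hd := hk.2.hasFDerivAt_convolution_right (ContinuousLinearMap.mul ℝ ℂ) locInt_inv hk1 z
  have hd2 := hd.const_mul (1 / (Real.pi : ℂ))
  rw [h, hd2.fderiv, cau_eq_conv]
  rw [_root_.smul_apply, smul_eq_mul]
  congr 1
  rw [convolution_precompR_apply (ContinuousLinearMap.mul ℝ ℂ) locInt_inv (hk.2.fderiv ℝ)
    (hk1.continuous_fderiv one_ne_zero)]

theorem cau_add {f g : ℂ → ℂ} (hf : Test f) (hg : Test g) :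
    Cau (fun z => f z + g z) = fun z => Cau f z + Cau g z := by
  funext z
  unfold Cau
  rw [← mul_add, ← integral_add (integrable_cau hf.continuous hf.2 z)
    (integrable_cau hg.continuous hg.2 z)]
  congr 1
  apply integral_congr_ae
  refine Filter.Eventually.of_forall fun w => ?_
  simp only
  ring

theorem cau_const_mul (c : ℂ) (f : ℂ → ℂ) :
    Cau (fun z => c * f z) = fun z => c * Cau f z := by
  funext z
  unfold Cau
  have : (fun w : ℂ => c * f (z - w) / w) = fun w => c * (f (z - w) / w) := by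
    funext w; ring
  rw [this, integral_const_mul]
  ring

theorem dz_add {f g : ℂ → ℂ} {z : ℂ} (hf : DifferentiableAt ℝ f z)
    (hg : DifferentiableAt ℝ g z) : dz (fun z => f z + g z) z = dz f z + dz g z := by
  unfold dz
  rw [fderiv_fun_add hf hg]
  simp only [_root_.add_apply]
  ring

theorem dzb_add {f g : ℂ → ℂ} {z : ℂ} (hf : DifferentiableAt ℝ f z)
    (hg : DifferentiableAt ℝ g z) : dzb (fun z => f z + g z) z = dzb f z + dzb g z := by
  unfold dzb
  rw [fderiv_fun_add hf hg]
  simp only [_root_.add_apply]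
  ring

theorem dz_const_mul {f : ℂ → ℂ} {z : ℂ} (c : ℂ) (hf : DifferentiableAt ℝ f z) :
    dz (fun z => c * f z) z = c * dz f z := by
  unfold dz
  rw [fderiv_const_mul hf]
  simp only [_root_.smul_apply, smul_eq_mul]
  ring

theorem dzb_const_mul {f : ℂ → ℂ} {z : ℂ} (c : ℂ) (hf : DifferentiableAt ℝ f z) :
    dzb (fun z => c * f z) z = c * dzb f z := by
  unfold dzb
  rw [fderiv_const_mul hf]
  simp only [_root_.smul_apply, smul_eq_mul]
  ring

theorem dz_mul {f g : ℂ → ℂ} {z : ℂ} (hf : DifferentiableAt ℝ f z)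
    (hg : DifferentiableAt ℝ g z) :
    dz (fun z => f z * g z) z = f z * dz g z + g z * dz f z := by
  unfold dz
  rw [fderiv_fun_mul hf hg]
  simp only [_root_.add_apply, _root_.smul_apply, smul_eq_mul]
  ring

theorem dzb_mul {f g : ℂ → ℂ} {z : ℂ} (hf : DifferentiableAt ℝ f z)
    (hg : DifferentiableAt ℝ g z) :
    dzb (fun z => f z * g z) z = f z * dzb g z + g z * dzb f z := by
  unfold dzb
  rw [fderiv_fun_mul hf hg]
  simp only [_root_.add_apply, _root_.smul_apply, smul_eq_mul]
  ring

theorem Test.differentiable {f : ℂ → ℂ} (hf : Test f) : Differentiable ℝ f :=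
  hf.1.differentiable (by simp)

theorem differentiable_cau {k : ℂ → ℂ} (hk : Test k) : Differentiable ℝ (Cau k) :=
  (contDiff_cau hk).differentiable (by simp)

theorem dz_cau {k : ℂ → ℂ} (hk : Test k) : dz (Cau k) = Beu k := by
  funext z
  unfold Beu
  have h1 := hk.fderiv_apply 1
  have h2 := (hk.fderiv_apply I).const_mul (-I)
  have e : dz k = fun z => (1 / 2 : ℂ) *
      (fderiv ℝ k z 1 + -I * fderiv ℝ k z I) := by
    funext z; unfold dz; ring
  rw [e, cau_const_mul, cau_add h1 h2, cau_const_mul]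
  unfold dz
  rw [fderiv_cau hk, fderiv_cau hk]
  ring

theorem dzb_cau {k : ℂ → ℂ} (hk : Test k) : dzb (Cau k) = Cau (dzb k) := by
  funext z
  have h1 := hk.fderiv_apply 1
  have h2 := (hk.fderiv_apply I).const_mul I
  have e : dzb k = fun z => (1 / 2 : ℂ) *
      (fderiv ℝ k z 1 + I * fderiv ℝ k z I) := by
    funext z; unfold dzb; ring
  rw [e, cau_const_mul, cau_add h1 h2, cau_const_mul]
  unfold dzb
  rw [fderiv_cau hk, fderiv_cau hk]
  ring

theorem contDiff_beu {k : ℂ → ℂ} (hk : Test k) : ContDiff ℝ (⊤ : ℕ∞) (Beu k) :=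
  contDiff_cau hk.dz

theorem beu_add {f g : ℂ → ℂ} (hf : Test f) (hg : Test g) :
    Beu (fun z => f z + g z) = fun z => Beu f z + Beu g z := by
  unfold Beu
  have : dz (fun z => f z + g z) = fun z => dz f z + dz g z := by
    funext z; exact dz_add (hf.differentiable z) (hg.differentiable z)
  rw [this, cau_add hf.dz hg.dz]

theorem beu_const_mul {f : ℂ → ℂ} (c : ℂ) (hf : Test f) :
    Beu (fun z => c * f z) = fun z => c * Beu f z := by
  unfold Beu
  have : dz (fun z => c * f z) = fun z => c * dz f z := by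
    funext z; exact dz_const_mul c (hf.differentiable z)
  rw [this, cau_const_mul]

/-- The Wirtinger derivative commutes with directional derivatives. -/
theorem fderiv_dz {k : ℂ → ℂ} (hk : Test k) (v : ℂ) :
    (fun w => fderiv ℝ (dz k) w v) = dz (fun w => fderiv ℝ k w v) := by
  funext w
  have hk2 : ContDiff ℝ 2 k := by exact_mod_cast (contDiff_infty.1 hk.1) 2
  have hsymm : ∀ a b : ℂ, fderiv ℝ (fun w => fderiv ℝ k w a) w b =
      fderiv ℝ (fun w => fderiv ℝ k w b) w a := by
    intro a b
    have hd : DifferentiableAt ℝ (fderiv ℝ k) w :=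
      ((hk2.fderiv_right (m := 1) (by norm_num)).differentiable one_ne_zero) w
    rw [fderiv_clm_apply hd (differentiableAt_const a), fderiv_clm_apply hd (differentiableAt_const b)]
    simp only [fderiv_fun_const, Pi.zero_apply, ContinuousLinearMap.comp_zero, zero_add,
      ContinuousLinearMap.flip_apply]
    have h := (hk2.contDiffAt (x := w)).isSymmSndFDerivAt (by simp)
    exact (h b a)
  have h1 := (hk.fderiv_apply 1).differentiable w
  have h2 := (hk.fderiv_apply I).differentiable w
  have e : dz k = fun z => (1 / 2 : ℂ) *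
      (fderiv ℝ k z 1 + -I * fderiv ℝ k z I) := by
    funext z; unfold dz; ring
  rw [e, fderiv_const_mul (h1.fun_add (h2.const_mul (-I))), fderiv_fun_add h1 (h2.const_mul (-I)),
    fderiv_const_mul h2]
  unfold dz
  simp only [_root_.add_apply, _root_.smul_apply, smul_eq_mul]
  rw [hsymm 1 v, hsymm I v]
  ring

theorem fderiv_beu {k : ℂ → ℂ} (hk : Test k) (z v : ℂ) :
    fderiv ℝ (Beu k) z v = Beu (fun w => fderiv ℝ k w v) z := by
  unfold Beu
  rw [fderiv_cau hk.dz, fderiv_dz hk]

end Pool.Agent.Lib.MP_9e2694_an
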