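import Pool.Agent.Lib.MP_9e2694_an.CauBasic

/-!
Decay of the Cauchy transform and the `L²` contraction property of the Beurling transform
(MP_9e2694_an).
-/

set_option autoImplicit false

open MeasureTheory Complex Filter Topology
open scoped ContDiff ENNReal

namespace Pool.Agent.Lib.MP_9e2694_an

theorem cl_radius {k : ℂ → ℂ} (hk : Test k) : ∃ R : ℝ, 1 ≤ R ∧ ∀ z, k z ≠ 0 → ‖z‖ ≤ R := by
  obtain ⟨R, hR⟩ := hk.2.isCompact.isBounded.exists_norm_le
  exact ⟨max 1 R, le_max_left _ _, fun z hz => (hR z (subset_tsupport k hz)).trans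
    (le_max_right _ _)⟩

theorem cl_integrable_inv (ρ : ℝ) :
    Integrable (fun w : ℂ => (Set.Iic ρ).indicator (fun y : ℝ => y⁻¹) ‖w‖) := by
  rw [integrable_fun_norm_addHaar (volume : Measure ℂ)
    (f := (Set.Iic ρ).indicator (fun y : ℝ => y⁻¹))]
  rw [Complex.finrank_real_complex]
  have h1 : IntegrableOn (fun y : ℝ => (Set.Iic ρ).indicator (fun _ => (1 : ℝ)) y)
      (Set.Ioi 0) := by
    rw [integrableOn_indicator_iff measurableSet_Iic, Set.inter_comm, Set.Ioi_inter_Iic]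
    exact integrableOn_const (by simp)
  refine h1.congr_fun (fun y hy => ?_) measurableSet_Ioi
  have hy0 : y ≠ 0 := ne_of_gt hy
  by_cases h : y ∈ Set.Iic ρ
  · simp [h, hy0]
  · simp [h]

theorem cl_integrable {k : ℂ → ℂ} (hk : Test k) (z : ℂ) :
    Integrable (fun w => k (z - w) / w) := by
  obtain ⟨R, hR1, hR⟩ := cl_radius hk
  obtain ⟨M, hM⟩ := hk.2.exists_bound_of_continuous hk.continuous
  have hM0 : 0 ≤ M := (norm_nonneg _).trans (hM 0)
  refine ((cl_integrable_inv (‖z‖ + R)).const_mul M).mono' ?_ (Eventually.of_forall ?_)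
  · refine Measurable.aestronglyMeasurable ?_
    have : Measurable (fun w => k (z - w)) := (hk.continuous.comp (by fun_prop)).measurable
    exact this.div measurable_id
  · intro w
    by_cases hw : k (z - w) = 0
    · rw [hw]
      simp only [zero_div, norm_zero]
      refine mul_nonneg hM0 ?_
      rw [Set.indicator_apply]
      split_ifs <;> positivity
    · have h1 := hR _ hw
      have h2 : ‖w‖ ≤ ‖z‖ + R := by
        have : ‖w‖ ≤ ‖z‖ + ‖z - w‖ := by
          have := norm_sub_le z (z - w)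
          simpa using this
        linarith
      rw [Set.indicator_of_mem (show ‖w‖ ∈ Set.Iic (‖z‖ + R) from h2), norm_div, div_eq_mul_inv]
      exact mul_le_mul_of_nonneg_right (hM _) (by positivity)


/-- The bound far away from the support. -/
theorem cl_norm_le {k : ℂ → ℂ} (hk : Test k) {g : ℂ → ℂ} {z : ℂ} {c : ℝ}
    (h : ∀ w, k (z - w) ≠ 0 → ‖g w‖ ≤ c) :
    ‖(1 / (Real.pi : ℂ)) * ∫ w : ℂ, k (z - w) * g w‖ ≤ c * ∫ w, ‖k w‖ := by
  have h1 : ‖(1 / (Real.pi : ℂ))‖ ≤ 1 := by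
    rw [norm_div, norm_one, Complex.norm_real, Real.norm_of_nonneg Real.pi_pos.le]
    rw [div_le_one Real.pi_pos]
    linarith [Real.pi_gt_three]
  have hint : Integrable (fun w => ‖k (z - w)‖) := (hk.integrable.comp_sub_left z).norm
  have h2 : ‖∫ w : ℂ, k (z - w) * g w‖ ≤ ∫ w, c * ‖k (z - w)‖ := by
    refine norm_integral_le_of_norm_le (hint.const_mul c) (Eventually.of_forall fun w => ?_)
    rw [norm_mul, mul_comm]
    by_cases hw : k (z - w) = 0
    · rw [hw]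
      simp
    · exact mul_le_mul_of_nonneg_right (h w hw) (norm_nonneg _)
  rw [integral_const_mul, integral_sub_left_eq_self (fun w => ‖k w‖)] at h2
  calc ‖(1 / (Real.pi : ℂ)) * ∫ w : ℂ, k (z - w) * g w‖
      = ‖(1 / (Real.pi : ℂ))‖ * ‖∫ w : ℂ, k (z - w) * g w‖ := norm_mul _ _
    _ ≤ 1 * ‖∫ w : ℂ, k (z - w) * g w‖ := mul_le_mul_of_nonneg_right h1 (norm_nonneg _)
    _ ≤ _ := by rw [one_mul]; exact h2

theorem cl_far {R : ℝ} {z w : ℂ} (hz : 2 * R ≤ ‖z‖) (hw : ‖z - w‖ ≤ R) :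
    ‖z‖ / 2 ≤ ‖w‖ := by
  have : ‖z‖ ≤ ‖z - w‖ + ‖w‖ := by
    have := norm_add_le (z - w) w
    simpa using this
  linarith

theorem cau_bound_aux {k : ℂ → ℂ} (hk : Test k) (hc : Continuous (Cau k)) :
    ∃ C : ℝ, 0 ≤ C ∧ ∀ z, ‖Cau k z‖ ≤ C / (1 + ‖z‖) := by
  obtain ⟨R, hR1, hR⟩ := cl_radius hk
  obtain ⟨M, hM⟩ := (isCompact_closedBall (0 : ℂ) (2 * R)).exists_bound_of_continuousOn
    hc.continuousOn
  set N := ∫ w, ‖k w‖ with hN
  have hN0 : 0 ≤ N := integral_nonneg (fun _ => norm_nonneg _)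
  have hM0 : 0 ≤ M := (norm_nonneg _).trans (hM 0 (by simp; linarith))
  refine ⟨(1 + 2 * R) * M + 4 * N, by positivity, fun z => ?_⟩
  rw [le_div_iff₀ (by positivity)]
  by_cases hz : ‖z‖ ≤ 2 * R
  · have h1 := hM z (by simpa using hz)
    calc ‖Cau k z‖ * (1 + ‖z‖) ≤ M * (1 + 2 * R) := by
          apply mul_le_mul h1 (by linarith) (by positivity) hM0
      _ ≤ _ := by linarith
  · rw [not_le] at hz
    have hz0 : 0 < ‖z‖ := by linarith
    have h1 : ‖Cau k z‖ ≤ (2 / ‖z‖) * N := by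
      unfold Cau
      simp only [div_eq_mul_inv (k _) _]
      refine cl_norm_le hk (fun w hw => ?_)
      have h2 := cl_far hz.le (hR _ hw)
      rw [norm_inv, inv_le_comm₀ (by linarith) (by positivity)]
      rw [inv_div]
      exact h2
    calc ‖Cau k z‖ * (1 + ‖z‖) ≤ ((2 / ‖z‖) * N) * (2 * ‖z‖) := by
          apply mul_le_mul h1 (by linarith) (by positivity) (by positivity)
      _ = 4 * N := by field_simp; ring
      _ ≤ _ := by nlinarith

theorem cl_integral_fderiv {k : ℂ → ℂ} (hk : Test k) (v : ℂ) : ∫ z, fderiv ℝ k z v = 0 := by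
  have hd : Differentiable ℝ k := hk.1.differentiable (by norm_num)
  have h1 : Integrable (fun z => fderiv ℝ k z v) := (hk.fderiv_apply v).integrable
  have h := integral_mul_fderiv_eq_neg_fderiv_mul_of_integrable (𝕜 := ℂ) (μ := volume)
    (f := fun _ : ℂ => (1 : ℂ)) (g := k) (v := v) (by simp) (by simpa using h1)
    (by simpa using hk.integrable) (fun x _ => differentiableAt_const _) (fun x _ => hd x)
  simpa using h

theorem cau_fderiv_bound_aux {k : ℂ → ℂ} (hk : Test k) (v : ℂ)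
    (hc : Continuous (Cau (fun w => fderiv ℝ k w v))) :
    ∃ C : ℝ, 0 ≤ C ∧ ∀ z, ‖Cau (fun w => fderiv ℝ k w v) z‖ ≤ C / (1 + ‖z‖) ^ 2 := by
  have hf := hk.fderiv_apply v
  set f : ℂ → ℂ := fun w => fderiv ℝ k w v with hfdef
  obtain ⟨R, hR1, hR⟩ := cl_radius hf
  obtain ⟨M, hM⟩ := (isCompact_closedBall (0 : ℂ) (2 * R)).exists_bound_of_continuousOn
    hc.continuousOn
  set N := ∫ w, ‖f w‖ with hN
  have hN0 : 0 ≤ N := integral_nonneg (fun _ => norm_nonneg _)
  have hM0 : 0 ≤ M := (norm_nonneg _).trans (hM 0 (by simp; linarith))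
  refine ⟨(1 + 2 * R) ^ 2 * M + 8 * R * N, by positivity, fun z => ?_⟩
  rw [le_div_iff₀ (by positivity)]
  by_cases hz : ‖z‖ ≤ 2 * R
  · have h1 := hM z (by simpa using hz)
    calc ‖Cau f z‖ * (1 + ‖z‖) ^ 2 ≤ M * (1 + 2 * R) ^ 2 := by
          apply mul_le_mul h1 (by gcongr) (by positivity) hM0
      _ ≤ _ := by
          have : 0 ≤ 8 * R * N := by positivity
          linarith
  · rw [not_le] at hz
    have hz0 : 0 < ‖z‖ := by linarith
    have hzne : z ≠ 0 := norm_pos_iff.mp hz0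
    have h0 : ∫ w, f (z - w) * z⁻¹ = 0 := by
      rw [integral_mul_const, integral_sub_left_eq_self (fun w => f w)]
      rw [hfdef, cl_integral_fderiv hk v, zero_mul]
    have h1 : ‖Cau f z‖ ≤ (2 * R / ‖z‖ ^ 2) * N := by
      have e1 : Cau f z = (1 / (Real.pi : ℂ)) * ∫ w : ℂ, f (z - w) * (w⁻¹ - z⁻¹) := by
        unfold Cau
        congr 1
        simp only [div_eq_mul_inv, mul_sub]
        rw [integral_sub, h0, sub_zero]
        · have := cl_integrable hf z
          simpa only [div_eq_mul_inv] using this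
        · exact (hf.integrable.comp_sub_left z).mul_const _
      rw [e1]
      refine cl_norm_le hf (fun w hw => ?_)
      have h2 := cl_far hz.le (hR _ hw)
      have hw0 : 0 < ‖w‖ := by linarith
      have hwne : w ≠ 0 := norm_pos_iff.mp hw0
      have e2 : w⁻¹ - z⁻¹ = (z - w) / (w * z) := by field_simp
      rw [e2, norm_div, norm_mul, div_le_div_iff₀ (by positivity) (by positivity)]
      have h3 := hR _ hw
      calc ‖z - w‖ * ‖z‖ ^ 2 ≤ R * ‖z‖ ^ 2 := by gcongr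
        _ = (R * ‖z‖) * ‖z‖ := by ring
        _ ≤ (R * ‖z‖) * (2 * ‖w‖) := by
            apply mul_le_mul_of_nonneg_left (by linarith) (by positivity)
        _ = 2 * R * (‖w‖ * ‖z‖) := by ring
    calc ‖Cau f z‖ * (1 + ‖z‖) ^ 2 ≤ ((2 * R / ‖z‖ ^ 2) * N) * (2 * ‖z‖) ^ 2 := by
          apply mul_le_mul h1 _ (by positivity) (by positivity)
          apply pow_le_pow_left₀ (by positivity)
          linarith
      _ = 8 * R * N := by field_simp; ring
      _ ≤ _ := by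
          have : 0 ≤ (1 + 2 * R) ^ 2 * M := by positivity
          linarith


theorem cl_symm {k : ℂ → ℂ} (hk : Test k) (z : ℂ) (u v : ℂ) :
    fderiv ℝ (fun w => fderiv ℝ k w u) z v = fderiv ℝ (fun w => fderiv ℝ k w v) z u := by
  have h1 : ∀ a : ℂ, fderiv ℝ (fun w => fderiv ℝ k w a) z =
      (fderiv ℝ (fderiv ℝ k) z).flip a := by
    intro a
    have hd : DifferentiableAt ℝ (fderiv ℝ k) z :=
      ((hk.1.fderiv_right (m := 1) (by norm_cast)).differentiable one_ne_zero) z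
    rw [fderiv_clm_apply hd (differentiableAt_const a)]
    simp
  rw [h1, h1]
  simp only [ContinuousLinearMap.flip_apply]
  have hk2 : ContDiff ℝ 2 k := by exact_mod_cast (contDiff_infty.1 hk.1) 2
  have hs : IsSymmSndFDerivAt ℝ k z := hk2.contDiffAt.isSymmSndFDerivAt (by simp)
  exact hs v u

theorem cl_int_decay {f : ℂ → ℂ} (hf : Continuous f) {C : ℝ}
    (hC : ∀ z, ‖f z‖ ≤ C / (1 + ‖z‖) ^ 3) : Integrable f := by
  have h1 : Integrable (fun z : ℂ => (1 + ‖z‖) ^ (-(3 : ℝ))) := by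
    refine integrable_one_add_norm ?_
    rw [Complex.finrank_real_complex]
    norm_num
  refine (h1.const_mul C).mono' hf.aestronglyMeasurable (Eventually.of_forall fun z => ?_)
  refine (hC z).trans (le_of_eq ?_)
  rw [Real.rpow_neg (by positivity), div_eq_mul_inv]
  norm_cast

theorem cl_key {h hx hy hxy : ℂ → ℂ} (ch : ContDiff ℝ 1 h) (chx : ContDiff ℝ 1 hx)
    (chy : ContDiff ℝ 1 hy) (chxy : Continuous hxy) (e1 : ∀ z, fderiv ℝ h z 1 = hx z)
    (e2 : ∀ z, fderiv ℝ h z I = hy z) (e3 : ∀ z, fderiv ℝ hx z I = hxy z)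
    (e4 : ∀ z, fderiv ℝ hy z 1 = hxy z) {C : ℝ} (hC : 0 ≤ C)
    (b1 : ∀ z, ‖h z‖ ≤ C / (1 + ‖z‖)) (b2 : ∀ z, ‖hx z‖ ≤ C / (1 + ‖z‖) ^ 2)
    (b3 : ∀ z, ‖hy z‖ ≤ C / (1 + ‖z‖) ^ 2) (b4 : ∀ z, ‖hxy z‖ ≤ C / (1 + ‖z‖) ^ 2) :
    (∫ z, hx z * (starRingEnd ℂ) (hy z)).im = 0 := by
  have hprod3 : ∀ a b : ℂ → ℂ, (∀ z, ‖a z‖ ≤ C / (1 + ‖z‖)) →
      (∀ z, ‖b z‖ ≤ C / (1 + ‖z‖) ^ 2) → ∀ z, ‖(starRingEnd ℂ) (b z) * a z‖ ≤
        C ^ 2 / (1 + ‖z‖) ^ 3 := by
    intro a b ha hb z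
    rw [norm_mul, RCLike.norm_conj]
    calc ‖b z‖ * ‖a z‖ ≤ (C / (1 + ‖z‖) ^ 2) * (C / (1 + ‖z‖)) :=
          mul_le_mul (hb z) (ha z) (norm_nonneg _) (by positivity)
      _ = _ := by field_simp
  have hweak : ∀ a : ℂ → ℂ, (∀ z, ‖a z‖ ≤ C / (1 + ‖z‖) ^ 2) → ∀ z, ‖a z‖ ≤ C / (1 + ‖z‖) := by
    intro a ha z
    refine (ha z).trans ?_
    apply div_le_div_of_nonneg_left hC (by positivity)
    have : 0 ≤ ‖z‖ := norm_nonneg z
    nlinarith
  have hconj : ∀ (a : ℂ → ℂ) (z v : ℂ), ContDiff ℝ 1 a →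
      fderiv ℝ (fun w => (starRingEnd ℂ) (a w)) z v = (starRingEnd ℂ) (fderiv ℝ a z v) := by
    intro a z v ha
    have hd := (ha.differentiable one_ne_zero z).hasFDerivAt
    have h1 := (Complex.conjCLE : ℂ →L[ℝ] ℂ).hasFDerivAt.comp z hd
    have h2 : HasFDerivAt (fun w => (starRingEnd ℂ) (a w))
      ((Complex.conjCLE : ℂ →L[ℝ] ℂ).comp (fderiv ℝ a z)) z := h1
    rw [h2.fderiv]
    rfl
  have hcc : ∀ a : ℂ → ℂ, Continuous a → Continuous (fun z => (starRingEnd ℂ) (a z)) :=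
    fun a ha => Complex.continuous_conj.comp ha
  have key : ∀ (a b : ℂ → ℂ) (v : ℂ), ContDiff ℝ 1 a → ContDiff ℝ 1 b →
      (∀ z, fderiv ℝ h z v = b z) → (∀ z, fderiv ℝ a z v = hxy z) →
      (∀ z, ‖a z‖ ≤ C / (1 + ‖z‖) ^ 2) → (∀ z, ‖b z‖ ≤ C / (1 + ‖z‖) ^ 2) →
      ∫ z, (starRingEnd ℂ) (a z) * b z = - ∫ z, (starRingEnd ℂ) (hxy z) * h z := by
    intro a b v ca cb eb ea ba bb
    have h1 := integral_mul_fderiv_eq_neg_fderiv_mul_of_integrable (𝕜 := ℂ) (μ := volume)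
      (f := fun z => (starRingEnd ℂ) (a z)) (g := h) (v := v) ?_ ?_ ?_ ?_ ?_
    · simpa only [eb, hconj a _ v ca, ea] using h1
    · simp only [hconj a _ v ca, ea]
      exact cl_int_decay ((hcc _ chxy).mul ch.continuous) (hprod3 h hxy b1 b4)
    · simp only [eb]
      exact cl_int_decay ((hcc _ ca.continuous).mul cb.continuous)
        (hprod3 b a (hweak b bb) ba)
    · exact cl_int_decay ((hcc _ ca.continuous).mul ch.continuous) (hprod3 h a b1 ba)
    · intro x _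
      exact ((Complex.conjCLE : ℂ →L[ℝ] ℂ).differentiableAt).comp x
        (ca.differentiable one_ne_zero x)
    · intro x _
      exact ch.differentiable one_ne_zero x
  have k1 := key hy hx 1 chy chx e1 e4 b3 b2
  have k2 := key hx hy I chx chy e2 e3 b2 b3
  have k3 : ∫ z, (starRingEnd ℂ) (hx z) * hy z =
      (starRingEnd ℂ) (∫ z, hx z * (starRingEnd ℂ) (hy z)) := by
    rw [← integral_conj]
    congr 1
    funext z
    rw [map_mul, Complex.conj_conj]
  have k4 : ∫ z, hx z * (starRingEnd ℂ) (hy z) = ∫ z, (starRingEnd ℂ) (hy z) * hx z := by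
    congr 1
    funext z
    ring
  rw [← Complex.conj_eq_iff_im, ← k3, k4, k1, k2]

theorem cl_pointwise (a b : ℂ) : ‖(a - I * b) / 2‖ ^ 2 =
    ‖(a + I * b) / 2‖ ^ 2 - (a * (starRingEnd ℂ) b).im := by
  rw [← Complex.normSq_eq_norm_sq, ← Complex.normSq_eq_norm_sq, Complex.normSq_apply,
    Complex.normSq_apply]
  simp
  ring

/-- Decay of the Cauchy transform. -/
theorem cau_bound {k : ℂ → ℂ} (hk : Test k) :
    ∃ C : ℝ, 0 ≤ C ∧ ∀ z, ‖Cau k z‖ ≤ C / (1 + ‖z‖) :=
  cau_bound_aux hk (contDiff_cau hk).continuous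

/-- Decay of the derivatives of the Cauchy transform. -/
theorem cau_fderiv_bound {k : ℂ → ℂ} (hk : Test k) (v : ℂ) :
    ∃ C : ℝ, 0 ≤ C ∧ ∀ z, ‖Cau (fun w => fderiv ℝ k w v) z‖ ≤ C / (1 + ‖z‖) ^ 2 :=
  cau_fderiv_bound_aux hk v (contDiff_cau (hk.fderiv_apply v)).continuous

/-- The Beurling transform is an isometry of `L²`. -/
theorem eLpNorm_beu_eq {k : ℂ → ℂ} (hk : Test k) (hcp : Cau (dzb k) = k) :
    eLpNorm (Beu k) 2 volume = eLpNorm k 2 volume := by
  have hk1 := hk.fderiv_apply 1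
  have hkI := hk.fderiv_apply I
  obtain ⟨C1, hC1, b1⟩ := cau_bound hk
  obtain ⟨C2, hC2, b2⟩ := cau_fderiv_bound hk 1
  obtain ⟨C3, hC3, b3⟩ := cau_fderiv_bound hk I
  obtain ⟨C4, hC4, b4⟩ := cau_fderiv_bound hk1 I
  set C := C1 + C2 + C3 + C4 with hC
  have hmono : ∀ (c : ℝ) (x y : ℝ), c ≤ C → 0 < y → x ≤ c / y → x ≤ C / y := by
    intro c x y hc hy hx
    exact hx.trans (div_le_div_of_nonneg_right hc hy.le)
  set hx : ℂ → ℂ := Cau (fun w => fderiv ℝ k w 1) with hhx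
  set hy : ℂ → ℂ := Cau (fun w => fderiv ℝ k w I) with hhy
  set hxy : ℂ → ℂ := Cau (fun w => fderiv ℝ (fun w => fderiv ℝ k w 1) w I) with hhxy
  have e4 : ∀ z, fderiv ℝ hy z 1 = hxy z := by
    intro z
    rw [hhy, fderiv_cau hkI, hhxy]
    congr 1
    funext w
    exact cl_symm hk w I 1
  have hd : ∀ {f : ℂ → ℂ}, Test f → ContDiff ℝ 1 (Cau f) := fun hf =>
    (contDiff_cau hf).of_le (by norm_cast)
  have hkey := cl_key (h := Cau k) (hx := hx) (hy := hy) (hxy := hxy) (C := C) (hd hk) (hd hk1)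
    (hd hkI) (contDiff_cau (hk1.fderiv_apply I)).continuous
    (fun z => fderiv_cau hk z 1) (fun z => fderiv_cau hk z I)
    (fun z => fderiv_cau hk1 z I) e4 (by positivity)
    (fun z => hmono C1 _ _ (by linarith) (by positivity) (b1 z))
    (fun z => hmono C2 _ _ (by linarith) (by positivity) (b2 z))
    (fun z => hmono C3 _ _ (by linarith) (by positivity) (b3 z))
    (fun z => hmono C4 _ _ (by linarith) (by positivity) (b4 z))
  have hB : ∀ z, Beu k z = (hx z - I * hy z) / 2 := by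
    intro z
    rw [← dz_cau hk]
    unfold dz
    rw [fderiv_cau hk, fderiv_cau hk]
  have hK : ∀ z, k z = (hx z + I * hy z) / 2 := by
    intro z
    have h1 : dzb (Cau k) z = k z := by rw [dzb_cau hk, hcp]
    rw [← h1]
    unfold dzb
    rw [fderiv_cau hk, fderiv_cau hk]
  have hcx : Continuous hx := (contDiff_cau hk1).continuous
  have hcy : Continuous hy := (contDiff_cau hkI).continuous
  have hint : Integrable (fun z => hx z * (starRingEnd ℂ) (hy z)) := by
    refine cl_int_decay (C := C * C) (hcx.mul (Complex.continuous_conj.comp hcy)) (fun z => ?_)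
    rw [norm_mul, RCLike.norm_conj]
    have e1 := hmono C2 _ _ (by linarith) (by positivity) (b2 z)
    have e2 := hmono C3 _ _ (by linarith) (by positivity) (b3 z)
    calc ‖hx z‖ * ‖hy z‖ ≤ (C / (1 + ‖z‖) ^ 2) * (C / (1 + ‖z‖) ^ 2) :=
          mul_le_mul e1 e2 (norm_nonneg _) (by positivity)
      _ = C * C / (1 + ‖z‖) ^ 4 := by field_simp
      _ ≤ C * C / (1 + ‖z‖) ^ 3 := by
          apply div_le_div_of_nonneg_left (by positivity) (by positivity)
          exact pow_le_pow_right₀ (by linarith [norm_nonneg z]) (by norm_num)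
  have hk2 : Integrable (fun z => ‖k z‖ ^ 2) := by
    have hc : Continuous (fun z => ‖k z‖ ^ 2) := (hk.continuous.norm).pow 2
    refine hc.integrable_of_hasCompactSupport ?_
    have := hk.2.norm
    exact this.comp_left (g := fun x : ℝ => x ^ 2) (by norm_num)
  have hpt : ∀ z, ‖Beu k z‖ ^ 2 = ‖k z‖ ^ 2 - (hx z * (starRingEnd ℂ) (hy z)).im := by
    intro z
    rw [hB, hK z]
    exact cl_pointwise _ _
  have him : ∫ z, (hx z * (starRingEnd ℂ) (hy z)).im = 0 := by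
    have := integral_im hint
    simp only [RCLike.im_to_complex] at this
    rw [this, hkey]
  have hb2 : Integrable (fun z => ‖Beu k z‖ ^ 2) := by
    simp only [hpt]
    exact hk2.sub hint.im
  have hI : ∫ z, ‖Beu k z‖ ^ 2 = ∫ z, ‖k z‖ ^ 2 := by
    simp only [hpt]
    have h1 := integral_sub hk2 hint.im
    simp only [RCLike.im_to_complex] at h1
    rw [h1, him, sub_zero]
  have hE : ∀ f : ℂ → ℂ, Integrable (fun z => ‖f z‖ ^ 2) →
      eLpNorm f 2 volume = (ENNReal.ofReal (∫ z, ‖f z‖ ^ 2)) ^ (1 / 2 : ℝ) := by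
    intro f hf
    rw [eLpNorm_eq_lintegral_rpow_enorm_toReal (by norm_num) (by norm_num),
      ofReal_integral_eq_lintegral_ofReal hf (Eventually.of_forall fun z => by positivity)]
    simp only [ENNReal.toReal_ofNat, ENNReal.rpow_ofNat]
    congr 2
    funext z
    rw [ENNReal.ofReal_pow (norm_nonneg _), ofReal_norm]
  rw [hE _ hb2, hE _ hk2, hI]

theorem eLpNorm_beu_le {k : ℂ → ℂ} (hk : Test k) (hcp : Cau (dzb k) = k) :
    eLpNorm (Beu k) 2 volume ≤ eLpNorm k 2 volume := (eLpNorm_beu_eq hk hcp).le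

end Pool.Agent.Lib.MP_9e2694_an
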