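import Pool.Agent.Lib.MP_9e2694_an.Basic

/-!
Cauchy-Pompeiu and the principal value formula in polar coordinates (MP_9e2694_an).
-/

set_option autoImplicit false

open MeasureTheory Complex Filter Topology Set
open scoped ContDiff

namespace Pool.Agent.Lib.MP_9e2694_an

/-- the points of a circle -/
noncomputable def pe (t : ℝ) : ℂ := exp (t * I)

theorem pe_ne (t : ℝ) : pe t ≠ 0 := exp_ne_zero _

theorem norm_pe (t : ℝ) : ‖pe t‖ = 1 := by
  unfold pe; exact norm_exp_ofReal_mul_I t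

theorem continuous_pe : Continuous pe := by
  unfold pe; fun_prop

theorem conj_pe_mul (t : ℝ) : (starRingEnd ℂ) (pe t) * pe t = 1 := by
  rw [mul_comm, Complex.mul_conj, Complex.normSq_eq_norm_sq, norm_pe]
  simp

theorem conj_pe (t : ℝ) : (starRingEnd ℂ) (pe t) = (pe t)⁻¹ :=
  eq_inv_of_mul_eq_one_left (conj_pe_mul t)

theorem norm_mul_pe {r : ℝ} (hr : 0 ≤ r) (t : ℝ) : ‖(r : ℂ) * pe t‖ = r := by
  rw [norm_mul, norm_pe, mul_one, Complex.norm_real, Real.norm_eq_abs, abs_of_nonneg hr]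

theorem polarCoord_symm_eq (p : ℝ × ℝ) : Complex.polarCoord.symm p = (p.1 : ℂ) * pe p.2 := by
  rw [Complex.polarCoord_symm_apply, pe, Complex.exp_mul_I]
  simp

theorem polar_set (g : ℂ → ℂ) {e : ℝ} (he : 0 ≤ e) :
    ∫ w in {w : ℂ | e < ‖w‖}, g w =
      ∫ p in Ioi e ×ˢ Ioo (-Real.pi) Real.pi, (p.1 : ℂ) * g ((p.1 : ℂ) * pe p.2) := by
  have hm : MeasurableSet {w : ℂ | e < ‖w‖} := measurableSet_lt measurable_const measurable_norm
  rw [← integral_indicator hm, ← Complex.integral_comp_polarCoord_symm]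
  have ht : polarCoord.target = Ioi (0 : ℝ) ×ˢ Ioo (-Real.pi) Real.pi := rfl
  rw [ht]
  have hm1 : MeasurableSet (Ioi (0 : ℝ) ×ˢ Ioo (-Real.pi) Real.pi) :=
    measurableSet_Ioi.prod measurableSet_Ioo
  have hm2 : MeasurableSet (Ioi e ×ˢ Ioo (-Real.pi) Real.pi) :=
    measurableSet_Ioi.prod measurableSet_Ioo
  rw [← integral_indicator hm1, ← integral_indicator hm2]
  congr 1
  funext p
  by_cases h1 : p ∈ Ioi (0 : ℝ) ×ˢ Ioo (-Real.pi) Real.pi
  · rw [indicator_of_mem h1]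
    have hp : 0 < p.1 := h1.1
    rw [polarCoord_symm_eq]
    by_cases h2 : e < p.1
    · have h3 : p ∈ Ioi e ×ˢ Ioo (-Real.pi) Real.pi := ⟨h2, h1.2⟩
      rw [indicator_of_mem h3, indicator_of_mem]
      · simp
      · show e < ‖(p.1 : ℂ) * pe p.2‖
        rwa [norm_mul_pe hp.le]
    · have h3 : p ∉ Ioi e ×ˢ Ioo (-Real.pi) Real.pi := fun h => h2 h.1
      rw [indicator_of_notMem h3, indicator_of_notMem]
      · simp
      · show ¬ (e < ‖(p.1 : ℂ) * pe p.2‖)
        rwa [norm_mul_pe hp.le]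
  · have h3 : p ∉ Ioi e ×ˢ Ioo (-Real.pi) Real.pi := by
      intro h
      apply h1
      exact ⟨lt_of_le_of_lt he h.1, h.2⟩
    rw [indicator_of_notMem h1, indicator_of_notMem h3]

theorem int_prod {H : ℝ × ℝ → ℂ} {e R : ℝ} (hc : ContinuousOn H (Ici e ×ˢ univ))
    (hR : ∀ p : ℝ × ℝ, R < p.1 → H p = 0) :
    IntegrableOn H (Ioi e ×ˢ Ioo (-Real.pi) Real.pi) := by
  have h1 : IntegrableOn H (Icc e R ×ˢ Icc (-Real.pi) Real.pi) := by
    apply ContinuousOn.integrableOn_compact (isCompact_Icc.prod isCompact_Icc)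
    exact hc.mono (fun p hp => ⟨hp.1.1, trivial⟩)
  have h2 : IntegrableOn H (Ioi R ×ˢ Ioo (-Real.pi) Real.pi) := by
    have : IntegrableOn (fun _ : ℝ × ℝ => (0 : ℂ)) (Ioi R ×ˢ Ioo (-Real.pi) Real.pi) :=
      integrableOn_zero
    refine this.congr_fun ?_ (measurableSet_Ioi.prod measurableSet_Ioo)
    intro p hp
    exact (hR p hp.1).symm
  refine (h1.union h2).mono_set ?_
  rintro p ⟨hp1, hp2⟩
  by_cases h : p.1 ≤ R
  · left
    exact ⟨⟨le_of_lt hp1, h⟩, ⟨hp2.1.le, hp2.2.le⟩⟩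
  · right
    exact ⟨not_le.mp h, hp2⟩

theorem iter1 {H : ℝ × ℝ → ℂ} {e : ℝ}
    (hi : IntegrableOn H (Ioi e ×ˢ Ioo (-Real.pi) Real.pi)) :
    ∫ p in Ioi e ×ˢ Ioo (-Real.pi) Real.pi, H p =
      ∫ r in Ioi e, ∫ t in Ioo (-Real.pi) Real.pi, H (r, t) := by
  rw [Measure.volume_eq_prod, setIntegral_prod]
  rwa [← Measure.volume_eq_prod]

theorem iter2 {H : ℝ × ℝ → ℂ} {e : ℝ}
    (hi : IntegrableOn H (Ioi e ×ˢ Ioo (-Real.pi) Real.pi)) :
    ∫ p in Ioi e ×ˢ Ioo (-Real.pi) Real.pi, H p =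
      ∫ t in Ioo (-Real.pi) Real.pi, ∫ r in Ioi e, H (r, t) := by
  rw [Measure.volume_eq_prod, ← Measure.prod_restrict, integral_prod_symm]
  rw [Measure.prod_restrict, ← Measure.volume_eq_prod]
  exact hi

/-- the total derivative in terms of the Wirtinger derivatives -/
theorem fderiv_wirt (u : ℂ → ℂ) (z v : ℂ) :
    fderiv ℝ u z v = v * dz u z + (starRingEnd ℂ) v * dzb u z := by
  have h : v = v.re • (1 : ℂ) + v.im • I := by
    rw [Complex.real_smul, Complex.real_smul, mul_one]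
    exact (Complex.re_add_im v).symm
  have h1 : fderiv ℝ u z v = (v.re : ℂ) * fderiv ℝ u z 1 + (v.im : ℂ) * fderiv ℝ u z I := by
    conv_lhs => rw [h]
    rw [map_add, map_smul, map_smul, Complex.real_smul, Complex.real_smul]
  rw [h1]
  unfold dz dzb
  have h2 : v = (v.re : ℂ) + (v.im : ℂ) * I := (Complex.re_add_im v).symm
  have h3 : (starRingEnd ℂ) v = (v.re : ℂ) - (v.im : ℂ) * I := by
    apply Complex.ext <;> simp
  rw [h3]
  generalize (v.re : ℂ) = a at *
  generalize (v.im : ℂ) = b at *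
  rw [h2]
  generalize fderiv ℝ u z 1 = p
  generalize fderiv ℝ u z I = q
  linear_combination (q * b) * I_sq

section

variable {u : ℂ → ℂ} (hu : Test u)

include hu

theorem Test.radius : ∃ R : ℝ, 0 < R ∧ ∀ w : ℂ, R < ‖w‖ → u w = 0 := by
  obtain ⟨R, hR, h⟩ := hu.2.isCompact.isBounded.exists_pos_norm_le
  refine ⟨R, hR, fun w hw => ?_⟩
  by_contra hne
  have := h w (subset_tsupport _ hne)
  linarith

theorem Test.differentiable : Differentiable ℝ u :=
  hu.1.differentiable (by simp)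

theorem hasDerivAt_r (r t : ℝ) :
    HasDerivAt (fun r : ℝ => u (r * pe t)) (fderiv ℝ u (r * pe t) (pe t)) r := by
  have h1 : HasDerivAt (fun r : ℝ => (r : ℂ) * pe t) (pe t) r := by
    have := (Complex.ofRealCLM.hasDerivAt (x := r)).mul_const (pe t)
    simpa using this
  have h2 := (hu.differentiable ((r : ℂ) * pe t)).hasFDerivAt
  exact h2.comp_hasDerivAt r h1

theorem hasDerivAt_t (r t : ℝ) :
    HasDerivAt (fun t : ℝ => u (r * pe t)) ((r : ℂ) * fderiv ℝ u (r * pe t) (I * pe t)) t := by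
  have h0 : HasDerivAt (fun t : ℝ => pe t) (I * pe t) t := by
    unfold pe
    have h1 : HasDerivAt (fun t : ℝ => (t : ℂ) * I) I t := by
      have := (Complex.ofRealCLM.hasDerivAt (x := t)).mul_const I
      simpa using this
    have h2 := h1.cexp
    rwa [mul_comm] at h2
  have h1 : HasDerivAt (fun t : ℝ => (r : ℂ) * pe t) ((r : ℂ) * (I * pe t)) t := h0.const_mul _
  have h2 := (hu.differentiable ((r : ℂ) * pe t)).hasFDerivAt
  have h3 := h2.comp_hasDerivAt t h1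
  have h4 : fderiv ℝ u (r * pe t) ((r : ℂ) * (I * pe t)) =
      (r : ℂ) * fderiv ℝ u (r * pe t) (I * pe t) := by
    have h5 : (r : ℂ) * (I * pe t) = r • (I * pe t) := (Complex.real_smul).symm
    rw [h5, map_smul, Complex.real_smul]
  rw [h4] at h3
  exact h3

theorem continuous_fd {f : ℝ × ℝ → ℂ} {g : ℝ × ℝ → ℂ} (hf : Continuous f) (hg : Continuous g) :
    Continuous (fun p => fderiv ℝ u (f p) (g p)) := by
  have h1 : Continuous (fderiv ℝ u) := hu.1.continuous_fderiv (by simp)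
  exact (h1.comp hf).clm_apply hg

theorem int_r (e t : ℝ) :
    ∫ r in Ioi e, fderiv ℝ u (r * pe t) (pe t) = - u (e * pe t) := by
  obtain ⟨R, hR, hRu⟩ := hu.radius
  have h1 : ContDiff ℝ 1 (fun r : ℝ => u (r * pe t)) := by
    have : ContDiff ℝ 1 (fun r : ℝ => (r : ℂ) * pe t) :=
      (Complex.ofRealCLM.contDiff).mul contDiff_const
    exact (hu.1.of_le (by simp)).comp this
  have h2 : HasCompactSupport (fun r : ℝ => u (r * pe t)) := by
    apply HasCompactSupport.of_support_subset_isCompact (isCompact_Icc (a := -R) (b := R))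
    intro r hr
    by_contra hn
    apply hr
    apply hRu
    rw [norm_mul, norm_pe, mul_one, Complex.norm_real, Real.norm_eq_abs]
    by_contra hlt
    exact hn (abs_le.mp (not_lt.mp hlt))
  have h3 := h2.integral_Ioi_deriv_eq h1 e
  rw [← h3]
  congr 1
  funext r
  exact (hasDerivAt_r hu r t).deriv.symm

theorem int_t0 {r : ℝ} (hr : r ≠ 0) :
    ∫ t in Ioo (-Real.pi) Real.pi, fderiv ℝ u (r * pe t) (I * pe t) = 0 := by
  have hpi : -Real.pi ≤ Real.pi := by linarith [Real.pi_pos]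
  rw [← integral_Ioc_eq_integral_Ioo, ← intervalIntegral.integral_of_le hpi]
  have hc : Continuous (fun t : ℝ => (r : ℂ) * fderiv ℝ u (r * pe t) (I * pe t)) := by
    apply continuous_const.mul
    exact continuous_fd hu (f := fun p : ℝ × ℝ => (r : ℂ) * pe p.2)
      (g := fun p : ℝ × ℝ => I * pe p.2)
      (continuous_const.mul (continuous_pe.comp continuous_snd))
      (continuous_const.mul (continuous_pe.comp continuous_snd)) |>.comp
      (continuous_const.prodMk continuous_id : Continuous fun t : ℝ => ((0 : ℝ), t))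
  have h := intervalIntegral.integral_eq_sub_of_hasDerivAt (a := -Real.pi) (b := Real.pi)
    (fun t _ => hasDerivAt_t hu r t) (hc.intervalIntegrable _ _)
  rw [intervalIntegral.integral_const_mul] at h
  have h1 : pe Real.pi = pe (-Real.pi) := by
    unfold pe
    rw [Complex.exp_pi_mul_I]
    push_cast
    rw [neg_mul, Complex.exp_neg, Complex.exp_pi_mul_I]
    norm_num
  rw [h1, sub_self] at h
  rcases mul_eq_zero.mp h with h2 | h2
  · exact absurd (Complex.ofReal_eq_zero.mp h2) hr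
  · exact h2

theorem int_t2 {r : ℝ} (hr : r ≠ 0) :
    ∫ t in Ioo (-Real.pi) Real.pi, (pe t)⁻¹ ^ 2 * fderiv ℝ u (r * pe t) (I * pe t) =
      2 * I / r * ∫ t in Ioo (-Real.pi) Real.pi, (pe t)⁻¹ ^ 2 * u (r * pe t) := by
  have hpi : -Real.pi ≤ Real.pi := by linarith [Real.pi_pos]
  have hpc : Continuous (fun t : ℝ => (pe t)⁻¹ ^ 2) := (continuous_pe.inv₀ pe_ne).pow 2
  rw [← integral_Ioc_eq_integral_Ioo, ← integral_Ioc_eq_integral_Ioo,
    ← intervalIntegral.integral_of_le hpi, ← intervalIntegral.integral_of_le hpi]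
  have hcq : Continuous (fun t : ℝ => fderiv ℝ u (r * pe t) (I * pe t)) := by
    exact continuous_fd hu (f := fun p : ℝ × ℝ => (r : ℂ) * pe p.2)
      (g := fun p : ℝ × ℝ => I * pe p.2)
      (continuous_const.mul (continuous_pe.comp continuous_snd))
      (continuous_const.mul (continuous_pe.comp continuous_snd)) |>.comp
      (continuous_const.prodMk continuous_id : Continuous fun t : ℝ => ((0 : ℝ), t))
  have hcu : Continuous (fun t : ℝ => u (r * pe t)) :=
    hu.continuous.comp (continuous_const.mul continuous_pe)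
  have hd : ∀ t : ℝ, HasDerivAt (fun t : ℝ => (pe t)⁻¹ ^ 2 * u (r * pe t))
      ((-2 * I * (pe t)⁻¹ ^ 2) * u (r * pe t) +
        (pe t)⁻¹ ^ 2 * ((r : ℂ) * fderiv ℝ u (r * pe t) (I * pe t))) t := by
    intro t
    have h0 : HasDerivAt (fun t : ℝ => pe t) (I * pe t) t := by
      unfold pe
      have h1 : HasDerivAt (fun t : ℝ => (t : ℂ) * I) I t := by
        have := (Complex.ofRealCLM.hasDerivAt (x := t)).mul_const I
        simpa using this
      have h2 := h1.cexp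
      rwa [mul_comm] at h2
    have h1 : HasDerivAt (fun t : ℝ => (pe t)⁻¹ ^ 2) (-2 * I * (pe t)⁻¹ ^ 2) t := by
      have h2 := (h0.inv (pe_ne t)).pow 2
      have h3 : -2 * I * (pe t)⁻¹ ^ 2 =
          ((2 : ℕ) : ℂ) * (pe⁻¹ t) ^ (2 - 1) * (-(I * pe t) / pe t ^ 2) := by
        have := pe_ne t
        rw [Pi.inv_apply]
        push_cast
        field_simp
      rw [h3]
      exact h2
    exact h1.mul (hasDerivAt_t hu r t)
  have hc1 : Continuous (fun t : ℝ => (-2 * I * (pe t)⁻¹ ^ 2) * u (r * pe t)) :=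
    (continuous_const.mul hpc).mul hcu
  have hc2 : Continuous (fun t : ℝ => (pe t)⁻¹ ^ 2 * ((r : ℂ) * fderiv ℝ u (r * pe t) (I * pe t))) :=
    hpc.mul (continuous_const.mul hcq)
  have h := intervalIntegral.integral_eq_sub_of_hasDerivAt (a := -Real.pi) (b := Real.pi)
    (fun t _ => hd t) ((hc1.add hc2).intervalIntegrable _ _)
  rw [intervalIntegral.integral_add (hc1.intervalIntegrable _ _) (hc2.intervalIntegrable _ _)] at h
  have h1 : pe Real.pi = pe (-Real.pi) := by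
    unfold pe
    rw [Complex.exp_pi_mul_I]
    push_cast
    rw [neg_mul, Complex.exp_neg, Complex.exp_pi_mul_I]
    norm_num
  rw [h1, sub_self] at h
  have e1 : (∫ t in (-Real.pi)..Real.pi, (-2 * I * (pe t)⁻¹ ^ 2) * u (r * pe t)) =
      -2 * I * ∫ t in (-Real.pi)..Real.pi, (pe t)⁻¹ ^ 2 * u (r * pe t) := by
    rw [← intervalIntegral.integral_const_mul]
    congr 1
    funext t
    ring
  have e2 : (∫ t in (-Real.pi)..Real.pi,
      (pe t)⁻¹ ^ 2 * ((r : ℂ) * fderiv ℝ u (r * pe t) (I * pe t))) =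
      r * ∫ t in (-Real.pi)..Real.pi, (pe t)⁻¹ ^ 2 * fderiv ℝ u (r * pe t) (I * pe t) := by
    rw [← intervalIntegral.integral_const_mul]
    congr 1
    funext t
    ring
  rw [e1, e2] at h
  have hr' : (r : ℂ) ≠ 0 := Complex.ofReal_ne_zero.mpr hr
  rw [div_mul_eq_mul_div, eq_div_iff hr']
  linear_combination h

theorem cont_Pr : Continuous (fun p : ℝ × ℝ => fderiv ℝ u (p.1 * pe p.2) (pe p.2)) :=
  continuous_fd hu
    ((Complex.continuous_ofReal.comp continuous_fst).mul (continuous_pe.comp continuous_snd))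
    (continuous_pe.comp continuous_snd)

theorem cont_Q : Continuous (fun p : ℝ × ℝ => fderiv ℝ u (p.1 * pe p.2) (I * pe p.2)) :=
  continuous_fd hu
    ((Complex.continuous_ofReal.comp continuous_fst).mul (continuous_pe.comp continuous_snd))
    (continuous_const.mul (continuous_pe.comp continuous_snd))

theorem cont_P : Continuous (fun p : ℝ × ℝ => u (p.1 * pe p.2)) :=
  hu.continuous.comp
    ((Complex.continuous_ofReal.comp continuous_fst).mul (continuous_pe.comp continuous_snd))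

theorem Test.radius2 : ∃ R : ℝ, 0 < R ∧ (∀ p : ℝ × ℝ, R < p.1 → u (p.1 * pe p.2) = 0) ∧
    ∀ p : ℝ × ℝ, R < p.1 → fderiv ℝ u (p.1 * pe p.2) = 0 := by
  obtain ⟨R, hR, h⟩ := hu.2.isCompact.isBounded.exists_pos_norm_le
  have key : ∀ p : ℝ × ℝ, R < p.1 → (p.1 : ℂ) * pe p.2 ∉ tsupport u := by
    intro p hp hmem
    have h1 := h _ hmem
    rw [norm_mul_pe (hR.le.trans hp.le)] at h1
    linarith
  refine ⟨R, hR, fun p hp => ?_, fun p hp => ?_⟩
  · exact image_eq_zero_of_notMem_tsupport (key p hp)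
  · by_contra hne
    exact key p hp (support_fderiv_subset ℝ hne)

theorem int_Pr (e : ℝ) :
    ∫ p in Ioi e ×ˢ Ioo (-Real.pi) Real.pi, fderiv ℝ u (p.1 * pe p.2) (pe p.2) =
      - ∫ t in Ioo (-Real.pi) Real.pi, u (e * pe t) := by
  obtain ⟨R, hR, h1, h2⟩ := hu.radius2
  rw [iter2 (int_prod (R := R) (cont_Pr hu).continuousOn (fun p hp => by rw [h2 p hp]; rfl))]
  rw [← integral_neg]
  congr 1
  funext t
  exact int_r hu e t

theorem int_Q {e : ℝ} (he : 0 ≤ e) :
    ∫ p in Ioi e ×ˢ Ioo (-Real.pi) Real.pi, fderiv ℝ u (p.1 * pe p.2) (I * pe p.2) = 0 := by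
  obtain ⟨R, hR, h1, h2⟩ := hu.radius2
  rw [iter1 (int_prod (R := R) (cont_Q hu).continuousOn (fun p hp => by rw [h2 p hp]; rfl))]
  have : ∀ r ∈ Ioi e, ∫ t in Ioo (-Real.pi) Real.pi,
      fderiv ℝ u (((r, t) : ℝ × ℝ).1 * pe ((r, t) : ℝ × ℝ).2) (I * pe ((r, t) : ℝ × ℝ).2) = 0 := by
    intro r hr
    exact int_t0 hu (ne_of_gt (lt_of_le_of_lt he hr))
  rw [setIntegral_congr_fun measurableSet_Ioi this]
  simp

omit hu in
theorem dzb_polar (p : ℝ × ℝ) : (pe p.2)⁻¹ * dzb u (p.1 * pe p.2) =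
    1 / 2 * (fderiv ℝ u (p.1 * pe p.2) (pe p.2) + I * fderiv ℝ u (p.1 * pe p.2) (I * pe p.2)) := by
  rw [fderiv_wirt, fderiv_wirt, map_mul, conj_pe, Complex.conj_I]
  linear_combination (-1 / 2 * pe p.2 * dz u (p.1 * pe p.2) +
    1 / 2 * (pe p.2)⁻¹ * dzb u (p.1 * pe p.2)) * I_sq

omit hu in
theorem dz_polar (p : ℝ × ℝ) : (pe p.2)⁻¹ * dz u (p.1 * pe p.2) =
    1 / 2 * ((pe p.2)⁻¹ ^ 2 * fderiv ℝ u (p.1 * pe p.2) (pe p.2) -
      I * ((pe p.2)⁻¹ ^ 2 * fderiv ℝ u (p.1 * pe p.2) (I * pe p.2))) := by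
  rw [fderiv_wirt, fderiv_wirt, map_mul, conj_pe, Complex.conj_I]
  have h := inv_mul_cancel₀ (pe_ne p.2)
  generalize (pe p.2)⁻¹ = c at *
  generalize pe p.2 = d at *
  generalize dz u (p.1 * d) = x
  generalize dzb u (p.1 * d) = y
  linear_combination (1 / 2 * c ^ 2 * d * x - 1 / 2 * c ^ 3 * y) * I_sq - c * x * h

theorem cauchy_pompeiu : ∫ w : ℂ, dzb u w / w = -(Real.pi : ℂ) * u 0 := by
  obtain ⟨R, hR, h1, h2⟩ := hu.radius2
  have e0 : ∫ w : ℂ, dzb u w / w = ∫ w in {w : ℂ | 0 < ‖w‖}, dzb u w / w := by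
    have : {w : ℂ | 0 < ‖w‖} = {(0 : ℂ)}ᶜ := by
      ext w
      simp
    rw [this, restrict_compl_singleton]
  rw [e0, polar_set _ le_rfl]
  have e1 : ∫ p in Ioi (0 : ℝ) ×ˢ Ioo (-Real.pi) Real.pi,
      (p.1 : ℂ) * (dzb u ((p.1 : ℂ) * pe p.2) / ((p.1 : ℂ) * pe p.2)) =
      ∫ p in Ioi (0 : ℝ) ×ˢ Ioo (-Real.pi) Real.pi,
        1 / 2 * (fderiv ℝ u (p.1 * pe p.2) (pe p.2) +
          I * fderiv ℝ u (p.1 * pe p.2) (I * pe p.2)) := by
    apply setIntegral_congr_fun (measurableSet_Ioi.prod measurableSet_Ioo)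
    intro p hp
    have hp1 : (p.1 : ℂ) ≠ 0 := Complex.ofReal_ne_zero.mpr (ne_of_gt hp.1)
    have hp2 := pe_ne p.2
    beta_reduce
    rw [← dzb_polar p]
    field_simp
  rw [e1, integral_const_mul, integral_add, integral_const_mul, int_Pr hu, int_Q hu le_rfl]
  · simp only [ofReal_zero, zero_mul, setIntegral_const, mul_zero, add_zero]
    rw [measureReal_def, Real.volume_Ioo, ENNReal.toReal_ofReal (by linarith [Real.pi_pos]),
      Complex.real_smul]
    push_cast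
    ring
  · exact int_prod (R := R) (cont_Pr hu).continuousOn (fun p hp => by rw [h2 p hp]; rfl)
  · exact (int_prod (R := R) (cont_Q hu).continuousOn
      (fun p hp => by rw [h2 p hp]; rfl)).const_mul I

theorem int_Pr2 (e : ℝ) :
    ∫ p in Ioi e ×ˢ Ioo (-Real.pi) Real.pi,
      (pe p.2)⁻¹ ^ 2 * fderiv ℝ u (p.1 * pe p.2) (pe p.2) =
      - ∫ t in Ioo (-Real.pi) Real.pi, (pe t)⁻¹ ^ 2 * u (e * pe t) := by
  obtain ⟨R, hR, h1, h2⟩ := hu.radius2
  have hpc : Continuous (fun p : ℝ × ℝ => (pe p.2)⁻¹ ^ 2) :=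
    ((continuous_pe.inv₀ pe_ne).pow 2).comp continuous_snd
  have hc1 : Continuous (fun p : ℝ × ℝ =>
      (pe p.2)⁻¹ ^ 2 * fderiv ℝ u (p.1 * pe p.2) (pe p.2)) := hpc.mul (cont_Pr hu)
  rw [iter2 (int_prod (R := R) hc1.continuousOn (fun p hp => by rw [h2 p hp]; simp))]
  rw [← integral_neg]
  congr 1
  funext t
  dsimp only
  rw [integral_const_mul, int_r hu e t]
  ring

theorem int_Q2 {e : ℝ} (he : 0 < e) :
    ∫ p in Ioi e ×ˢ Ioo (-Real.pi) Real.pi,
      (pe p.2)⁻¹ ^ 2 * fderiv ℝ u (p.1 * pe p.2) (I * pe p.2) =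
      2 * I * ∫ p in Ioi e ×ˢ Ioo (-Real.pi) Real.pi, (pe p.2)⁻¹ ^ 2 * u (p.1 * pe p.2) / p.1 := by
  obtain ⟨R, hR, h1, h2⟩ := hu.radius2
  have hpc : Continuous (fun p : ℝ × ℝ => (pe p.2)⁻¹ ^ 2) :=
    ((continuous_pe.inv₀ pe_ne).pow 2).comp continuous_snd
  have hi2 : IntegrableOn (fun p : ℝ × ℝ => (pe p.2)⁻¹ ^ 2 * u (p.1 * pe p.2) / p.1)
      (Ioi e ×ˢ Ioo (-Real.pi) Real.pi) := by
    apply int_prod (R := R)
    · apply ContinuousOn.div (hpc.mul (cont_P hu)).continuousOn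
      · exact (Complex.continuous_ofReal.comp continuous_fst).continuousOn
      · intro p hp
        exact Complex.ofReal_ne_zero.mpr (ne_of_gt (lt_of_lt_of_le he hp.1))
    · intro p hp
      rw [h1 p hp]
      simp
  have hc1 : Continuous (fun p : ℝ × ℝ =>
      (pe p.2)⁻¹ ^ 2 * fderiv ℝ u (p.1 * pe p.2) (I * pe p.2)) := hpc.mul (cont_Q hu)
  rw [iter1 (int_prod (R := R) hc1.continuousOn (fun p hp => by rw [h2 p hp]; simp)),
    iter1 hi2, ← integral_const_mul]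
  apply setIntegral_congr_fun measurableSet_Ioi
  intro r hr
  beta_reduce
  have hr0 : r ≠ 0 := ne_of_gt (lt_trans he hr)
  dsimp only
  rw [int_t2 hu hr0, integral_div]
  ring

theorem pv_identity {e : ℝ} (he : 0 < e) :
    ∫ w in {w : ℂ | e < ‖w‖}, u w / w ^ 2 =
      (∫ p in Ioi e ×ˢ Ioo (-Real.pi) Real.pi, (pe p.2)⁻¹ * dz u (p.1 * pe p.2)) +
      1 / 2 * ∫ t in Ioo (-Real.pi) Real.pi, (pe t)⁻¹ ^ 2 * u (e * pe t) := by
  obtain ⟨R, hR, h1, h2⟩ := hu.radius2
  have hpc : Continuous (fun p : ℝ × ℝ => (pe p.2)⁻¹ ^ 2) :=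
    ((continuous_pe.inv₀ pe_ne).pow 2).comp continuous_snd
  rw [polar_set _ he.le]
  have e1 : ∫ p in Ioi e ×ˢ Ioo (-Real.pi) Real.pi,
      (p.1 : ℂ) * (u ((p.1 : ℂ) * pe p.2) / ((p.1 : ℂ) * pe p.2) ^ 2) =
      ∫ p in Ioi e ×ˢ Ioo (-Real.pi) Real.pi, (pe p.2)⁻¹ ^ 2 * u (p.1 * pe p.2) / p.1 := by
    apply setIntegral_congr_fun (measurableSet_Ioi.prod measurableSet_Ioo)
    intro p hp
    have hp1 : (p.1 : ℂ) ≠ 0 := Complex.ofReal_ne_zero.mpr (ne_of_gt (lt_trans he hp.1))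
    have hp2 := pe_ne p.2
    beta_reduce
    field_simp
  have e2 : ∫ p in Ioi e ×ˢ Ioo (-Real.pi) Real.pi, (pe p.2)⁻¹ * dz u (p.1 * pe p.2) =
      ∫ p in Ioi e ×ˢ Ioo (-Real.pi) Real.pi,
      1 / 2 * ((pe p.2)⁻¹ ^ 2 * fderiv ℝ u (p.1 * pe p.2) (pe p.2) -
      I * ((pe p.2)⁻¹ ^ 2 * fderiv ℝ u (p.1 * pe p.2) (I * pe p.2))) := by
    congr 1
    funext p
    exact dz_polar p
  rw [e1, e2, integral_const_mul, integral_sub, integral_const_mul, int_Pr2 hu, int_Q2 hu he]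
  · linear_combination (∫ p in Ioi e ×ˢ Ioo (-Real.pi) Real.pi,
      (pe p.2)⁻¹ ^ 2 * u (p.1 * pe p.2) / p.1) * I_sq
  · have hc1 : Continuous (fun p : ℝ × ℝ =>
      (pe p.2)⁻¹ ^ 2 * fderiv ℝ u (p.1 * pe p.2) (pe p.2)) := hpc.mul (cont_Pr hu)
    exact int_prod (R := R) hc1.continuousOn (fun p hp => by rw [h2 p hp]; simp)
  · have hc1 : Continuous (fun p : ℝ × ℝ =>
      (pe p.2)⁻¹ ^ 2 * fderiv ℝ u (p.1 * pe p.2) (I * pe p.2)) := hpc.mul (cont_Q hu)
    exact (int_prod (R := R) hc1.continuousOn (fun p hp => by rw [h2 p hp]; simp)).const_mul I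

theorem cont_dz : Continuous (fun p : ℝ × ℝ => (pe p.2)⁻¹ * dz u (p.1 * pe p.2)) := by
  apply ((continuous_pe.inv₀ pe_ne).comp continuous_snd).mul
  exact hu.dz.continuous.comp
    ((Complex.continuous_ofReal.comp continuous_fst).mul (continuous_pe.comp continuous_snd))

omit hu in
theorem dz_zero_polar : ∫ w : ℂ, dz u w / w =
    ∫ p in Ioi (0 : ℝ) ×ˢ Ioo (-Real.pi) Real.pi, (pe p.2)⁻¹ * dz u (p.1 * pe p.2) := by
  have e0 : ∫ w : ℂ, dz u w / w = ∫ w in {w : ℂ | 0 < ‖w‖}, dz u w / w := by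
    have : {w : ℂ | 0 < ‖w‖} = {(0 : ℂ)}ᶜ := by
      ext w
      simp
    rw [this, restrict_compl_singleton]
  rw [e0, polar_set _ le_rfl]
  apply setIntegral_congr_fun (measurableSet_Ioi.prod measurableSet_Ioo)
  intro p hp
  have hp1 : (p.1 : ℂ) ≠ 0 := Complex.ofReal_ne_zero.mpr (ne_of_gt hp.1)
  have hp2 := pe_ne p.2
  beta_reduce
  field_simp

theorem tendsto_area : Tendsto (fun e : ℝ =>
    ∫ p in Ioi e ×ˢ Ioo (-Real.pi) Real.pi, (pe p.2)⁻¹ * dz u (p.1 * pe p.2)) (𝓝[>] 0)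
    (𝓝 (∫ w : ℂ, dz u w / w)) := by
  rw [dz_zero_polar]
  have hi : IntegrableOn (fun p : ℝ × ℝ => (pe p.2)⁻¹ * dz u (p.1 * pe p.2))
      (Ioi (0 : ℝ) ×ˢ Ioo (-Real.pi) Real.pi) := by
    obtain ⟨R, hR, h1, h2⟩ := hu.dz.radius2
    exact int_prod (R := R) (cont_dz hu).continuousOn (fun p hp => by rw [h1 p hp]; simp)
  have hm : ∀ e : ℝ, MeasurableSet (Ioi e ×ˢ Ioo (-Real.pi) Real.pi) := fun e =>
    measurableSet_Ioi.prod measurableSet_Ioo
  have e1 : ∀ᶠ e : ℝ in 𝓝[>] 0, (∫ p in Ioi (0 : ℝ) ×ˢ Ioo (-Real.pi) Real.pi,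
      (Ioi e ×ˢ Ioo (-Real.pi) Real.pi).indicator
        (fun p : ℝ × ℝ => (pe p.2)⁻¹ * dz u (p.1 * pe p.2)) p) =
      ∫ p in Ioi e ×ˢ Ioo (-Real.pi) Real.pi, (pe p.2)⁻¹ * dz u (p.1 * pe p.2) := by
    filter_upwards [self_mem_nhdsWithin] with e he
    rw [setIntegral_indicator (hm e)]
    congr 2
    ext p
    constructor
    · rintro ⟨_, h⟩
      exact h
    · intro h
      exact ⟨⟨lt_trans (show (0 : ℝ) < e from he) (show e < p.1 from h.1), h.2⟩, h⟩
  refine Tendsto.congr' e1 ?_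
  apply tendsto_integral_filter_of_dominated_convergence
    (fun p : ℝ × ℝ => ‖(pe p.2)⁻¹ * dz u (p.1 * pe p.2)‖)
  · refine Eventually.of_forall fun e => ?_
    exact (hi.aestronglyMeasurable).indicator (hm e)
  · refine Eventually.of_forall fun e => Eventually.of_forall fun p => ?_
    exact norm_indicator_le_norm_self _ _
  · exact hi.norm
  · refine (ae_restrict_iff' (hm 0)).mpr (Eventually.of_forall fun p hp => ?_)
    apply tendsto_const_nhds.congr'
    have hp1 : (0 : ℝ) < p.1 := hp.1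
    filter_upwards [mem_nhdsWithin_of_mem_nhds (Iio_mem_nhds hp1)] with e he
    rw [indicator_of_mem]
    exact ⟨he, hp.2⟩

theorem tendsto_circle : Tendsto (fun e : ℝ =>
    ∫ t in Ioo (-Real.pi) Real.pi, (pe t)⁻¹ ^ 2 * u (e * pe t)) (𝓝[>] 0) (𝓝 0) := by
  have hpc : Continuous (fun t : ℝ => (pe t)⁻¹ ^ 2) := (continuous_pe.inv₀ pe_ne).pow 2
  have h0 : ∫ t in Ioo (-Real.pi) Real.pi, (pe t)⁻¹ ^ 2 * u (((0 : ℝ) : ℂ) * pe t) = 0 := by
    simp only [ofReal_zero, zero_mul]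
    rw [integral_mul_const]
    have : ∫ t in Ioo (-Real.pi) Real.pi, (pe t)⁻¹ ^ 2 = 0 := by
      have hpi : -Real.pi ≤ Real.pi := by linarith [Real.pi_pos]
      rw [← integral_Ioc_eq_integral_Ioo, ← intervalIntegral.integral_of_le hpi]
      have h1 : ∀ t : ℝ, (pe t)⁻¹ ^ 2 = exp ((-2 * I) * t) := by
        intro t
        unfold pe
        rw [← Complex.exp_neg, ← Complex.exp_nat_mul]
        congr 1
        push_cast
        ring
      simp_rw [h1]
      rw [integral_exp_mul_complex (by simp)]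
      have h2 : exp (-2 * I * (Real.pi : ℂ)) = exp (-2 * I * ((-Real.pi : ℝ) : ℂ)) := by
        rw [Complex.exp_eq_exp_iff_exists_int]
        refine ⟨-2, ?_⟩
        push_cast
        ring
      rw [h2, sub_self, zero_div]
    rw [this, zero_mul]
  obtain ⟨M, hM⟩ := hu.2.exists_bound_of_continuous hu.continuous
  have h1 : Tendsto (fun e : ℝ =>
      ∫ t in Ioo (-Real.pi) Real.pi, (pe t)⁻¹ ^ 2 * u (e * pe t)) (𝓝 0)
      (𝓝 (∫ t in Ioo (-Real.pi) Real.pi, (pe t)⁻¹ ^ 2 * u (((0 : ℝ) : ℂ) * pe t))) := by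
    apply tendsto_integral_filter_of_dominated_convergence (fun _ => M)
    · refine Eventually.of_forall fun e => ?_
      exact (hpc.mul (hu.continuous.comp (continuous_const.mul continuous_pe))).aestronglyMeasurable
    · refine Eventually.of_forall fun e => Eventually.of_forall fun t => ?_
      rw [norm_mul, norm_pow, norm_inv, norm_pe]
      simpa using hM _
    · exact integrable_const M
    · refine Eventually.of_forall fun t => ?_
      have : Continuous (fun e : ℝ => (pe t)⁻¹ ^ 2 * u (e * pe t)) :=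
        continuous_const.mul (hu.continuous.comp (Complex.continuous_ofReal.mul continuous_const))
      exact this.tendsto 0
  rw [h0] at h1
  exact h1.mono_left nhdsWithin_le_nhds

/-- the principal value at the origin -/
theorem pv_zero : Tendsto (fun e : ℝ => ∫ w in {w : ℂ | e < ‖w‖}, u w / w ^ 2) (𝓝[>] 0)
    (𝓝 (∫ w : ℂ, dz u w / w)) := by
  have h := (tendsto_area hu).add ((tendsto_circle hu).const_mul (1 / 2))
  rw [mul_zero, add_zero] at h
  refine Tendsto.congr' ?_ h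
  filter_upwards [self_mem_nhdsWithin] with e he
  exact (pv_identity hu he).symm

end

theorem Test.reflect {k : ℂ → ℂ} (hk : Test k) (z : ℂ) : Test (fun w => k (z - w)) := by
  refine ⟨hk.1.comp (contDiff_const.sub contDiff_id), ?_⟩
  exact hk.2.comp_homeomorph (Homeomorph.subLeft z)

theorem fderiv_reflect {k : ℂ → ℂ} (hk : Test k) (z w v : ℂ) :
    fderiv ℝ (fun w => k (z - w)) w v = - fderiv ℝ k (z - w) v := by
  have h1 : HasFDerivAt (fun w : ℂ => z - w) (-ContinuousLinearMap.id ℝ ℂ) w := by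
    have := (hasFDerivAt_id (𝕜 := ℝ) w).const_sub z
    exact this
  have h2 := (hk.differentiable (z - w)).hasFDerivAt.comp w h1
  have h3 := h2.fderiv
  show (fderiv ℝ (k ∘ fun w => z - w) w) v = _
  rw [h3]
  simp

theorem dz_reflect {k : ℂ → ℂ} (hk : Test k) (z w : ℂ) :
    dz (fun w => k (z - w)) w = - dz k (z - w) := by
  unfold dz
  rw [fderiv_reflect hk, fderiv_reflect hk]
  ring

theorem dzb_reflect {k : ℂ → ℂ} (hk : Test k) (z w : ℂ) :
    dzb (fun w => k (z - w)) w = - dzb k (z - w) := by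
  unfold dzb
  rw [fderiv_reflect hk, fderiv_reflect hk]
  ring

/-- Cauchy-Pompeiu. -/
theorem cau_dzb {k : ℂ → ℂ} (hk : Test k) : Cau (dzb k) = k := by
  funext z
  have h := cauchy_pompeiu (hk.reflect z)
  simp_rw [dzb_reflect hk] at h
  unfold Cau
  have e1 : ∫ w : ℂ, -dzb k (z - w) / w = - ∫ w : ℂ, dzb k (z - w) / w := by
    rw [← integral_neg]
    congr 1
    funext w
    ring
  rw [e1, sub_zero] at h
  have hpi : (Real.pi : ℂ) ≠ 0 := Complex.ofReal_ne_zero.mpr Real.pi_ne_zero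
  have h2 : ∫ w : ℂ, dzb k (z - w) / w = Real.pi * k z := by linear_combination -h
  rw [h2]
  field_simp

/-- The principal value formula for the Beurling transform. -/
theorem pv_tendsto {k : ℂ → ℂ} (hk : Test k) (x : ℂ) :
    Tendsto (fun e : ℝ => -(1 / (Real.pi : ℂ)) *
      ∫ y in {y : ℂ | e < ‖x - y‖}, k y / (x - y) ^ 2) (𝓝[>] 0) (𝓝 (Beu k x)) := by
  have h := pv_zero (hk.reflect x)
  have e1 : ∫ w : ℂ, dz (fun w => k (x - w)) w / w = - ∫ w : ℂ, dz k (x - w) / w := by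
    rw [← integral_neg]
    congr 1
    funext w
    rw [dz_reflect hk]
    ring
  rw [e1] at h
  have h2 := h.const_mul (-(1 / (Real.pi : ℂ)))
  have e2 : -(1 / (Real.pi : ℂ)) * -(∫ w : ℂ, dz k (x - w) / w) = Beu k x := by
    unfold Beu Cau
    ring
  rw [e2] at h2
  refine h2.congr fun e => ?_
  congr 1
  have hm1 : MeasurableSet {w : ℂ | e < ‖w‖} := measurableSet_lt measurable_const measurable_norm
  have hm2 : MeasurableSet {y : ℂ | e < ‖x - y‖} :=
    measurableSet_lt measurable_const (measurable_const.sub measurable_id).norm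
  rw [← integral_indicator hm1, ← integral_indicator hm2]
  rw [← integral_sub_left_eq_self _ volume x]
  congr 1
  funext y
  by_cases hy : e < ‖x - y‖
  · rw [indicator_of_mem (show x - y ∈ {w : ℂ | e < ‖w‖} from hy),
      indicator_of_mem (show y ∈ {y : ℂ | e < ‖x - y‖} from hy)]
    rw [sub_sub_cancel]
  · rw [indicator_of_notMem (show x - y ∉ {w : ℂ | e < ‖w‖} from hy),
      indicator_of_notMem (show y ∉ {y : ℂ | e < ‖x - y‖} from hy)]

end Pool.Agent.Lib.MP_9e2694_an
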