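import Pool.Agent.Lib.MP_9e2694_an.Basic

/-!
Lower bound for the `L^p` norm of the Beurling transform (MP_9e2694_an, S05571): the radial
stretch type test functions `h(z) = z |z|^(-2/p) V(log |z|)`.
-/

set_option autoImplicit false

open MeasureTheory Complex Filter Topology Set
open scoped ContDiff ENNReal

namespace Pool.Agent.Lib.MP_9e2694_an

/-- The radial profile as a function of `t = |z|^2`. -/
noncomputable def lowPsi (p : ℝ) (Φ : ℝ → ℝ) (t : ℝ) : ℝ := t ^ (-(1 / p)) * Φ (Real.log t / 2)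

/-- The square of the modulus. -/
noncomputable def lowQ (z : ℂ) : ℝ := z.re ^ 2 + z.im ^ 2

theorem lowQ_eq (z : ℂ) : lowQ z = ‖z‖ ^ 2 := by
  rw [← Complex.normSq_eq_norm_sq, Complex.normSq_apply, lowQ]
  ring

theorem lowQ_nonneg (z : ℂ) : 0 ≤ lowQ z := by
  rw [lowQ_eq]
  positivity

theorem lowQ_contDiff : ContDiff ℝ (⊤ : ℕ∞) lowQ := by
  unfold lowQ
  exact (Complex.reCLM.contDiff.pow 2).add (Complex.imCLM.contDiff.pow 2)

theorem lowPsi_zero {p : ℝ} (hp : 0 < p) (Φ : ℝ → ℝ) : lowPsi p Φ 0 = 0 := by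
  unfold lowPsi
  rw [Real.zero_rpow (by
    have : 0 < 1 / p := by positivity
    linarith)]
  simp

theorem low_exists_bound {Φ : ℝ → ℝ} (hc : HasCompactSupport Φ) :
    ∃ S : ℝ, 0 < S ∧ ∀ s : ℝ, S ≤ |s| → Φ s = 0 := by
  obtain ⟨R, hR⟩ := hc.isCompact.isBounded.subset_ball (0 : ℝ)
  refine ⟨max R 1, lt_max_of_lt_right one_pos, ?_⟩
  intro s hs
  by_contra hne
  have h1 : s ∈ Metric.ball (0 : ℝ) R := hR (subset_tsupport _ hne)
  rw [mem_ball_zero_iff, Real.norm_eq_abs] at h1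
  exact absurd (lt_of_lt_of_le h1 (le_max_left R 1)) (not_lt.mpr hs)

theorem lowPsi_eventually_zero {p : ℝ} (hp : 0 < p) {Φ : ℝ → ℝ} (hc : HasCompactSupport Φ) :
    lowPsi p Φ =ᶠ[𝓝 0] fun _ => 0 := by
  obtain ⟨S, hS, hΦ⟩ := low_exists_bound hc
  filter_upwards [Metric.ball_mem_nhds (0 : ℝ) (Real.exp_pos (-(2 * S)))] with t ht
  rw [mem_ball_zero_iff, Real.norm_eq_abs] at ht
  by_cases h0 : t = 0
  · rw [h0, lowPsi_zero hp]
  · have h1 : Real.log |t| < -(2 * S) := by
      rw [Real.log_lt_iff_lt_exp (abs_pos.mpr h0)]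
      exact ht
    rw [Real.log_abs] at h1
    have h2 : S ≤ |Real.log t / 2| := by
      rw [abs_of_neg (by linarith)]
      linarith
    unfold lowPsi
    rw [hΦ _ h2, mul_zero]

theorem lowPsi_contDiff {p : ℝ} (hp : 0 < p) {Φ : ℝ → ℝ} (hΦ : ContDiff ℝ (⊤ : ℕ∞) Φ)
    (hc : HasCompactSupport Φ) : ContDiff ℝ (⊤ : ℕ∞) (lowPsi p Φ) := by
  rw [contDiff_iff_contDiffAt]
  intro t
  by_cases h0 : t = 0
  · rw [h0]
    exact contDiffAt_const.congr_of_eventuallyEq (lowPsi_eventually_zero hp hc)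
  · unfold lowPsi
    refine ContDiffAt.mul (Real.contDiffAt_rpow_const_of_ne h0) ?_
    exact hΦ.contDiffAt.comp t ((Real.contDiffAt_log.mpr h0).div_const 2)

theorem lowPsi_comp_support {p : ℝ} {Φ : ℝ → ℝ} (hc : HasCompactSupport Φ) :
    HasCompactSupport (fun z : ℂ => lowPsi p Φ (lowQ z)) := by
  obtain ⟨S, hS, hΦ⟩ := low_exists_bound hc
  refine HasCompactSupport.intro (isCompact_closedBall (0 : ℂ) (Real.exp S)) ?_
  intro z hz
  rw [mem_closedBall_zero_iff, not_le] at hz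
  have h1 : S < Real.log ‖z‖ := by
    rw [Real.lt_log_iff_exp_lt (lt_trans (Real.exp_pos S) hz)]
    exact hz
  have h2 : Real.log (lowQ z) / 2 = Real.log ‖z‖ := by
    rw [lowQ_eq, Real.log_pow]
    push_cast
    ring
  unfold lowPsi
  rw [h2, hΦ _ (by rw [abs_of_pos (by linarith)]; exact h1.le), mul_zero]

theorem lowPsi_deriv {p : ℝ} (hp : 0 < p) {Φ : ℝ → ℝ} (hΦ : ContDiff ℝ (⊤ : ℕ∞) Φ)
    {t : ℝ} (ht : 0 ≤ t) :
    t * deriv (lowPsi p Φ) t = -(1 / p) * lowPsi p Φ t + lowPsi p (fun s => deriv Φ s / 2) t := by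
  rcases ht.eq_or_lt with h0 | h0
  · rw [← h0, lowPsi_zero hp, lowPsi_zero hp]
    simp
  · have hd : HasDerivAt (lowPsi p Φ)
        ((-(1 / p) * t ^ (-(1 / p) - 1)) * Φ (Real.log t / 2) +
          t ^ (-(1 / p)) * (deriv Φ (Real.log t / 2) * (t⁻¹ / 2))) t := by
      have h1 : HasDerivAt (fun t : ℝ => t ^ (-(1 / p))) (-(1 / p) * t ^ (-(1 / p) - 1)) t :=
        Real.hasDerivAt_rpow_const (Or.inl h0.ne')
      have h2 : HasDerivAt (fun t : ℝ => Real.log t / 2) (t⁻¹ / 2) t :=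
        (Real.hasDerivAt_log h0.ne').div_const 2
      have h3 : HasDerivAt Φ (deriv Φ (Real.log t / 2)) (Real.log t / 2) :=
        ((hΦ.differentiable (by simp)).differentiableAt).hasDerivAt
      exact h1.mul (h3.comp t h2)
    rw [hd.deriv]
    unfold lowPsi
    have h4 : t ^ (-(1 / p) - 1) = t ^ (-(1 / p)) * t⁻¹ := by
      rw [Real.rpow_sub_one h0.ne', div_eq_mul_inv]
    rw [h4]
    field_simp

/-- The Wirtinger derivatives of `z ψ(|z|^2)`. -/
theorem low_wirtinger {ψ : ℝ → ℝ} (hψ : Differentiable ℝ ψ) (z : ℂ) :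
    dz (fun z => z * ((ψ (lowQ z) : ℝ) : ℂ)) z =
      ((ψ (lowQ z) + lowQ z * deriv ψ (lowQ z) : ℝ) : ℂ) ∧
    dzb (fun z => z * ((ψ (lowQ z) : ℝ) : ℂ)) z = z ^ 2 * ((deriv ψ (lowQ z) : ℝ) : ℂ) := by
  have hQ : HasFDerivAt lowQ ((2 * z.re) • Complex.reCLM + (2 * z.im) • Complex.imCLM) z := by
    have h1 : HasFDerivAt (fun z : ℂ => z.re) Complex.reCLM z := Complex.reCLM.hasFDerivAt
    have h2 : HasFDerivAt (fun z : ℂ => z.im) Complex.imCLM z := Complex.imCLM.hasFDerivAt
    have h3 := (h1.pow 2).add (h2.pow 2)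
    refine h3.congr_fderiv ?_
    ext
    simp
  have hψQ : HasFDerivAt (fun z => ψ (lowQ z))
      ((deriv ψ (lowQ z)) • ((2 * z.re) • Complex.reCLM + (2 * z.im) • Complex.imCLM)) z :=
    (hψ (lowQ z)).hasDerivAt.comp_hasFDerivAt z hQ
  have hC : HasFDerivAt (fun z => ((ψ (lowQ z) : ℝ) : ℂ))
      (Complex.ofRealCLM.comp ((deriv ψ (lowQ z)) •
        ((2 * z.re) • Complex.reCLM + (2 * z.im) • Complex.imCLM))) z :=
    Complex.ofRealCLM.hasFDerivAt.comp z hψQ
  have hh : HasFDerivAt (fun z => z * ((ψ (lowQ z) : ℝ) : ℂ)) _ z :=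
    (hasFDerivAt_id z).mul hC
  unfold dz dzb
  rw [hh.fderiv]
  have hz2 : z = (z.re : ℂ) + (z.im : ℂ) * I := (Complex.re_add_im z).symm
  constructor
  · simp [lowQ]
    rw [Complex.ext_iff]
    constructor
    · simp [pow_two]
      ring
    · simp [pow_two]
      ring
  · simp
    rw [Complex.ext_iff]
    constructor
    · simp [pow_two]
      ring
    · simp [pow_two]
      ring

/-- The change of variables. -/
theorem low_integral {p : ℝ} (hp : 0 < p) (Φ : ℝ → ℝ) :
    ∫ z : ℂ, |lowPsi p Φ (lowQ z)| ^ p =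
      2 * (volume : Measure ℂ).real (Metric.ball 0 1) * ∫ s : ℝ, |Φ s| ^ p := by
  have h1 : ∫ z : ℂ, |lowPsi p Φ (lowQ z)| ^ p =
      ∫ z : ℂ, (fun r : ℝ => |lowPsi p Φ (r ^ 2)| ^ p) ‖z‖ := by
    simp_rw [lowQ_eq]
  rw [h1, integral_fun_norm_addHaar (volume : Measure ℂ)
    (fun r : ℝ => |lowPsi p Φ (r ^ 2)| ^ p)]
  have h2 : Module.finrank ℝ ℂ = 2 := Complex.finrank_real_complex
  rw [h2]
  have h3 : ∫ y in Ioi (0 : ℝ), y ^ (2 - 1) • |lowPsi p Φ (y ^ 2)| ^ p =
      ∫ s : ℝ, |Φ s| ^ p := by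
    have h4 : ∫ y in Ioi (0 : ℝ), y ^ (2 - 1) • |lowPsi p Φ (y ^ 2)| ^ p =
        ∫ y in Ioi (0 : ℝ), y⁻¹ * |Φ (Real.log y)| ^ p := by
      refine setIntegral_congr_fun measurableSet_Ioi ?_
      intro y hy
      have hy0 : (0 : ℝ) < y := hy
      have h5 : Real.log (y ^ 2) / 2 = Real.log y := by
        rw [Real.log_pow]
        push_cast
        ring
      simp only [lowPsi, h5, smul_eq_mul]
      have h6 : (0 : ℝ) ≤ (y ^ 2) ^ (-(1 / p)) := by positivity
      rw [abs_mul, abs_of_nonneg h6, Real.mul_rpow h6 (abs_nonneg _), ← Real.rpow_mul (by positivity)]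
      have h7 : -(1 / p) * p = -1 := by
        field_simp
      rw [h7, Real.rpow_neg_one]
      field_simp
      norm_num
    rw [h4]
    have h5 := integral_image_eq_integral_abs_deriv_smul (s := univ) (f := Real.exp)
      (f' := Real.exp) MeasurableSet.univ (fun x _ => (Real.hasDerivAt_exp x).hasDerivWithinAt)
      (Real.exp_injective.injOn) (fun y => y⁻¹ * |Φ (Real.log y)| ^ p)
    rw [image_univ, Real.range_exp] at h5
    rw [h5, setIntegral_univ]
    refine integral_congr_ae (Eventually.of_forall fun s => ?_)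
    simp only [Real.log_exp, smul_eq_mul, Real.abs_exp]
    field_simp
  rw [h3]
  simp
  ring

theorem low_eLpNorm {p : ℝ} (hp : 0 < p) {Φ : ℝ → ℝ} (hΦ : ContDiff ℝ (⊤ : ℕ∞) Φ)
    (hc : HasCompactSupport Φ) :
    eLpNorm (fun z : ℂ => lowPsi p Φ (lowQ z)) (ENNReal.ofReal p) volume =
      ENNReal.ofReal ((2 * (volume : Measure ℂ).real (Metric.ball 0 1) *
        ∫ s : ℝ, |Φ s| ^ p) ^ (1 / p)) := by
  have hcont : Continuous (fun z : ℂ => lowPsi p Φ (lowQ z)) :=
    (lowPsi_contDiff hp hΦ hc).continuous.comp lowQ_contDiff.continuous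
  have hmem : MemLp (fun z : ℂ => lowPsi p Φ (lowQ z)) (ENNReal.ofReal p) volume :=
    hcont.memLp_of_hasCompactSupport (lowPsi_comp_support hc)
  rw [hmem.eLpNorm_eq_integral_rpow_norm (by simpa using hp) ENNReal.ofReal_ne_top,
    ENNReal.toReal_ofReal hp.le]
  simp_rw [Real.norm_eq_abs]
  rw [low_integral hp, one_div]

/-- The bump. -/
noncomputable def lowW : ContDiffBump (0 : ℝ) := ⟨1, 2, one_pos, one_lt_two⟩

/-- The stretched bump. -/
noncomputable def lowV (L : ℝ) (s : ℝ) : ℝ := lowW (s / L)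

theorem lowV_contDiff (L : ℝ) : ContDiff ℝ (⊤ : ℕ∞) (lowV L) := by
  unfold lowV
  exact lowW.contDiff.comp (contDiff_id.div_const L)

theorem lowV_support {L : ℝ} (hL : 0 < L) : HasCompactSupport (lowV L) := by
  refine HasCompactSupport.intro (isCompact_closedBall (0 : ℝ) (2 * L)) ?_
  intro s hs
  rw [mem_closedBall_zero_iff, not_le, Real.norm_eq_abs] at hs
  unfold lowV
  apply lowW.zero_of_le_dist
  rw [dist_zero_right, Real.norm_eq_abs, abs_div, abs_of_pos hL, le_div_iff₀ hL]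
  exact hs.le

theorem lowV_deriv {L : ℝ} (s : ℝ) :
    deriv (lowV L) s = deriv lowW (s / L) / L := by
  have h : HasDerivAt (lowV L) (deriv lowW (s / L) * (1 / L)) s := by
    have h1 : HasDerivAt (fun s : ℝ => s / L) (1 / L) s := (hasDerivAt_id s).div_const L
    have h2 : HasDerivAt lowW (deriv lowW (s / L)) (s / L) :=
      ((lowW.contDiff (n := 1)).differentiable (by simp)).differentiableAt.hasDerivAt
    exact h2.comp s h1
  rw [h.deriv]
  ring

theorem lowV_zero (L : ℝ) : lowV L 0 = 1 := by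
  unfold lowV
  rw [zero_div]
  exact lowW.one_of_mem_closedBall (by simp [lowW])

theorem lowV_deriv_zero (L : ℝ) : deriv (lowV L) 0 = 0 := by
  rw [lowV_deriv, zero_div]
  have h : (lowW : ℝ → ℝ) =ᶠ[𝓝 0] fun _ => 1 := by
    filter_upwards [Metric.ball_mem_nhds (0 : ℝ) one_pos] with x hx
    exact lowW.one_of_mem_closedBall (Metric.ball_subset_closedBall (by simpa [lowW] using hx))
  rw [h.deriv_eq]
  simp

theorem lowV_int {p L : ℝ} (hL : 0 < L) :
    ∫ s : ℝ, |lowV L s| ^ p = L * ∫ s : ℝ, |lowW s| ^ p := by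
  unfold lowV
  rw [Measure.integral_comp_div (fun s => |lowW s| ^ p) L, abs_of_pos hL, smul_eq_mul]

theorem lowV_int' {p L : ℝ} (hL : 0 < L) :
    ∫ s : ℝ, |deriv (lowV L) s / 2| ^ p =
      (1 / (2 * L)) ^ p * (L * ∫ s : ℝ, |deriv lowW s| ^ p) := by
  have h1 : ∀ s : ℝ, |deriv (lowV L) s / 2| ^ p =
      (1 / (2 * L)) ^ p * |deriv lowW (s / L)| ^ p := by
    intro s
    rw [lowV_deriv, ← Real.mul_rpow (by positivity) (abs_nonneg _)]
    congr 1
    rw [abs_div, abs_div, abs_of_pos hL, abs_two]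
    field_simp
  simp_rw [h1]
  rw [integral_const_mul, Measure.integral_comp_div (fun s => |deriv lowW s| ^ p) L,
    abs_of_pos hL, smul_eq_mul]

theorem lowW_int_pos {p : ℝ} (hp : 0 < p) : 0 < ∫ s : ℝ, |lowW s| ^ p := by
  have hcont : Continuous (fun s : ℝ => |lowW s| ^ p) :=
    (lowW.continuous.abs).rpow_const (fun _ => Or.inr hp.le)
  refine hcont.integral_pos_of_hasCompactSupport_nonneg_nonzero ?_ ?_ (x := 0) ?_
  · have h := lowW.hasCompactSupport.abs
    exact h.comp_left (g := fun x : ℝ => x ^ p) (Real.zero_rpow hp.ne')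
  · intro s
    positivity
  · have : lowW 0 = 1 := lowW.one_of_mem_closedBall (by simp [lowW])
    simp [this]

/-- For every large `p` the logarithmic cut-off costs at most `δ`. -/
theorem low_norm_le {p δ : ℝ} (hp : 1 ≤ p) (hδ : 0 < δ) :
    ∃ L : ℝ, 0 < L ∧
      eLpNorm (fun z : ℂ => lowPsi p (fun s => deriv (lowV L) s / 2) (lowQ z))
        (ENNReal.ofReal p) volume ≤
      ENNReal.ofReal δ * eLpNorm (fun z : ℂ => lowPsi p (lowV L) (lowQ z))
        (ENNReal.ofReal p) volume := by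
  have hp0 : 0 < p := by linarith
  set A0 : ℝ := ∫ s : ℝ, |lowW s| ^ p with hA0
  set A1 : ℝ := ∫ s : ℝ, |deriv lowW s| ^ p with hA1
  have hA0p : 0 < A0 := lowW_int_pos hp0
  have hA1n : 0 ≤ A1 := integral_nonneg fun s => by positivity
  set m : ℝ := max 1 (A1 / A0) with hm
  have hm1 : 1 ≤ m := le_max_left _ _
  have hm2 : A1 / A0 ≤ m := le_max_right _ _
  set L : ℝ := m / (2 * δ) with hL
  have hLp : 0 < L := by positivity
  refine ⟨L, hLp, ?_⟩
  have hV := lowV_contDiff L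
  have hVs := lowV_support hLp
  have hV' : ContDiff ℝ (⊤ : ℕ∞) (fun s => deriv (lowV L) s / 2) :=
    ((contDiff_infty_iff_deriv.mp hV).2).div_const 2
  have hVs' : HasCompactSupport (fun s => deriv (lowV L) s / 2) :=
    hVs.deriv.comp_left (g := fun x : ℝ => x / 2) (by simp)
  rw [low_eLpNorm hp0 hV hVs, low_eLpNorm hp0 hV' hVs', ← ENNReal.ofReal_mul hδ.le]
  apply ENNReal.ofReal_le_ofReal
  set c : ℝ := 2 * (volume : Measure ℂ).real (Metric.ball 0 1) with hc
  have hc0 : 0 ≤ c := by positivity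
  rw [lowV_int hLp, lowV_int' hLp, ← hA0, ← hA1]
  have h1 : A1 ≤ (2 * L * δ) ^ p * A0 := by
    have h2 : 2 * L * δ = m := by
      rw [hL]
      field_simp
    rw [h2]
    have h3 : m ≤ m ^ p := by
      calc m = m ^ (1 : ℝ) := (Real.rpow_one m).symm
        _ ≤ m ^ p := Real.rpow_le_rpow_of_exponent_le hm1 hp
    rw [div_le_iff₀ hA0p] at hm2
    exact hm2.trans (mul_le_mul_of_nonneg_right h3 hA0p.le)
  have h4 : c * ((1 / (2 * L)) ^ p * (L * A1)) ≤ δ ^ p * (c * (L * A0)) := by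
    have h5 : (1 / (2 * L)) ^ p * (2 * L * δ) ^ p = δ ^ p := by
      rw [← Real.mul_rpow (by positivity) (by positivity)]
      congr 1
      field_simp
    have h6 : (1 / (2 * L)) ^ p * A1 ≤ δ ^ p * A0 := by
      calc (1 / (2 * L)) ^ p * A1 ≤ (1 / (2 * L)) ^ p * ((2 * L * δ) ^ p * A0) :=
            mul_le_mul_of_nonneg_left h1 (by positivity)
        _ = δ ^ p * A0 := by rw [← mul_assoc, h5]
    have h7 : 0 ≤ c * L := by positivity
    calc c * ((1 / (2 * L)) ^ p * (L * A1)) = c * L * ((1 / (2 * L)) ^ p * A1) := by ring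
      _ ≤ c * L * (δ ^ p * A0) := mul_le_mul_of_nonneg_left h6 h7
      _ = δ ^ p * (c * (L * A0)) := by ring
  calc (c * ((1 / (2 * L)) ^ p * (L * A1))) ^ (1 / p) ≤ (δ ^ p * (c * (L * A0))) ^ (1 / p) :=
        Real.rpow_le_rpow (by positivity) h4 (by positivity)
    _ = δ * (c * (L * A0)) ^ (1 / p) := by
        rw [Real.mul_rpow (by positivity) (by positivity), ← Real.rpow_mul hδ.le,
          mul_one_div_cancel hp0.ne', Real.rpow_one]

/-- The lower bound. -/
theorem lower_eventually : ∀ ε > 0, ∀ᶠ p : ℝ in atTop, ∃ h : ℂ → ℂ, Test h ∧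
    eLpNorm (dzb h) (ENNReal.ofReal p) volume ≠ 0 ∧
    eLpNorm (dzb h) (ENNReal.ofReal p) volume ≠ ⊤ ∧
    ENNReal.ofReal ((1 - ε) * p) * eLpNorm (dzb h) (ENNReal.ofReal p) volume ≤
      eLpNorm (dz h) (ENNReal.ofReal p) volume := by
  intro ε hε
  filter_upwards [eventually_ge_atTop (max 1 (2 / ε))] with p hp
  have hp1 : 1 ≤ p := (le_max_left _ _).trans hp
  have hp2 : 2 / ε ≤ p := (le_max_right _ _).trans hp
  have hp0 : 0 < p := by linarith
  have hδ : 0 < ε / (2 * p) := by positivity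
  obtain ⟨L, hL, hN⟩ := low_norm_le hp1 hδ
  set V := lowV L with hVdef
  have hV : ContDiff ℝ (⊤ : ℕ∞) V := lowV_contDiff L
  have hVs : HasCompactSupport V := lowV_support hL
  have hV' : ContDiff ℝ (⊤ : ℕ∞) (fun s => deriv V s / 2) :=
    ((contDiff_infty_iff_deriv.mp hV).2).div_const 2
  have hVs' : HasCompactSupport (fun s => deriv V s / 2) :=
    hVs.deriv.comp_left (g := fun x : ℝ => x / 2) (by simp)
  set ψ := lowPsi p V with hψdef
  have hψ : ContDiff ℝ (⊤ : ℕ∞) ψ := lowPsi_contDiff hp0 hV hVs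
  have hψd : Differentiable ℝ ψ := hψ.differentiable (by simp)
  set g0 : ℂ → ℝ := fun z => lowPsi p V (lowQ z) with hg0
  set g1 : ℂ → ℝ := fun z => lowPsi p (fun s => deriv V s / 2) (lowQ z) with hg1
  have hg0c : Continuous g0 := hψ.continuous.comp lowQ_contDiff.continuous
  have hg1c : Continuous g1 :=
    (lowPsi_contDiff hp0 hV' hVs').continuous.comp lowQ_contDiff.continuous
  have hp' : 1 ≤ ENNReal.ofReal p := by
    rw [← ENNReal.ofReal_one]
    exact ENNReal.ofReal_le_ofReal hp1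
  have hT : Test (fun z => z * ((ψ (lowQ z) : ℝ) : ℂ)) := by
    refine ⟨contDiff_id.mul (Complex.ofRealCLM.contDiff.comp (hψ.comp lowQ_contDiff)), ?_⟩
    refine HasCompactSupport.mul_left ?_
    exact (lowPsi_comp_support (p := p) hVs).comp_left (g := fun x : ℝ => (x : ℂ)) (by simp)
  have hkey : ∀ z, lowQ z * deriv ψ (lowQ z) = -(1 / p) * g0 z + g1 z := fun z =>
    lowPsi_deriv hp0 hV (lowQ_nonneg z)
  have hdz : ∀ z, dz (fun z => z * ((ψ (lowQ z) : ℝ) : ℂ)) z =
      (((1 - 1 / p) * g0 z + g1 z : ℝ) : ℂ) := by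
    intro z
    rw [(low_wirtinger hψd z).1, hkey z]
    congr 1
    simp only [hg0, hψdef]
    ring
  have hdzb : ∀ z, ‖dzb (fun z => z * ((ψ (lowQ z) : ℝ) : ℂ)) z‖ =
      ‖-(1 / p) * g0 z + g1 z‖ := by
    intro z
    rw [(low_wirtinger hψd z).2, ← hkey z, norm_mul, norm_pow, ← lowQ_eq, Complex.norm_real,
      norm_mul, Real.norm_of_nonneg (lowQ_nonneg z)]
  refine ⟨fun z => z * ((ψ (lowQ z) : ℝ) : ℂ), hT, ?_, ?_, ?_⟩
  · intro h0
    rw [eLpNorm_eq_zero_iff hT.dzb.continuous.aestronglyMeasurable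
      (by simpa using hp0)] at h0
    have h1 : dzb (fun z => z * ((ψ (lowQ z) : ℝ) : ℂ)) = 0 :=
      (Continuous.ae_eq_iff_eq volume hT.dzb.continuous continuous_zero).mp h0
    have h2 := hdzb 1
    rw [h1] at h2
    have h3 : lowQ 1 = 1 := by simp [lowQ]
    have h4 : g0 1 = 1 := by
      simp only [hg0, h3, lowPsi, Real.one_rpow, Real.log_one, zero_div, one_mul, hVdef]
      exact lowV_zero L
    have h5 : g1 1 = 0 := by
      simp only [hg1, h3, lowPsi, Real.one_rpow, Real.log_one, zero_div, one_mul, hVdef]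
      rw [lowV_deriv_zero, zero_div]
    rw [h4, h5] at h2
    simp at h2
    exact (abs_pos.mpr hp0.ne').ne' h2.symm
  · exact (hT.dzb.continuous.memLp_of_hasCompactSupport hT.dzb.2).eLpNorm_ne_top
  · set N0 := eLpNorm g0 (ENNReal.ofReal p) volume with hN0
    set N1 := eLpNorm g1 (ENNReal.ofReal p) volume with hN1
    have e1 : eLpNorm (dzb (fun z => z * ((ψ (lowQ z) : ℝ) : ℂ))) (ENNReal.ofReal p) volume ≤
        ENNReal.ofReal (1 / p + ε / (2 * p)) * N0 := by
      rw [eLpNorm_congr_norm_ae (g := fun z => -(1 / p) * g0 z + g1 z)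
        (Eventually.of_forall hdzb)]
      calc eLpNorm (fun z => -(1 / p) * g0 z + g1 z) (ENNReal.ofReal p) volume
          ≤ eLpNorm (fun z => -(1 / p) * g0 z) (ENNReal.ofReal p) volume + N1 :=
            eLpNorm_add_le (continuous_const.mul hg0c).aestronglyMeasurable
              hg1c.aestronglyMeasurable hp'
        _ ≤ ENNReal.ofReal (1 / p) * N0 + ENNReal.ofReal (ε / (2 * p)) * N0 := by
            refine add_le_add ?_ hN
            refine le_of_eq ?_
            have := eLpNorm_const_smul (-(1 / p)) g0 (ENNReal.ofReal p) (volume : Measure ℂ)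
            simp only [Pi.smul_def, smul_eq_mul] at this
            rw [this, ← ofReal_norm, norm_neg, Real.norm_of_nonneg (by positivity)]
        _ = ENNReal.ofReal (1 / p + ε / (2 * p)) * N0 := by
            rw [ENNReal.ofReal_add (by positivity) (by positivity), add_mul]
    have e2 : ENNReal.ofReal (1 - 1 / p - ε / (2 * p)) * N0 ≤
        eLpNorm (dz (fun z => z * ((ψ (lowQ z) : ℝ) : ℂ))) (ENNReal.ofReal p) volume := by
      have e3 : eLpNorm (dz (fun z => z * ((ψ (lowQ z) : ℝ) : ℂ))) (ENNReal.ofReal p) volume =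
          eLpNorm (fun z => (1 - 1 / p) * g0 z + g1 z) (ENNReal.ofReal p) volume := by
        refine eLpNorm_congr_norm_ae (Eventually.of_forall fun z => ?_)
        rw [hdz z, Complex.norm_real]
      rw [e3]
      have hp3 : 0 ≤ 1 - 1 / p := by
        have : 1 / p ≤ 1 := by
          rw [div_le_one hp0]
          exact hp1
        linarith
      have e4 : ENNReal.ofReal (1 - 1 / p) * N0 ≤
          eLpNorm (fun z => (1 - 1 / p) * g0 z + g1 z) (ENNReal.ofReal p) volume + N1 := by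
        have e5 : ENNReal.ofReal (1 - 1 / p) * N0 =
            eLpNorm (fun z => ((1 - 1 / p) * g0 z + g1 z) - g1 z) (ENNReal.ofReal p) volume := by
          simp only [add_sub_cancel_right]
          have := eLpNorm_const_smul (1 - 1 / p) g0 (ENNReal.ofReal p) (volume : Measure ℂ)
          simp only [Pi.smul_def, smul_eq_mul] at this
          rw [this, ← ofReal_norm, Real.norm_of_nonneg hp3]
        rw [e5]
        exact eLpNorm_sub_le ((continuous_const.mul hg0c).add hg1c).aestronglyMeasurable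
          hg1c.aestronglyMeasurable hp'
      rw [ENNReal.ofReal_sub _ (by positivity), ENNReal.sub_mul (fun _ _ => by
        have := (hg0c.memLp_of_hasCompactSupport (p := ENNReal.ofReal p) (μ := volume)
          (lowPsi_comp_support hVs)).eLpNorm_ne_top
        exact this)]
      rw [tsub_le_iff_right]
      exact e4.trans (add_le_add_right hN _)
    by_cases h1ε : 1 ≤ ε
    · have : ENNReal.ofReal ((1 - ε) * p) = 0 :=
        ENNReal.ofReal_of_nonpos (mul_nonpos_of_nonpos_of_nonneg (by linarith) hp0.le)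
      rw [this, zero_mul]
      exact bot_le
    · rw [not_le] at h1ε
      refine le_trans ?_ e2
      calc ENNReal.ofReal ((1 - ε) * p) *
            eLpNorm (dzb (fun z => z * ((ψ (lowQ z) : ℝ) : ℂ))) (ENNReal.ofReal p) volume
          ≤ ENNReal.ofReal ((1 - ε) * p) * (ENNReal.ofReal (1 / p + ε / (2 * p)) * N0) :=
            mul_le_mul_right e1 _
        _ = ENNReal.ofReal ((1 - ε) * p * (1 / p + ε / (2 * p))) * N0 := by
            rw [← mul_assoc, ← ENNReal.ofReal_mul (mul_nonneg (by linarith) hp0.le)]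
        _ ≤ ENNReal.ofReal (1 - 1 / p - ε / (2 * p)) * N0 := by
            refine mul_le_mul_left (ENNReal.ofReal_le_ofReal ?_) _
            have h2 : (1 - ε) * p * (1 / p + ε / (2 * p)) = (1 - ε) * (1 + ε / 2) := by
              field_simp
            rw [h2]
            have h3 : 1 / p ≤ ε / 2 := by
              rw [div_le_div_iff₀ hp0 two_pos]
              rw [div_le_iff₀ hε] at hp2
              linarith
            have h4 : ε / (2 * p) = (ε / 2) * (1 / p) := by
              field_simp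
            rw [h4]
            nlinarith [mul_le_mul_of_nonneg_left h3 (half_pos hε).le, sq_nonneg ε]

end Pool.Agent.Lib.MP_9e2694_an
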