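import Mathlib

/-!
Calculus for the Schur test of the upper bound (MP_9e2694_an).
-/

set_option autoImplicit false

open MeasureTheory Filter Topology Set
open scoped ENNReal

namespace Pool.Agent.Lib.MP_9e2694_an

namespace Upper

/-- The majorant of the logarithm. -/
noncomputable def Lam (p c u : ℝ) : ℝ :=
  if u ≤ 1 then 2 * Real.log (1 + c) - p * Real.log u else 2 * c * u ^ (-(p / 2))

/-- The Schur kernel. -/
noncomputable def bet (p c u : ℝ) : ℝ := if u ≤ 1 then u ^ p else c * u ^ (p / 2)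

theorem Lam_nonneg {p c u : ℝ} (hp : 0 ≤ p) (hc : 0 ≤ c) (hu : 0 < u) : 0 ≤ Lam p c u := by
  unfold Lam
  split_ifs with h
  · have h1 : Real.log u ≤ 0 := Real.log_nonpos hu.le h
    have h2 : 0 ≤ Real.log (1 + c) := Real.log_nonneg (by linarith)
    nlinarith
  · positivity

theorem bet_nonneg {p c u : ℝ} (hc : 0 ≤ c) (hu : 0 ≤ u) : 0 ≤ bet p c u := by
  unfold bet
  split_ifs with h
  · positivity
  · positivity

theorem measurable_Lam (p c : ℝ) : Measurable (Lam p c) := by
  unfold Lam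
  refine Measurable.ite measurableSet_Iic ?_ ?_
  · exact measurable_const.sub (measurable_const.mul Real.measurable_log)
  · exact measurable_const.mul (measurable_id.pow_const _)

theorem measurable_bet (p c : ℝ) : Measurable (bet p c) := by
  unfold bet
  refine Measurable.ite measurableSet_Iic ?_ ?_
  · exact measurable_id.pow_const _
  · exact measurable_const.mul (measurable_id.pow_const _)

/-- Tangent inequality. -/
theorem tangent {a b c θ : ℝ} (ha : 0 ≤ a) (hb : 0 < b) (hc : 0 ≤ c) (hθ : 0 < θ) :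
    2 * b * Real.log (1 + c * Real.sqrt a / Real.sqrt b) ≤
      2 * b * Real.log (1 + c * θ) + a * (c / (θ * (1 + c * θ))) := by
  have hsb : 0 < Real.sqrt b := Real.sqrt_pos.2 hb
  set t := Real.sqrt a / Real.sqrt b with ht
  have ht0 : 0 ≤ t := by positivity
  have hbt : b * t ^ 2 = a := by
    rw [ht, div_pow, Real.sq_sqrt ha, Real.sq_sqrt hb.le]
    field_simp
  have h1 : 0 < 1 + c * t := by positivity
  have h2 : 0 < 1 + c * θ := by positivity
  have e1 : 1 + c * Real.sqrt a / Real.sqrt b = 1 + c * t := by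
    rw [ht]
    ring
  rw [e1]
  have h3 : Real.log (1 + c * t) - Real.log (1 + c * θ) ≤ c * (t - θ) / (1 + c * θ) := by
    rw [← Real.log_div h1.ne' h2.ne']
    refine (Real.log_le_sub_one_of_pos (by positivity)).trans (le_of_eq ?_)
    field_simp
    ring
  have h4 : 2 * b * (c * (t - θ) / (1 + c * θ)) ≤ a * (c / (θ * (1 + c * θ))) := by
    have e2 : a * (c / (θ * (1 + c * θ))) - 2 * b * (c * (t - θ) / (1 + c * θ)) =
        b * c / (θ * (1 + c * θ)) * (t ^ 2 - 2 * t * θ + 2 * θ ^ 2) := by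
      rw [← hbt]
      field_simp
      ring
    have h5 : 0 ≤ b * c / (θ * (1 + c * θ)) * (t ^ 2 - 2 * t * θ + 2 * θ ^ 2) := by
      have : 0 ≤ t ^ 2 - 2 * t * θ + 2 * θ ^ 2 := by nlinarith [sq_nonneg (t - θ), sq_nonneg θ]
      positivity
    linarith
  nlinarith [mul_le_mul_of_nonneg_left h3 (by positivity : (0 : ℝ) ≤ 2 * b)]

theorem point {a b c p u : ℝ} (ha : 0 ≤ a) (hb : 0 < b) (hc : 0 ≤ c) (hp : 0 ≤ p)
    (hu : 0 < u) :
    2 * b * Real.log (1 + c * Real.sqrt a / Real.sqrt b) ≤ b * Lam p c u + a * bet p c u := by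
  have hθ : 0 < u ^ (-(p / 2)) := Real.rpow_pos_of_pos hu _
  refine (tangent ha hb hc hθ).trans ?_
  set θ := u ^ (-(p / 2)) with hθd
  have h2 : 0 < 1 + c * θ := by positivity
  unfold Lam bet
  split_ifs with h
  · have hθ1 : 1 ≤ θ := by
      rw [hθd]
      exact Real.one_le_rpow_of_pos_of_le_one_of_nonpos hu h (by linarith)
    have hlog : Real.log (1 + c * θ) ≤ Real.log (1 + c) - p / 2 * Real.log u := by
      have e1 : Real.log ((1 + c) * θ) = Real.log (1 + c) - p / 2 * Real.log u := by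
        rw [Real.log_mul (by positivity) hθ.ne', hθd, Real.log_rpow hu]
        ring
      rw [← e1]
      refine Real.log_le_log h2 ?_
      nlinarith
    have hup : u ^ p = 1 / θ ^ 2 := by
      rw [hθd, ← Real.rpow_natCast, ← Real.rpow_mul hu.le, one_div, ← Real.rpow_neg hu.le]
      congr 1
      push_cast
      ring
    have h3 : c / (θ * (1 + c * θ)) ≤ u ^ p := by
      rw [hup, div_le_div_iff₀ (by positivity) (by positivity)]
      nlinarith [mul_pos hθ hθ, sq_nonneg θ]
    refine add_le_add ?_ (mul_le_mul_of_nonneg_left h3 ha)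
    nlinarith
  · have hlog : Real.log (1 + c * θ) ≤ c * θ := by
      have := Real.log_le_sub_one_of_pos h2
      linarith
    have hup : u ^ (p / 2) = 1 / θ := by
      rw [hθd, one_div, ← Real.rpow_neg hu.le, neg_neg]
    have h3 : c / (θ * (1 + c * θ)) ≤ c * u ^ (p / 2) := by
      rw [hup, mul_one_div]
      refine div_le_div_of_nonneg_left hc hθ ?_
      nlinarith [mul_nonneg hc hθ.le]
    refine add_le_add ?_ (mul_le_mul_of_nonneg_left h3 ha)
    nlinarith

theorem integrableOn_Lam {p c : ℝ} (hp : 2 < p) :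
    IntegrableOn (Lam p c) (Ioi 0) ∧
      ∫ u in Ioi (0 : ℝ), Lam p c u = p + 2 * Real.log (1 + c) + 4 * c / (p - 2) := by
  have hI1 : IntegrableOn (fun u => 2 * Real.log (1 + c) - p * Real.log u) (Ioc 0 1) := by
    refine ((integrable_const _).sub ?_)
    exact ((intervalIntegrable_iff_integrableOn_Ioc_of_le zero_le_one).1
      intervalIntegral.intervalIntegrable_log').const_mul p
  have hI2 : IntegrableOn (fun u : ℝ => 2 * c * u ^ (-(p / 2))) (Ioi 1) :=
    (integrableOn_Ioi_rpow_of_lt (by linarith) one_pos).const_mul _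
  have hE1 : EqOn (Lam p c) (fun u => 2 * Real.log (1 + c) - p * Real.log u) (Ioc 0 1) := by
    intro u hu
    simp only [Lam, if_pos hu.2]
  have hE2 : EqOn (Lam p c) (fun u : ℝ => 2 * c * u ^ (-(p / 2))) (Ioi 1) := by
    intro u hu
    have hu' : ¬ u ≤ 1 := not_le.2 (mem_Ioi.1 hu)
    simp only [Lam, if_neg hu']
  have hJ1 : IntegrableOn (Lam p c) (Ioc 0 1) := hI1.congr_fun hE1.symm measurableSet_Ioc
  have hJ2 : IntegrableOn (Lam p c) (Ioi 1) := hI2.congr_fun hE2.symm measurableSet_Ioi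
  have hU : Ioc (0 : ℝ) 1 ∪ Ioi 1 = Ioi 0 := Ioc_union_Ioi_eq_Ioi zero_le_one
  refine ⟨hU ▸ hJ1.union hJ2, ?_⟩
  rw [← hU, setIntegral_union (Ioc_disjoint_Ioi le_rfl) measurableSet_Ioi hJ1 hJ2,
    setIntegral_congr_fun measurableSet_Ioc hE1, setIntegral_congr_fun measurableSet_Ioi hE2,
    ← intervalIntegral.integral_of_le zero_le_one, intervalIntegral.integral_sub,
    intervalIntegral.integral_const, intervalIntegral.integral_const_mul, integral_log,
    integral_const_mul, integral_Ioi_rpow_of_lt (by linarith) one_pos]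
  · simp only [Real.one_rpow, Real.log_one, smul_eq_mul]
    have h2 : p - 2 ≠ 0 := by
      intro h
      linarith
    have h3 : -(p / 2) + 1 = -((p - 2) / 2) := by ring
    rw [h3]
    field_simp
    ring
  · exact intervalIntegrable_const
  · exact intervalIntegral.intervalIntegrable_log'.const_mul p

/-- `∫ Λ (N l / s) dl`. -/
theorem lintegral_Lam {p c N s : ℝ} (hp : 2 < p) (hc : 0 ≤ c) (hN : 0 < N) (hs : 0 < s) :
    ∫⁻ l in Ioi (0 : ℝ), ENNReal.ofReal (Lam p c (N * l / s)) =
      ENNReal.ofReal (s / N * (p + 2 * Real.log (1 + c) + 4 * c / (p - 2))) := by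
  obtain ⟨hI, hE⟩ := integrableOn_Lam (c := c) hp
  have hNs : 0 < N / s := by positivity
  have e : ∀ l : ℝ, N * l / s = N / s * l := fun l => by ring
  simp only [e]
  have hI' : IntegrableOn (fun l => Lam p c (N / s * l)) (Ioi 0) := by
    have := (integrableOn_Ioi_comp_mul_left_iff (Lam p c) 0 hNs).2 (by simpa using hI)
    exact this
  rw [← ofReal_integral_eq_lintegral_ofReal hI']
  · rw [integral_comp_mul_left_Ioi (Lam p c) 0 hNs, mul_zero, hE, smul_eq_mul, inv_div]
  · rw [EventuallyLE, ae_restrict_iff' measurableSet_Ioi]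
    filter_upwards with l hl
    have hl' : (0 : ℝ) < l := hl
    exact Lam_nonneg (by linarith) hc (by positivity)

/-- The one-dimensional kernel. -/
noncomputable def kap (p c v : ℝ) : ℝ :=
  if v < 1 then c * v ^ (p / 2 - 2) else v ^ (-2 : ℝ)

theorem integrableOn_kap {p c : ℝ} (hp : 2 < p) :
    IntegrableOn (kap p c) (Ioi 0) ∧
      ∫ v in Ioi (0 : ℝ), kap p c v = 1 + 2 * c / (p - 2) := by
  have hI1 : IntegrableOn (fun v : ℝ => c * v ^ (p / 2 - 2)) (Ioo 0 1) := by
    have h := (intervalIntegral.intervalIntegrable_rpow' (a := 0) (b := 1) (r := p / 2 - 2)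
      (by linarith))
    exact (((intervalIntegrable_iff_integrableOn_Ioc_of_le zero_le_one).1 h).mono_set
      Ioo_subset_Ioc_self).const_mul c
  have hI2 : IntegrableOn (fun v : ℝ => v ^ (-2 : ℝ)) (Ici 1) :=
    (integrableOn_Ici_iff_integrableOn_Ioi).2 (integrableOn_Ioi_rpow_of_lt (by norm_num) one_pos)
  have hE1 : EqOn (kap p c) (fun v : ℝ => c * v ^ (p / 2 - 2)) (Ioo 0 1) := by
    intro v hv
    simp only [kap, if_pos hv.2]
  have hE2 : EqOn (kap p c) (fun v : ℝ => v ^ (-2 : ℝ)) (Ici 1) := by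
    intro v hv
    have hv' : ¬ v < 1 := not_lt.2 (mem_Ici.1 hv)
    simp only [kap, if_neg hv']
  have hJ1 : IntegrableOn (kap p c) (Ioo 0 1) := hI1.congr_fun hE1.symm measurableSet_Ioo
  have hJ2 : IntegrableOn (kap p c) (Ici 1) := hI2.congr_fun hE2.symm measurableSet_Ici
  have hU : Ioo (0 : ℝ) 1 ∪ Ici 1 = Ioi 0 := Ioo_union_Ici_eq_Ioi one_pos
  refine ⟨hU ▸ hJ1.union hJ2, ?_⟩
  rw [← hU, setIntegral_union (by
      rw [Set.disjoint_left]
      intro x hx hx'
      exact absurd hx.2 (not_lt.2 hx')) measurableSet_Ici hJ1 hJ2,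
    setIntegral_congr_fun measurableSet_Ioo hE1, setIntegral_congr_fun measurableSet_Ici hE2,
    integral_Ici_eq_integral_Ioi, integral_Ioi_rpow_of_lt (by norm_num) one_pos,
    ← integral_Ioc_eq_integral_Ioo, ← intervalIntegral.integral_of_le zero_le_one,
    intervalIntegral.integral_const_mul, integral_rpow (Or.inl (by linarith))]
  have h1 : p / 2 - 2 + 1 ≠ 0 := by
    intro h
    linarith
  have h2 : p - 2 ≠ 0 := by
    intro h
    linarith
  have h3 : p / 2 - 2 + 1 = (p - 2) / 2 := by ring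
  rw [Real.one_rpow, Real.zero_rpow h1, Real.one_rpow, h3]
  field_simp
  norm_num

theorem kap_nonneg {p c v : ℝ} (hc : 0 ≤ c) (hv : 0 ≤ v) : 0 ≤ kap p c v := by
  unfold kap
  split_ifs <;> positivity

theorem kernel_eq {p c R s : ℝ} (hR : 0 < R) (hs : 0 < s) :
    s ^ (p - 2) * bet p c (R / s) = R ^ (p - 2) * kap p c (s / R) := by
  unfold bet kap
  by_cases h : R / s ≤ 1
  · have h' : ¬ (s / R < 1) := by
      rw [div_le_one hs] at h
      rw [not_lt, one_le_div hR]
      exact h
    rw [if_pos h, if_neg h', Real.div_rpow hR.le hs.le, Real.div_rpow hs.le hR.le]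
    have e1 : R ^ p = R ^ (p - 2) * R ^ (2 : ℝ) := by
      rw [← Real.rpow_add hR]
      congr 1
      ring
    have e2 : s ^ p = s ^ (p - 2) * s ^ (2 : ℝ) := by
      rw [← Real.rpow_add hs]
      congr 1
      ring
    have e3 : s ^ (-2 : ℝ) = (s ^ (2 : ℝ))⁻¹ := Real.rpow_neg hs.le 2
    have e4 : R ^ (-2 : ℝ) = (R ^ (2 : ℝ))⁻¹ := Real.rpow_neg hR.le 2
    have p1 := Real.rpow_pos_of_pos hR (p - 2)
    have p2 := Real.rpow_pos_of_pos hs (p - 2)
    have p3 := Real.rpow_pos_of_pos hR 2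
    have p4 := Real.rpow_pos_of_pos hs 2
    rw [e1, e2, e3, e4]
    field_simp
  · have h' : s / R < 1 := by
      rw [not_le, one_lt_div hs] at h
      rw [div_lt_one hR]
      exact h
    rw [if_neg h, if_pos h', Real.div_rpow hR.le hs.le, Real.div_rpow hs.le hR.le]
    have e1 : R ^ (p - 2) = R ^ (p / 2) * R ^ (p / 2 - 2) := by
      rw [← Real.rpow_add hR]
      congr 1
      ring
    have e2 : s ^ (p - 2) = s ^ (p / 2) * s ^ (p / 2 - 2) := by
      rw [← Real.rpow_add hs]
      congr 1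
      ring
    have p1 := Real.rpow_pos_of_pos hR (p / 2)
    have p2 := Real.rpow_pos_of_pos hs (p / 2)
    have p3 := Real.rpow_pos_of_pos hR (p / 2 - 2)
    have p4 := Real.rpow_pos_of_pos hs (p / 2 - 2)
    rw [e1, e2]
    field_simp

/-- `∫ s^(p-2) β (R / s) ds`. -/
theorem lintegral_kernel {p c R : ℝ} (hp : 2 < p) (hc : 0 ≤ c) (hR : 0 < R) :
    ∫⁻ s in Ioi (0 : ℝ), ENNReal.ofReal (s ^ (p - 2) * bet p c (R / s)) =
      ENNReal.ofReal (R ^ (p - 1) * (1 + 2 * c / (p - 2))) := by
  obtain ⟨hI, hE⟩ := integrableOn_kap (c := c) hp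
  have hR1 : 0 < 1 / R := by positivity
  have hcong : ∫⁻ s in Ioi (0 : ℝ), ENNReal.ofReal (s ^ (p - 2) * bet p c (R / s)) =
      ∫⁻ s in Ioi (0 : ℝ), ENNReal.ofReal (R ^ (p - 2) * kap p c (1 / R * s)) := by
    refine setLIntegral_congr_fun measurableSet_Ioi fun s hs => ?_
    rw [kernel_eq hR hs]
    congr 3
    ring
  rw [hcong]
  have hI' : IntegrableOn (fun s => kap p c (1 / R * s)) (Ioi 0) :=
    (integrableOn_Ioi_comp_mul_left_iff (kap p c) 0 hR1).2 (by simpa using hI)
  rw [← ofReal_integral_eq_lintegral_ofReal (hI'.const_mul _)]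
  · rw [integral_const_mul, integral_comp_mul_left_Ioi (kap p c) 0 hR1, mul_zero, hE,
      smul_eq_mul]
    have e1 : R ^ (p - 1) = R ^ (p - 2) * R := by
      rw [← Real.rpow_add_one hR.ne']
      congr 1
      ring
    rw [e1]
    congr 1
    field_simp
  · rw [EventuallyLE, ae_restrict_iff' measurableSet_Ioi]
    filter_upwards with s hs
    have hs' : (0 : ℝ) < s := hs
    exact mul_nonneg (Real.rpow_nonneg hR.le _) (kap_nonneg hc (by positivity))

end Upper

end Pool.Agent.Lib.MP_9e2694_an
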