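import Pool.Agent.Lib.MP_9e2694_an.UpperB
import Pool.Agent.Lib.MP_9e2694_an.UpperC

/-!
Upper bound: from the key estimate to the `L^p` bound (MP_9e2694_an).
-/

set_option autoImplicit false

open MeasureTheory Complex Filter Topology Set
open scoped ContDiff ENNReal

namespace Pool.Agent.Lib.MP_9e2694_an

namespace Upper

/-- The weak inequality at level `s`, multiplied by `N s^(p-2)`. -/
theorem level
    (hadd : ∀ f g : ℂ → ℂ, Test f → Test g →
      Beu (fun z => f z + g z) = fun z => Beu f z + Beu g z)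
    (hmul : ∀ (c : ℂ) (f : ℂ → ℂ), Test f → Beu (fun z => c * f z) = fun z => c * Beu f z)
    (hcont : ∀ f : ℂ → ℂ, Test f → Continuous (Beu f))
    (hbdd : ∀ f : ℂ → ℂ, Test f → ∃ C, ∀ z, ‖Beu f z‖ ≤ C)
    (hL2 : ∀ f : ℂ → ℂ, Test f → eLpNorm (Beu f) 2 volume ≤ eLpNorm f 2 volume)
    (hK : KeyEst) {g : ℂ → ℂ} (hg : Test g) {ρ : ℝ} (hρ : 0 < ρ) (hρ1 : ρ < 1)
    {p N s : ℝ} (hp : 2 < p) (hN : 0 < N) (hs : 0 < s) :
    ENNReal.ofReal (ρ * N - (p + 2 * Real.log (1 + ρ / (1 - ρ)) +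
        4 * (ρ / (1 - ρ)) / (p - 2))) *
      (volume {x | s < ‖Beu g x‖} * ENNReal.ofReal (s ^ (p - 1))) ≤
      ∫⁻ l in Ioi (0 : ℝ), volume {x | l < ‖g x‖} *
        ENNReal.ofReal (N * (s ^ (p - 2) * bet p (ρ / (1 - ρ)) (N * l / s))) := by
  by_cases hF0 : volume {x | s < ‖Beu g x‖} = 0
  · rw [hF0, zero_mul, mul_zero]
    exact zero_le
  have hFt : volume {x | s < ‖Beu g x‖} ≠ ⊤ := (volume_lt_top hcont hL2 hg hs).ne
  have hlay := layer hadd hmul hcont hbdd hL2 hK hg hρ hρ1 hs hF0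
  set b := (volume {x | s < ‖Beu g x‖}).toReal with hb
  have hb0 : 0 < b := ENNReal.toReal_pos hF0 hFt
  have hbe : volume {x | s < ‖Beu g x‖} = ENNReal.ofReal b := (ENNReal.ofReal_toReal hFt).symm
  have h1ρ : 0 < 1 - ρ := by linarith
  set c := ρ / (1 - ρ) with hc
  have hc0 : 0 ≤ c := by positivity
  set A := p + 2 * Real.log (1 + c) + 4 * c / (p - 2) with hA
  have hA0 : 0 ≤ A := by
    have h1 : 0 ≤ Real.log (1 + c) := Real.log_nonneg (by linarith)
    have h2 : 0 ≤ 4 * c / (p - 2) := div_nonneg (by positivity) (by linarith)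
    linarith
  have hmeasL : Measurable fun l : ℝ => ENNReal.ofReal (b * Lam p c (N * l / s)) :=
    (measurable_const.mul ((measurable_Lam p c).comp
      ((measurable_const.mul measurable_id).div_const s))).ennreal_ofReal
  -- pointwise bound
  have hpt : ∀ l ∈ Ioi (0 : ℝ), ENNReal.ofReal (2 * b * Real.log (1 + c *
          Real.sqrt (volume {x | l < ‖g x‖}).toReal / Real.sqrt b)) ≤
        ENNReal.ofReal (b * Lam p c (N * l / s)) +
          volume {x | l < ‖g x‖} * ENNReal.ofReal (bet p c (N * l / s)) := by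
    intro l hl
    have hl' : (0 : ℝ) < l := hl
    have hu : 0 < N * l / s := by positivity
    have hgt : volume {x | l < ‖g x‖} ≠ ⊤ := (volume_g_lt_top hg hl'.le).ne
    have h := point (a := (volume {x | l < ‖g x‖}).toReal) (p := p) ENNReal.toReal_nonneg
      hb0 hc0 (by linarith) hu
    refine (ENNReal.ofReal_le_ofReal h).trans ?_
    have e5 : ENNReal.ofReal ((volume {x | l < ‖g x‖}).toReal * bet p c (N * l / s)) =
        volume {x | l < ‖g x‖} * ENNReal.ofReal (bet p c (N * l / s)) := by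
      rw [ENNReal.ofReal_mul ENNReal.toReal_nonneg, ENNReal.ofReal_toReal hgt]
    rw [ENNReal.ofReal_add (mul_nonneg hb0.le (Lam_nonneg (by linarith) hc0 hu))
      (mul_nonneg ENNReal.toReal_nonneg (bet_nonneg hc0 hu.le)), e5]
  have hstep : ENNReal.ofReal (ρ * s * b) ≤ ENNReal.ofReal (b * (s / N * A)) +
      ∫⁻ l in Ioi (0 : ℝ), volume {x | l < ‖g x‖} * ENNReal.ofReal (bet p c (N * l / s)) := by
    refine hlay.trans ((setLIntegral_mono' measurableSet_Ioi hpt).trans ?_)
    rw [lintegral_add_left hmeasL]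
    refine add_le_add_left (le_of_eq ?_) _
    have e : ∀ l : ℝ, ENNReal.ofReal (b * Lam p c (N * l / s)) =
        ENNReal.ofReal b * ENNReal.ofReal (Lam p c (N * l / s)) :=
      fun l => ENNReal.ofReal_mul hb0.le
    simp only [e]
    have hmL : Measurable fun l : ℝ => ENNReal.ofReal (Lam p c (N * l / s)) :=
      ((measurable_Lam p c).comp
      ((measurable_const.mul measurable_id).div_const s)).ennreal_ofReal
    rw [lintegral_const_mul _ hmL, lintegral_Lam hp hc0 hN hs, ENNReal.ofReal_mul hb0.le]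
  have hM0 : 0 ≤ N * s ^ (p - 2) := by positivity
  have hmul' := mul_le_mul_right hstep (ENNReal.ofReal (N * s ^ (p - 2)))
  rw [mul_add, ← ENNReal.ofReal_mul hM0, ← ENNReal.ofReal_mul hM0,
    ← lintegral_const_mul'' _ (by
      refine AEMeasurable.mul ?_ ?_
      · refine (Antitone.measurable ?_).aemeasurable
        intro l l' hll
        exact measure_mono fun x hx => lt_of_le_of_lt hll hx
      · exact (((measurable_bet p c).comp
          ((measurable_const.mul measurable_id).div_const s)).ennreal_ofReal).aemeasurable)] at hmul'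
  have hs1 : s ^ (p - 1) = s ^ (p - 2) * s := by
    rw [← Real.rpow_add_one hs.ne']
    congr 1
    ring
  have e1 : N * s ^ (p - 2) * (ρ * s * b) = (ρ * N) * b * s ^ (p - 1) := by
    rw [hs1]
    ring
  have e2 : N * s ^ (p - 2) * (b * (s / N * A)) = A * b * s ^ (p - 1) := by
    rw [hs1]
    field_simp
  rw [e1, e2] at hmul'
  have hsp : 0 ≤ s ^ (p - 1) := by positivity
  have e3 : ENNReal.ofReal (ρ * N - A) * (volume {x | s < ‖Beu g x‖} *
      ENNReal.ofReal (s ^ (p - 1))) ≤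
      ENNReal.ofReal (ρ * N * b * s ^ (p - 1)) - ENNReal.ofReal (A * b * s ^ (p - 1)) := by
    rw [hbe, ← ENNReal.ofReal_mul hb0.le, ← ENNReal.ofReal_sub _ (by positivity)]
    by_cases hX : 0 ≤ ρ * N - A
    · rw [← ENNReal.ofReal_mul hX]
      refine ENNReal.ofReal_le_ofReal (le_of_eq ?_)
      ring
    · rw [ENNReal.ofReal_of_nonpos (not_le.1 hX).le, zero_mul]
      exact zero_le
  refine e3.trans (tsub_le_iff_left.2 (hmul'.trans (add_le_add_right (le_of_eq ?_) _)))
  refine lintegral_congr fun l => ?_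
  rw [mul_comm, mul_assoc, ← ENNReal.ofReal_mul' hM0]
  congr 2
  ring

/-- The strong inequality. -/
theorem strong
    (hadd : ∀ f g : ℂ → ℂ, Test f → Test g →
      Beu (fun z => f z + g z) = fun z => Beu f z + Beu g z)
    (hmul : ∀ (c : ℂ) (f : ℂ → ℂ), Test f → Beu (fun z => c * f z) = fun z => c * Beu f z)
    (hcont : ∀ f : ℂ → ℂ, Test f → Continuous (Beu f))
    (hbdd : ∀ f : ℂ → ℂ, Test f → ∃ C, ∀ z, ‖Beu f z‖ ≤ C)
    (hL2 : ∀ f : ℂ → ℂ, Test f → eLpNorm (Beu f) 2 volume ≤ eLpNorm f 2 volume)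
    (hK : KeyEst) {g : ℂ → ℂ} (hg : Test g) {ρ : ℝ} (hρ : 0 < ρ) (hρ1 : ρ < 1)
    {p N : ℝ} (hp : 2 < p) (hN : 0 < N)
    (hX : 1 + 2 * (ρ / (1 - ρ)) / (p - 2) ≤ ρ * N - (p + 2 * Real.log (1 + ρ / (1 - ρ)) +
        4 * (ρ / (1 - ρ)) / (p - 2))) :
    ∫⁻ s in Ioi (0 : ℝ), volume {x | s < ‖Beu g x‖} * ENNReal.ofReal (s ^ (p - 1)) ≤
      ENNReal.ofReal (N ^ p) *
        ∫⁻ l in Ioi (0 : ℝ), volume {x | l < ‖g x‖} * ENNReal.ofReal (l ^ (p - 1)) := by
  have h1ρ : 0 < 1 - ρ := by linarith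
  have hp2 : 0 < p - 2 := by linarith
  set c := ρ / (1 - ρ) with hc
  have hc0 : 0 ≤ c := by positivity
  set Y := 1 + 2 * c / (p - 2) with hY
  have hY0 : 0 < Y := by positivity
  set X := ρ * N - (p + 2 * Real.log (1 + c) + 4 * c / (p - 2)) with hXd
  set Ib := ∫⁻ s in Ioi (0 : ℝ), volume {x | s < ‖Beu g x‖} * ENNReal.ofReal (s ^ (p - 1))
    with hIb
  set Ia := ∫⁻ l in Ioi (0 : ℝ), volume {x | l < ‖g x‖} * ENNReal.ofReal (l ^ (p - 1))
    with hIa
  have hma : Measurable fun l : ℝ => volume {x | l < ‖g x‖} := by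
    refine Antitone.measurable ?_
    intro l l' hll
    exact measure_mono fun x hx => lt_of_le_of_lt hll hx
  have hmb : Measurable fun s : ℝ => volume {x | s < ‖Beu g x‖} := by
    refine Antitone.measurable ?_
    intro l l' hll
    exact measure_mono fun x hx => lt_of_le_of_lt hll hx
  have hmbs : Measurable fun s : ℝ =>
      volume {x | s < ‖Beu g x‖} * ENNReal.ofReal (s ^ (p - 1)) :=
    hmb.mul (measurable_id.pow_const (p - 1)).ennreal_ofReal
  have h1 : ENNReal.ofReal X * Ib ≤ ∫⁻ s in Ioi (0 : ℝ), ∫⁻ l in Ioi (0 : ℝ),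
      volume {x | l < ‖g x‖} *
        ENNReal.ofReal (N * (s ^ (p - 2) * bet p c (N * l / s))) := by
    rw [hIb, ← lintegral_const_mul _ hmbs]
    refine setLIntegral_mono' measurableSet_Ioi fun s hs => ?_
    exact level hadd hmul hcont hbdd hL2 hK hg hρ hρ1 hp hN hs
  rw [lintegral_lintegral_swap (by
    refine Measurable.aemeasurable ?_
    have m1 : Measurable fun q : ℝ × ℝ => volume {x | q.2 < ‖g x‖} := hma.comp measurable_snd
    have m2 : Measurable fun q : ℝ × ℝ =>
        ENNReal.ofReal (N * (q.1 ^ (p - 2) * bet p c (N * q.2 / q.1))) := by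
      refine Measurable.ennreal_ofReal ?_
      refine measurable_const.mul ((measurable_fst.pow_const _).mul ?_)
      exact (measurable_bet p c).comp ((measurable_const.mul measurable_snd).div measurable_fst)
    exact m1.mul m2)] at h1
  have h2 : ∫⁻ l in Ioi (0 : ℝ), ∫⁻ s in Ioi (0 : ℝ), volume {x | l < ‖g x‖} *
        ENNReal.ofReal (N * (s ^ (p - 2) * bet p c (N * l / s))) =
      ENNReal.ofReal Y * (ENNReal.ofReal (N ^ p) * Ia) := by
    have hmas : Measurable fun s : ℝ =>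
        volume {x | s < ‖g x‖} * ENNReal.ofReal (s ^ (p - 1)) :=
      hma.mul (measurable_id.pow_const (p - 1)).ennreal_ofReal
    rw [hIa, ← mul_assoc, ← lintegral_const_mul _ hmas]
    refine setLIntegral_congr_fun measurableSet_Ioi fun l hl => ?_
    have hl' : (0 : ℝ) < l := hl
    have hR : 0 < N * l := by positivity
    have mk : Measurable fun s : ℝ => ENNReal.ofReal (s ^ (p - 2) * bet p c (N * l / s)) := by
      refine Measurable.ennreal_ofReal ?_
      refine (measurable_id.pow_const _).mul ?_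
      exact (measurable_bet p c).comp (measurable_const.div measurable_id)
    have e : ∀ s : ℝ, volume {x | l < ‖g x‖} *
        ENNReal.ofReal (N * (s ^ (p - 2) * bet p c (N * l / s))) =
        (volume {x | l < ‖g x‖} * ENNReal.ofReal N) *
          ENNReal.ofReal (s ^ (p - 2) * bet p c (N * l / s)) := by
      intro s
      rw [ENNReal.ofReal_mul hN.le, mul_assoc]
    simp only [e]
    rw [lintegral_const_mul _ mk, lintegral_kernel hp hc0 hR,
      Real.mul_rpow hN.le hl'.le, mul_assoc, ← ENNReal.ofReal_mul hN.le, mul_comm,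
      ← ENNReal.ofReal_mul hY0.le, mul_comm (volume {x | l < ‖g x‖}),
      ← mul_assoc (ENNReal.ofReal (Y * N ^ p)), ← ENNReal.ofReal_mul (by positivity)]
    congr 2
    have e1 : N ^ p = N * N ^ (p - 1) := by
      rw [mul_comm, ← Real.rpow_add_one hN.ne']
      congr 1
      ring
    rw [e1]
    ring
  rw [h2] at h1
  have h3 : ENNReal.ofReal Y * Ib ≤ ENNReal.ofReal Y * (ENNReal.ofReal (N ^ p) * Ia) :=
    (mul_le_mul_left (ENNReal.ofReal_le_ofReal hX) Ib).trans h1
  exact (ENNReal.mul_le_mul_iff_right (by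
    rw [Ne, ENNReal.ofReal_eq_zero, not_le]
    exact hY0) ENNReal.ofReal_ne_top).1 h3

theorem eLpNorm_eq {f : ℂ → ℂ} (hf : Continuous f) {p : ℝ} (hp : 0 < p) :
    eLpNorm f (ENNReal.ofReal p) volume = (ENNReal.ofReal p *
      ∫⁻ t in Ioi (0 : ℝ), volume {x | t < ‖f x‖} * ENNReal.ofReal (t ^ (p - 1))) ^ (1 / p) := by
  rw [eLpNorm_eq_lintegral_rpow_enorm_toReal (by
      rw [Ne, ENNReal.ofReal_eq_zero, not_le]
      exact hp) ENNReal.ofReal_ne_top, ENNReal.toReal_ofReal hp.le,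
    ← lintegral_rpow_eq_lintegral_meas_lt_mul volume (f := fun x => ‖f x‖)
      (Eventually.of_forall fun x => norm_nonneg _) hf.norm.measurable.aemeasurable hp]
  congr 1
  refine lintegral_congr fun x => ?_
  rw [← ofReal_norm, ENNReal.ofReal_rpow_of_nonneg (norm_nonneg _) hp.le]

end Upper

open Upper in
/-- Upper bound for the norm of the Beurling transform on `L^p`, from the key estimate. -/
theorem upper_eventually
    (hadd : ∀ f g : ℂ → ℂ, Test f → Test g →
      Beu (fun z => f z + g z) = fun z => Beu f z + Beu g z)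
    (hmul : ∀ (c : ℂ) (f : ℂ → ℂ), Test f → Beu (fun z => c * f z) = fun z => c * Beu f z)
    (hcont : ∀ f : ℂ → ℂ, Test f → Continuous (Beu f))
    (hbdd : ∀ f : ℂ → ℂ, Test f → ∃ C, ∀ z, ‖Beu f z‖ ≤ C)
    (hL2 : ∀ f : ℂ → ℂ, Test f → eLpNorm (Beu f) 2 volume ≤ eLpNorm f 2 volume)
    (hK : KeyEst) :
    ∀ ε : ℝ, 0 < ε → ∀ᶠ p : ℝ in atTop, ∀ g : ℂ → ℂ, Test g →
      eLpNorm (Beu g) (ENNReal.ofReal p) volume ≤
        ENNReal.ofReal ((1 + ε) * p) * eLpNorm g (ENNReal.ofReal p) volume := by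
  intro ε hε
  set ρ : ℝ := (2 + ε) / (2 * (1 + ε)) with hρd
  have hρ : 0 < ρ := by positivity
  have hρ1 : ρ < 1 := by
    rw [hρd, div_lt_one (by positivity)]
    linarith
  set c := ρ / (1 - ρ) with hc
  have h1ρ : 0 < 1 - ρ := by linarith
  have hc0 : 0 ≤ c := by positivity
  have hev : ∀ᶠ p : ℝ in atTop, (2 / ε) * (1 + 2 * Real.log (1 + c) + 6 * c) ≤ p :=
    eventually_ge_atTop _
  filter_upwards [hev, eventually_ge_atTop (3 : ℝ)] with p hp hp3 g hg
  have hp0 : 0 < p := by linarith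
  have hN : 0 < (1 + ε) * p := by positivity
  have hX : 1 + 2 * c / (p - 2) ≤ ρ * ((1 + ε) * p) - (p + 2 * Real.log (1 + c) +
        4 * c / (p - 2)) := by
    have e1 : ρ * ((1 + ε) * p) = p + ε / 2 * p := by
      rw [hρd]
      field_simp
    have e2 : 1 + 2 * Real.log (1 + c) + 6 * c ≤ ε / 2 * p := by
      have := mul_le_mul_of_nonneg_left hp (by positivity : 0 ≤ ε / 2)
      have e3 : ε / 2 * (2 / ε * (1 + 2 * Real.log (1 + c) + 6 * c)) =
          1 + 2 * Real.log (1 + c) + 6 * c := by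
        field_simp
      rwa [e3] at this
    have e4 : 2 * c / (p - 2) + 4 * c / (p - 2) ≤ 6 * c := by
      rw [← add_div, div_le_iff₀ (by linarith)]
      nlinarith
    rw [e1]
    linarith
  have hs := strong hadd hmul hcont hbdd hL2 hK hg hρ hρ1 (by linarith : 2 < p) hN hX
  rw [eLpNorm_eq (hcont g hg) hp0, eLpNorm_eq hg.continuous hp0]
  have hN' : ENNReal.ofReal ((1 + ε) * p) =
      (ENNReal.ofReal (((1 + ε) * p) ^ p)) ^ (1 / p) := by
    rw [ENNReal.ofReal_rpow_of_nonneg (by positivity) (by positivity), ← Real.rpow_mul hN.le,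
      mul_one_div_cancel hp0.ne', Real.rpow_one]
  rw [hN', ← ENNReal.mul_rpow_of_nonneg _ _ (by positivity)]
  refine ENNReal.rpow_le_rpow ?_ (by positivity)
  calc ENNReal.ofReal p * ∫⁻ t in Ioi (0 : ℝ), volume {x | t < ‖Beu g x‖} *
        ENNReal.ofReal (t ^ (p - 1))
      ≤ ENNReal.ofReal p * (ENNReal.ofReal (((1 + ε) * p) ^ p) *
        ∫⁻ t in Ioi (0 : ℝ), volume {x | t < ‖g x‖} * ENNReal.ofReal (t ^ (p - 1))) := by
        gcongr
    _ = _ := by ring

end Pool.Agent.Lib.MP_9e2694_an
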