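import Pool.Agent.Lib.MP_9e2694_an.Key5
import Pool.Agent.Lib.MP_9e2694_an.Upper
import Pool.Agent.Lib.MP_9e2694_an.Lower

/-!
# The extension of the Beurling transform to `L^p`
-/

set_option autoImplicit false

open MeasureTheory Complex Filter Topology
open scoped ContDiff ENNReal

namespace Pool.Agent.Lib.MP_9e2694_an

theorem ext_upper (ε : ℝ) (hε : 0 < ε) : ∀ᶠ p : ℝ in atTop, ∀ g : ℂ → ℂ, Test g →
      eLpNorm (Beu g) (ENNReal.ofReal p) volume ≤
        ENNReal.ofReal ((1 + ε) * p) * eLpNorm g (ENNReal.ofReal p) volume := by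
  refine upper_eventually (fun f g hf hg => beu_add hf hg) (fun c f hf => beu_const_mul c hf)
    (fun f hf => (contDiff_beu hf).continuous) (fun f hf => ?_) hL20 keyEst ε hε
  obtain ⟨C, hC0, hC⟩ := cau_bound hf.dz
  refine ⟨C, fun z => (hC z).trans ?_⟩
  exact div_le_self hC0 (by linarith [norm_nonneg z])

theorem ext_beu_dzb {h : ℂ → ℂ} (hh : Test h) : Beu (dzb h) = dz h := by
  rw [← dz_cau hh.dzb, cau_dzb hh]

/-- The test functions. -/
def testSub : Submodule ℂ (ℂ → ℂ) where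
  carrier := {g | Test g}
  add_mem' := fun hf hg => Test.add hf hg
  zero_mem' := test_zero
  smul_mem' := fun c _ hf => Test.const_mul c hf

section Fixed

variable {p : ℝ≥0∞} [Fact (1 ≤ p)]

omit [Fact (1 ≤ p)] in
theorem ext_memLp {g : ℂ → ℂ} (hg : Test g) : MemLp g p volume :=
  hg.continuous.memLp_of_hasCompactSupport hg.2

omit [Fact (1 ≤ p)] in
theorem ext_memLp_beu {C : ℝ≥0∞} (hC : C ≠ ⊤)
    (h : ∀ g : ℂ → ℂ, Test g → eLpNorm (Beu g) p volume ≤ C * eLpNorm g p volume)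
    {g : ℂ → ℂ} (hg : Test g) : MemLp (Beu g) p volume :=
  ⟨(contDiff_beu hg).continuous.aestronglyMeasurable,
    (h g hg).trans_lt (ENNReal.mul_lt_top hC.lt_top (ext_memLp hg).2)⟩

/-- the inclusion of the test functions -/
noncomputable def testInc (p : ℝ≥0∞) [Fact (1 ≤ p)] :
    testSub →ₗ[ℂ] Lp ℂ p (volume : Measure ℂ) where
  toFun g := (ext_memLp g.2).toLp g.1
  map_add' f g := by
    rw [← MemLp.toLp_add]
    rfl
  map_smul' c g := by
    rw [RingHom.id_apply, ← MemLp.toLp_const_smul]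
    rfl

/-- the Beurling transform on the test functions -/
noncomputable def testBeu {C : ℝ≥0∞} (hC : C ≠ ⊤)
    (h : ∀ g : ℂ → ℂ, Test g → eLpNorm (Beu g) p volume ≤ C * eLpNorm g p volume) :
    testSub →ₗ[ℂ] Lp ℂ p (volume : Measure ℂ) where
  toFun g := (ext_memLp_beu hC h g.2).toLp (Beu g.1)
  map_add' f g := by
    rw [← MemLp.toLp_add]
    apply MemLp.toLp_congr
    exact Eventually.of_forall fun x => congrFun (beu_add f.2 g.2) x
  map_smul' c g := by
    rw [RingHom.id_apply, ← MemLp.toLp_const_smul]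
    apply MemLp.toLp_congr
    exact Eventually.of_forall fun x => congrFun (beu_const_mul c g.2) x

theorem testInc_dense (hp : p ≠ ⊤) : DenseRange (testInc p) := by
  have h := Lp.dense_hasCompactSupport_contDiff (E := ℂ) (F := ℂ) (μ := volume) (p := p) hp
  refine h.mono ?_
  rintro f ⟨g, hfg, hg1, hg2⟩
  refine ⟨⟨g, hg2, hg1⟩, ?_⟩
  apply Lp.ext
  exact (MemLp.coeFn_toLp (ext_memLp (p := p) (⟨hg2, hg1⟩ : Test g))).trans hfg.symm

theorem norm_testInc (g : testSub) : ‖testInc p g‖ = (eLpNorm g.1 p volume).toReal :=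
  Lp.norm_toLp _ (ext_memLp g.2)

theorem norm_testBeu {C : ℝ≥0∞} (hC : C ≠ ⊤)
    (h : ∀ g : ℂ → ℂ, Test g → eLpNorm (Beu g) p volume ≤ C * eLpNorm g p volume) (g : testSub) :
    ‖testBeu hC h g‖ = (eLpNorm (Beu g.1) p volume).toReal :=
  Lp.norm_toLp _ (ext_memLp_beu hC h g.2)

theorem norm_testBeu_le {C : ℝ≥0∞} (hC : C ≠ ⊤)
    (h : ∀ g : ℂ → ℂ, Test g → eLpNorm (Beu g) p volume ≤ C * eLpNorm g p volume) (g : testSub) :
    ‖testBeu hC h g‖ ≤ C.toReal * ‖testInc p g‖ := by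
  rw [norm_testBeu, norm_testInc, ← ENNReal.toReal_mul]
  exact ENNReal.toReal_mono (ENNReal.mul_ne_top hC (ext_memLp g.2).2.ne) (h g.1 g.2)

end Fixed

end Pool.Agent.Lib.MP_9e2694_an
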