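import Mathlib
import Pool.Agent.Lib.MP_9e2694_an.CauBasic

/-!
Uniqueness (Liouville) and the Sobolev type sup bound.
-/

set_option autoImplicit false

open MeasureTheory Complex Filter Topology
open scoped ContDiff ENNReal

namespace Pool.Agent.Lib.MP_9e2694_an

theorem eq_zero_of_dzb {H : ℂ → ℂ} (hH : ContDiff ℝ (⊤ : ℕ∞) H) (h0 : ∀ z, dzb H z = 0)
    (ht : Tendsto H (cocompact ℂ) (𝓝 0)) : H = fun _ => 0 := by
  have hd : Differentiable ℂ H := by
    intro z
    rw [differentiableAt_complex_iff_differentiableAt_real]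
    refine ⟨(hH.differentiable (by simp)) z, ?_⟩
    have h := h0 z
    unfold dzb at h
    have h1 : fderiv ℝ H z 1 + I * fderiv ℝ H z I = 0 := by
      have := h
      field_simp at this
      simpa using this
    rw [smul_eq_mul]
    have hI : I * I = -1 := I_mul_I
    linear_combination (-I) * h1 + (fderiv ℝ H z I) * hI
  have := hd.eq_const_of_tendsto_cocompact ht
  funext z
  rw [this]
  rfl

theorem eq_cau_of_tendsto (hC : ∀ k : ℂ → ℂ, Test k → Cau (dzb k) = k)
    (hdec : ∀ k : ℂ → ℂ, Test k → Tendsto (Cau k) (cocompact ℂ) (𝓝 0))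
    {G : ℂ → ℂ} (hG : ContDiff ℝ (⊤ : ℕ∞) G) (hq : Test (dzb G))
    (ht : Tendsto G (cocompact ℂ) (𝓝 0)) : G = Cau (dzb G) := by
  have hcd := contDiff_cau hq
  have h1 : ContDiff ℝ (⊤ : ℕ∞) (fun z => G z + -1 * Cau (dzb G) z) :=
    hG.add (contDiff_const.mul hcd)
  have hz := eq_zero_of_dzb h1 (fun z => by
    rw [dzb_add ((hG.differentiable (by simp)) z)
      (((contDiff_const.mul hcd).differentiable (by simp)) z),
      dzb_const_mul (-1) ((hcd.differentiable (by simp)) z), dzb_cau hq, hC _ hq]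
    ring) (by
    have := ht.add ((hdec _ hq).const_mul (-1))
    simpa using this)
  funext z
  have h5 : G z + -1 * Cau (dzb G) z = 0 := congrFun hz z
  linear_combination h5

/-- Sup bound by the `L¹` norm of the mixed second derivative. -/
theorem enorm_le_lintegral {f : ℂ → ℂ} (hf : Test f) (z : ℂ) :
    ‖f z‖ₑ ≤ ∫⁻ w : ℂ, ‖fderiv ℝ (fun w => fderiv ℝ f w 1) w I‖ₑ := by
  have hline1 : ∀ (g : ℂ → ℂ), Test g → ∀ (y x : ℝ),
      ‖g (x + y * I)‖ₑ ≤ ∫⁻ t : ℝ, ‖fderiv ℝ g (t + y * I) 1‖ₑ := by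
    intro g hg y x
    have haff : ContDiff ℝ 1 (fun t : ℝ => (t : ℂ) + y * I) :=
      (ofRealCLM.contDiff).add contDiff_const
    have hg1 : ContDiff ℝ 1 g := hg.1.of_le (by exact_mod_cast le_top)
    have hcomp : ContDiff ℝ 1 (fun t : ℝ => g ((t : ℂ) + y * I)) := hg1.comp haff
    have hemb : Topology.IsClosedEmbedding (fun t : ℝ => (t : ℂ) + y * I) := by
      have h1 : Topology.IsClosedEmbedding (fun t : ℝ => (t : ℂ)) := isometry_ofReal.isClosedEmbedding
      exact (Homeomorph.addRight ((y : ℂ) * I)).isClosedEmbedding.comp h1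
    have hcs : HasCompactSupport (fun t : ℝ => g ((t : ℂ) + y * I)) :=
      hg.2.comp_isClosedEmbedding hemb
    have h := hcs.enorm_le_lintegral_Ici_deriv hcomp x
    have hder : ∀ t : ℝ, deriv (fun t : ℝ => g ((t : ℂ) + y * I)) t =
        fderiv ℝ g (t + y * I) 1 := by
      intro t
      have h1 : HasDerivAt (fun t : ℝ => (t : ℂ) + y * I) 1 t :=
        (ofRealCLM.hasDerivAt).add_const _
      have h2 := ((hg1.differentiable one_ne_zero) ((t : ℂ) + y * I)).hasFDerivAt
      exact (h2.comp_hasDerivAt t h1).deriv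
    refine h.trans ((setLIntegral_le_lintegral _ _).trans (le_of_eq ?_))
    simp_rw [hder]
  have hline2 : ∀ (g : ℂ → ℂ), Test g → ∀ (x y : ℝ),
      ‖g (x + y * I)‖ₑ ≤ ∫⁻ s : ℝ, ‖fderiv ℝ g (x + s * I) I‖ₑ := by
    intro g hg x y
    have haff : ContDiff ℝ 1 (fun s : ℝ => (x : ℂ) + s * I) :=
      contDiff_const.add ((ofRealCLM.contDiff).mul contDiff_const)
    have hg1 : ContDiff ℝ 1 g := hg.1.of_le (by exact_mod_cast le_top)
    have hcomp : ContDiff ℝ 1 (fun s : ℝ => g ((x : ℂ) + s * I)) := hg1.comp haff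
    have hemb : Topology.IsClosedEmbedding (fun s : ℝ => (x : ℂ) + s * I) := by
      have h1 : Topology.IsClosedEmbedding (fun t : ℝ => (t : ℂ)) := isometry_ofReal.isClosedEmbedding
      have h2 : Topology.IsClosedEmbedding (fun s : ℝ => (s : ℂ) * I) :=
        (Homeomorph.mulRight₀ I I_ne_zero).isClosedEmbedding.comp h1
      exact (Homeomorph.addLeft (x : ℂ)).isClosedEmbedding.comp h2
    have hcs : HasCompactSupport (fun s : ℝ => g ((x : ℂ) + s * I)) :=
      hg.2.comp_isClosedEmbedding hemb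
    have h := hcs.enorm_le_lintegral_Ici_deriv hcomp y
    have hder : ∀ s : ℝ, deriv (fun s : ℝ => g ((x : ℂ) + s * I)) s =
        fderiv ℝ g (x + s * I) I := by
      intro s
      have h1 : HasDerivAt (fun s : ℝ => (x : ℂ) + s * I) I s := by
        have := ((ofRealCLM.hasDerivAt (x := s)).mul_const I).const_add (x : ℂ)
        simpa using this
      have h2 := ((hg1.differentiable one_ne_zero) ((x : ℂ) + s * I)).hasFDerivAt
      exact (h2.comp_hasDerivAt s h1).deriv
    refine h.trans ((setLIntegral_le_lintegral _ _).trans (le_of_eq ?_))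
    simp_rw [hder]
  have hz : z = (z.re : ℂ) + z.im * I := (re_add_im z).symm
  have h1 : ‖f z‖ₑ ≤ ∫⁻ t : ℝ, ‖fderiv ℝ f (t + z.im * I) 1‖ₑ := by
    conv_lhs => rw [hz]
    exact hline1 f hf z.im z.re
  refine h1.trans ?_
  have h2 : ∀ t : ℝ, ‖fderiv ℝ f (t + z.im * I) 1‖ₑ ≤
      ∫⁻ s : ℝ, ‖fderiv ℝ (fun w => fderiv ℝ f w 1) (t + s * I) I‖ₑ := fun t =>
    hline2 _ (hf.fderiv_apply 1) t z.im
  refine (lintegral_mono h2).trans (le_of_eq ?_)
  have hcont : Continuous fun w : ℂ => ‖fderiv ℝ (fun w => fderiv ℝ f w 1) w I‖ₑ :=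
    ((hf.fderiv_apply 1).fderiv_apply I).continuous.enorm
  have hmp := volume_preserving_equiv_real_prod.symm
  have h3 := hmp.lintegral_comp (f := fun w : ℂ =>
    ‖fderiv ℝ (fun w => fderiv ℝ f w 1) w I‖ₑ) hcont.measurable
  rw [← h3, Measure.volume_eq_prod, lintegral_prod _ (by
    exact (hcont.measurable.comp measurableEquivRealProd.symm.measurable).aemeasurable)]
  refine lintegral_congr fun t => lintegral_congr fun s => ?_
  rw [measurableEquivRealProd_symm_apply]
  congr 3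
  apply Complex.ext <;> simp

theorem enorm_le_eLpNorm_two {f : ℂ → ℂ} (hf : Test f) {K : Set ℂ} (hK : MeasurableSet K)
    (hsupp : ∀ z, z ∉ K → f =ᶠ[𝓝 z] fun _ => 0) (z : ℂ) :
    ‖f z‖ₑ ≤ eLpNorm (fun w => fderiv ℝ (fun w => fderiv ℝ f w 1) w I) 2 volume *
      (volume K) ^ (1 / 2 : ℝ) := by
  refine (enorm_le_lintegral hf z).trans ?_
  set g := fun w => fderiv ℝ (fun w => fderiv ℝ f w 1) w I with hg
  have hgz : ∀ w, w ∉ K → g w = 0 := by
    intro w hw
    have h1 := hsupp w hw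
    have h2 : (fun w => fderiv ℝ f w 1) =ᶠ[𝓝 w] fun _ => 0 := by
      filter_upwards [h1.eventuallyEq_nhds] with v hv
      rw [hv.fderiv_eq]
      simp
    rw [hg]
    simp only
    rw [h2.fderiv_eq]
    simp
  have h4 : ∫⁻ w, ‖g w‖ₑ = ∫⁻ w in K, ‖g w‖ₑ := by
    rw [← lintegral_indicator hK]
    refine lintegral_congr fun w => ?_
    by_cases hw : w ∈ K
    · rw [Set.indicator_of_mem hw]
    · rw [Set.indicator_of_notMem hw, hgz w hw, enorm_zero]
  have hgm : AEStronglyMeasurable g (volume.restrict K) :=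
    ((hf.fderiv_apply 1).fderiv_apply I).continuous.aestronglyMeasurable
  have h5 := eLpNorm_le_eLpNorm_mul_rpow_measure_univ (μ := volume.restrict K)
    (p := 1) (q := 2) (by norm_num) hgm
  rw [eLpNorm_one_eq_lintegral_enorm] at h5
  rw [h4]
  refine h5.trans ?_
  rw [Measure.restrict_apply_univ]
  refine mul_le_mul' (eLpNorm_mono_measure _ Measure.restrict_le_self) (le_of_eq ?_)
  congr 1
  norm_num

end Pool.Agent.Lib.MP_9e2694_an
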