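import Mathlib
import Pool.Agent.Lib.MP_9e2694_an.Key1

/-!
The iterates `k_n`, `u_n` and their bounds.
-/

set_option autoImplicit false

open MeasureTheory Complex Filter Topology
open scoped ENNReal

namespace Pool.Agent.Lib.MP_9e2694_an

/-- `k_0 = ∂ μ`, `k_{n+1} = μ T k_n`. -/
noncomputable def kseq (μ : ℂ → ℂ) : ℕ → ℂ → ℂ
  | 0 => dz μ
  | n + 1 => fun z => μ z * Beu (kseq μ n) z

/-- `u_0 = μ`, `u_{n+1} = μ T u_n`. -/
noncomputable def useq (μ : ℂ → ℂ) : ℕ → ℂ → ℂ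
  | 0 => μ
  | n + 1 => fun z => μ z * Beu (useq μ n) z

theorem test_kseq {μ : ℂ → ℂ} (hμ : Test μ) (n : ℕ) : Test (kseq μ n) := by
  induction n with
  | zero => exact hμ.dz
  | succ n ih => exact hμ.mul_left (contDiff_beu ih)

theorem test_useq {μ : ℂ → ℂ} (hμ : Test μ) (n : ℕ) : Test (useq μ n) := by
  induction n with
  | zero => exact hμ
  | succ n ih => exact hμ.mul_left (contDiff_beu ih)

theorem eLpNorm_useq {μ : ℂ → ℂ} (hμ : Test μ) (h1 : ∀ z, ‖μ z‖ ≤ 1)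
    (hL2 : ∀ k : ℂ → ℂ, Test k → eLpNorm (Beu k) 2 volume ≤ eLpNorm k 2 volume) (n : ℕ) :
    eLpNorm (useq μ n) 2 volume ≤ eLpNorm μ 2 volume := by
  induction n with
  | zero => exact le_refl _
  | succ n ih =>
    refine le_trans ?_ ((hL2 _ (test_useq hμ n)).trans ih)
    refine eLpNorm_mono fun z => ?_
    show ‖μ z * Beu (useq μ n) z‖ ≤ _
    rw [norm_mul]
    exact mul_le_of_le_one_left (norm_nonneg _) (h1 z)

theorem fderiv_mul_beu {μ k : ℂ → ℂ} (hμ : Test μ) (hk : Test k) (v : ℂ) :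
    (fun w => fderiv ℝ (fun z => μ z * Beu k z) w v) =
      fun w => fderiv ℝ μ w v * Beu k w + μ w * Beu (fun w => fderiv ℝ k w v) w := by
  funext w
  have hb : DifferentiableAt ℝ (Beu k) w := (contDiff_beu hk).differentiable (by simp) w
  rw [fderiv_fun_mul (hμ.differentiable w) hb, ← fderiv_beu hk]
  simp only [_root_.add_apply, _root_.smul_apply, smul_eq_mul]
  ring

theorem eLpNorm_two_mul_le {f g : ℂ → ℂ} {M : ℝ} (hM : ∀ z, ‖f z‖ ≤ M) :
    eLpNorm (fun z => f z * g z) 2 volume ≤ ENNReal.ofReal M * eLpNorm g 2 volume := by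
  refine eLpNorm_le_mul_eLpNorm_of_ae_le_mul (Filter.Eventually.of_forall fun z => ?_) 2
  rw [norm_mul]
  exact mul_le_mul_of_nonneg_right (hM z) (norm_nonneg _)

section growth

variable {μ : ℂ → ℂ} (hμ : Test μ) (h1 : ∀ z, ‖μ z‖ ≤ 1)
  (hL2 : ∀ k : ℂ → ℂ, Test k → eLpNorm (Beu k) 2 volume ≤ eLpNorm k 2 volume)
  {M : ℝ} (hM0 : 0 ≤ M) (hM1 : ∀ z, ‖fderiv ℝ μ z 1‖ ≤ M) (hMI : ∀ z, ‖fderiv ℝ μ z I‖ ≤ M)
  (hM2 : ∀ z, ‖fderiv ℝ (fun w => fderiv ℝ μ w 1) z I‖ ≤ M)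

include hμ h1 hL2

theorem step_a {k : ℂ → ℂ} (hk : Test k) :
    eLpNorm (fun z => μ z * Beu k z) 2 volume ≤ eLpNorm k 2 volume := by
  have h := (eLpNorm_two_mul_le (g := Beu k) h1).trans
    (mul_le_mul_right (hL2 k hk) _)
  simpa using h

theorem step_b {k : ℂ → ℂ} (hk : Test k) {v : ℂ} (hv : ∀ z, ‖fderiv ℝ μ z v‖ ≤ M) :
    eLpNorm (fun w => fderiv ℝ (fun z => μ z * Beu k z) w v) 2 volume ≤
      ENNReal.ofReal M * eLpNorm k 2 volume + eLpNorm (fun w => fderiv ℝ k w v) 2 volume := by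
  rw [fderiv_mul_beu hμ hk v]
  have hc1 : AEStronglyMeasurable (fun w => fderiv ℝ μ w v * Beu k w) volume :=
    ((hμ.fderiv_apply v).continuous.mul (contDiff_beu hk).continuous).aestronglyMeasurable
  have hc2 : AEStronglyMeasurable (fun w => μ w * Beu (fun w => fderiv ℝ k w v) w) volume :=
    (hμ.continuous.mul (contDiff_beu (hk.fderiv_apply v)).continuous).aestronglyMeasurable
  refine (eLpNorm_add_le hc1 hc2 (by norm_num)).trans (add_le_add ?_ ?_)
  · exact (eLpNorm_two_mul_le hv).trans (mul_le_mul_right (hL2 k hk) _)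
  · exact step_a hμ h1 hL2 (hk.fderiv_apply v)

include hM1 hMI hM2

theorem step_c {k : ℂ → ℂ} (hk : Test k) :
    eLpNorm (fun w => fderiv ℝ (fun w => fderiv ℝ (fun z => μ z * Beu k z) w 1) w I) 2 volume ≤
      ENNReal.ofReal M * eLpNorm k 2 volume +
      ENNReal.ofReal M * eLpNorm (fun w => fderiv ℝ k w I) 2 volume +
      (ENNReal.ofReal M * eLpNorm (fun w => fderiv ℝ k w 1) 2 volume +
      eLpNorm (fun w => fderiv ℝ (fun w => fderiv ℝ k w 1) w I) 2 volume) := by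
  rw [fderiv_mul_beu hμ hk 1]
  have hk1 := hk.fderiv_apply 1
  have hb1 : Test (fun w => fderiv ℝ μ w 1 * Beu k w) :=
    (hμ.fderiv_apply 1).mul_left (contDiff_beu hk)
  have hb2 : Test (fun w => μ w * Beu (fun w => fderiv ℝ k w 1) w) :=
    hμ.mul_left (contDiff_beu hk1)
  have e : (fun w => fderiv ℝ (fun w => fderiv ℝ μ w 1 * Beu k w +
      μ w * Beu (fun w => fderiv ℝ k w 1) w) w I) =
      fun w => fderiv ℝ (fun w => fderiv ℝ μ w 1 * Beu k w) w I +
        fderiv ℝ (fun w => μ w * Beu (fun w => fderiv ℝ k w 1) w) w I := by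
    funext w
    rw [fderiv_fun_add (hb1.differentiable w) (hb2.differentiable w)]
    simp only [_root_.add_apply]
  rw [e]
  have hc1 := (hb1.fderiv_apply I).continuous.aestronglyMeasurable (μ := volume)
  have hc2 := (hb2.fderiv_apply I).continuous.aestronglyMeasurable (μ := volume)
  refine (eLpNorm_add_le hc1 hc2 (by norm_num)).trans (add_le_add ?_ ?_)
  · rw [fderiv_mul_beu (hμ.fderiv_apply 1) hk I]
    have hd1 : AEStronglyMeasurable
        (fun w => fderiv ℝ (fun w => fderiv ℝ μ w 1) w I * Beu k w) volume :=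
      (((hμ.fderiv_apply 1).fderiv_apply I).continuous.mul
        (contDiff_beu hk).continuous).aestronglyMeasurable
    have hd2 : AEStronglyMeasurable
        (fun w => fderiv ℝ μ w 1 * Beu (fun w => fderiv ℝ k w I) w) volume :=
      ((hμ.fderiv_apply 1).continuous.mul
        (contDiff_beu (hk.fderiv_apply I)).continuous).aestronglyMeasurable
    refine (eLpNorm_add_le hd1 hd2 (by norm_num)).trans (add_le_add ?_ ?_)
    · exact (eLpNorm_two_mul_le hM2).trans (mul_le_mul_right (hL2 k hk) _)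
    · exact (eLpNorm_two_mul_le hM1).trans (mul_le_mul_right (hL2 _ (hk.fderiv_apply I)) _)
  · exact step_b hμ h1 hL2 hk1 hMI

include hM0

theorem growth (n : ℕ) {X : ℝ≥0∞} (ha : eLpNorm (kseq μ 0) 2 volume ≤ X)
    (hb1 : eLpNorm (fun w => fderiv ℝ (kseq μ 0) w 1) 2 volume ≤ X)
    (hbI : eLpNorm (fun w => fderiv ℝ (kseq μ 0) w I) 2 volume ≤ X)
    (hc : eLpNorm (fun w => fderiv ℝ (fun w => fderiv ℝ (kseq μ 0) w 1) w I) 2 volume ≤ X) :
    eLpNorm (kseq μ n) 2 volume ≤ X ∧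
    eLpNorm (fun w => fderiv ℝ (kseq μ n) w 1) 2 volume ≤
      ENNReal.ofReal (1 + M) * X * (n + 1) ∧
    eLpNorm (fun w => fderiv ℝ (kseq μ n) w I) 2 volume ≤
      ENNReal.ofReal (1 + M) * X * (n + 1) ∧
    eLpNorm (fun w => fderiv ℝ (fun w => fderiv ℝ (kseq μ n) w 1) w I) 2 volume ≤
      ENNReal.ofReal (1 + M) ^ 2 * X * (n + 1) ^ 2 := by
  set R := ENNReal.ofReal (1 + M) with hR
  set m := ENNReal.ofReal M with hm
  have hR1 : R = 1 + m := by
    rw [hR, ENNReal.ofReal_add zero_le_one hM0, ENNReal.ofReal_one]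
  have h1R : 1 ≤ R := by rw [hR1]; exact le_self_add
  have hmR : m ≤ R := by rw [hR1]; exact le_add_self
  induction n with
  | zero =>
    refine ⟨ha, ?_, ?_, ?_⟩
    · simp only [Nat.cast_zero, zero_add, mul_one]
      exact hb1.trans (le_mul_of_one_le_left zero_le h1R)
    · simp only [Nat.cast_zero, zero_add, mul_one]
      exact hbI.trans (le_mul_of_one_le_left zero_le h1R)
    · simp only [Nat.cast_zero, zero_add, one_pow, mul_one]
      exact hc.trans (le_mul_of_one_le_left zero_le (one_le_pow₀ h1R))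
  | succ n ih =>
    obtain ⟨i1, i2, i3, i4⟩ := ih
    have hk := test_kseq hμ n
    have hRX : m * X ≤ R * X := mul_le_mul_left hmR X
    refine ⟨(step_a hμ h1 hL2 hk).trans i1, ?_, ?_, ?_⟩
    · refine (step_b hμ h1 hL2 hk hM1).trans ?_
      calc m * eLpNorm (kseq μ n) 2 volume + eLpNorm (fun w => fderiv ℝ (kseq μ n) w 1) 2 volume
          ≤ m * X + R * X * (n + 1) := add_le_add (mul_le_mul_right i1 _) i2
        _ ≤ R * X + R * X * (n + 1) := add_le_add hRX le_rfl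
        _ = R * X * ((n + 1 : ℕ) + 1) := by push_cast; ring
    · refine (step_b hμ h1 hL2 hk hMI).trans ?_
      calc m * eLpNorm (kseq μ n) 2 volume + eLpNorm (fun w => fderiv ℝ (kseq μ n) w I) 2 volume
          ≤ m * X + R * X * (n + 1) := add_le_add (mul_le_mul_right i1 _) i3
        _ ≤ R * X + R * X * (n + 1) := add_le_add hRX le_rfl
        _ = R * X * ((n + 1 : ℕ) + 1) := by push_cast; ring
    · refine (step_c hμ h1 hL2 hM1 hMI hM2 hk).trans ?_
      have hmR2 : m * X ≤ R ^ 2 * X := by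
        refine hRX.trans (mul_le_mul_left ?_ X)
        calc R = R * 1 := (mul_one R).symm
          _ ≤ R * R := mul_le_mul_right h1R R
          _ = R ^ 2 := (sq R).symm
      have hb : ∀ y : ℝ≥0∞, y ≤ R * X * (n + 1) → m * y ≤ R ^ 2 * X * (n + 1) := by
        intro y hy
        calc m * y ≤ R * (R * X * (n + 1)) := mul_le_mul' hmR hy
          _ = R ^ 2 * X * (n + 1) := by ring
      calc m * eLpNorm (kseq μ n) 2 volume +
            m * eLpNorm (fun w => fderiv ℝ (kseq μ n) w I) 2 volume +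
            (m * eLpNorm (fun w => fderiv ℝ (kseq μ n) w 1) 2 volume +
            eLpNorm (fun w => fderiv ℝ (fun w => fderiv ℝ (kseq μ n) w 1) w I) 2 volume)
          ≤ R ^ 2 * X + R ^ 2 * X * (n + 1) + (R ^ 2 * X * (n + 1) +
            R ^ 2 * X * (n + 1) ^ 2) :=
            add_le_add (add_le_add ((mul_le_mul_right i1 _).trans hmR2) (hb _ i3))
              (add_le_add (hb _ i2) i4)
        _ = R ^ 2 * X * ((n + 1 : ℕ) + 1) ^ 2 := by push_cast; ring

end growth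

theorem Test.eLpNorm_lt_top {f : ℂ → ℂ} (hf : Test f) (p : ℝ≥0∞) :
    eLpNorm f p volume < ∞ :=
  (hf.continuous.memLp_of_hasCompactSupport hf.2).eLpNorm_lt_top

theorem Test.exists_bound {f : ℂ → ℂ} (hf : Test f) : ∃ C : ℝ, ∀ z, ‖f z‖ ≤ C :=
  hf.2.exists_bound_of_continuous hf.continuous

theorem eventually_zero_of_notMem_tsupport {f : ℂ → ℂ} {z : ℂ} (hz : z ∉ tsupport f) :
    f =ᶠ[𝓝 z] fun _ => 0 := by
  exact notMem_tsupport_iff_eventuallyEq.1 hz

theorem kseq_eventually_zero {μ : ℂ → ℂ} {z : ℂ} (hz : z ∉ tsupport μ) (n : ℕ) :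
    kseq μ n =ᶠ[𝓝 z] fun _ => 0 := by
  have h := eventually_zero_of_notMem_tsupport hz
  cases n with
  | zero =>
    filter_upwards [h.eventuallyEq_nhds] with v hv
    show dz μ v = 0
    unfold dz
    rw [hv.fderiv_eq]
    simp
  | succ n =>
    filter_upwards [h] with v hv
    show μ v * _ = 0
    rw [hv, zero_mul]

/-- Quadratic growth of the sup norms of `k_n`. -/
theorem exists_kseq_bound {μ : ℂ → ℂ} (hμ : Test μ) (h1 : ∀ z, ‖μ z‖ ≤ 1)
    (hL2 : ∀ k : ℂ → ℂ, Test k → eLpNorm (Beu k) 2 volume ≤ eLpNorm k 2 volume) :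
    ∃ C : ℝ, 0 ≤ C ∧ ∀ n z, ‖kseq μ n z‖ ≤ C * ((n : ℝ) + 1) ^ 2 := by
  obtain ⟨M1, hM1⟩ := (hμ.fderiv_apply 1).exists_bound
  obtain ⟨M2, hM2⟩ := (hμ.fderiv_apply I).exists_bound
  obtain ⟨M3, hM3⟩ := ((hμ.fderiv_apply 1).fderiv_apply I).exists_bound
  set M := max 0 (max M1 (max M2 M3)) with hM
  have hM0 : 0 ≤ M := le_max_left _ _
  have b1 : ∀ z, ‖fderiv ℝ μ z 1‖ ≤ M := fun z =>
    (hM1 z).trans ((le_max_left _ _).trans (le_max_right _ _))
  have b2 : ∀ z, ‖fderiv ℝ μ z I‖ ≤ M := fun z =>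
    (hM2 z).trans ((le_max_left _ _).trans ((le_max_right _ _).trans (le_max_right _ _)))
  have b3 : ∀ z, ‖fderiv ℝ (fun w => fderiv ℝ μ w 1) z I‖ ≤ M := fun z =>
    (hM3 z).trans ((le_max_right _ _).trans ((le_max_right _ _).trans (le_max_right _ _)))
  have hk0 := test_kseq hμ 0
  set X : ℝ≥0∞ := eLpNorm (kseq μ 0) 2 volume +
    eLpNorm (fun w => fderiv ℝ (kseq μ 0) w 1) 2 volume +
    (eLpNorm (fun w => fderiv ℝ (kseq μ 0) w I) 2 volume +
    eLpNorm (fun w => fderiv ℝ (fun w => fderiv ℝ (kseq μ 0) w 1) w I) 2 volume) with hX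
  have hXt : X < ∞ := by
    rw [hX]
    exact ENNReal.add_lt_top.2 ⟨ENNReal.add_lt_top.2 ⟨hk0.eLpNorm_lt_top 2,
      (hk0.fderiv_apply 1).eLpNorm_lt_top 2⟩, ENNReal.add_lt_top.2
      ⟨(hk0.fderiv_apply I).eLpNorm_lt_top 2,
      ((hk0.fderiv_apply 1).fderiv_apply I).eLpNorm_lt_top 2⟩⟩
  have hKm : MeasurableSet (tsupport μ) := (isClosed_tsupport μ).measurableSet
  have hKt : volume (tsupport μ) < ∞ := hμ.2.isCompact.measure_lt_top
  set Y : ℝ≥0∞ := ENNReal.ofReal (1 + M) ^ 2 * X * (volume (tsupport μ)) ^ (1 / 2 : ℝ) with hY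
  have hYt : Y < ∞ := by
    rw [hY]
    exact ENNReal.mul_lt_top (ENNReal.mul_lt_top (ENNReal.pow_lt_top ENNReal.ofReal_lt_top) hXt)
      (ENNReal.rpow_lt_top_of_nonneg (by norm_num) hKt.ne)
  refine ⟨Y.toReal, ENNReal.toReal_nonneg, fun n z => ?_⟩
  have hg := (growth hμ h1 hL2 hM0 b1 b2 b3 n (X := X)
    (by rw [hX]; exact le_add_right (le_add_right le_rfl))
    (by rw [hX]; exact le_add_right le_add_self)
    (by rw [hX]; exact le_add_left (le_add_right le_rfl))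
    (by rw [hX]; exact le_add_left le_add_self)).2.2.2
  have hs := enorm_le_eLpNorm_two (test_kseq hμ n) hKm
    (fun z hz => kseq_eventually_zero hz n) z
  have h5 : ‖kseq μ n z‖ₑ ≤ Y * ((n : ℝ≥0∞) + 1) ^ 2 := by
    refine hs.trans ?_
    calc _ ≤ ENNReal.ofReal (1 + M) ^ 2 * X * (n + 1) ^ 2 *
          (volume (tsupport μ)) ^ (1 / 2 : ℝ) := mul_le_mul_left hg _
      _ = Y * ((n : ℝ≥0∞) + 1) ^ 2 := by rw [hY]; ring
  have h6 : Y * ((n : ℝ≥0∞) + 1) ^ 2 = ENNReal.ofReal (Y.toReal * ((n : ℝ) + 1) ^ 2) := by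
    rw [ENNReal.ofReal_mul ENNReal.toReal_nonneg, ENNReal.ofReal_toReal hYt.ne,
      ENNReal.ofReal_pow (by positivity), ENNReal.ofReal_add (by positivity) zero_le_one,
      ENNReal.ofReal_natCast, ENNReal.ofReal_one]
  rw [h6] at h5
  rw [← ofReal_norm_eq_enorm] at h5
  exact (ENNReal.ofReal_le_ofReal_iff (mul_nonneg ENNReal.toReal_nonneg (by positivity))).1 h5

end Pool.Agent.Lib.MP_9e2694_an
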