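import Mathlib
import Pool.Agent.Lib.MP_9e2694_an.Key2

/-!
The exponential `exp (∑ λ^{n+1} C k_n)` and its comparison with `1 + ∑ λ^{n+1} T u_n`.
-/

set_option autoImplicit false

open MeasureTheory Complex Filter Topology
open scoped ENNReal

namespace Pool.Agent.Lib.MP_9e2694_an

/-- The constant in the sup bound of the Cauchy transform. -/
noncomputable def cauConst (R : ℝ) : ℝ :=
  (∫ w in Metric.ball (0 : ℂ) 1, ‖w‖⁻¹) + (volume (Metric.closedBall (0 : ℂ) R)).toReal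

theorem cauConst_nonneg (R : ℝ) : 0 ≤ cauConst R := by
  unfold cauConst
  exact add_nonneg (integral_nonneg fun w => inv_nonneg.2 (norm_nonneg _)) ENNReal.toReal_nonneg

theorem integrableOn_inv_norm : IntegrableOn (fun w : ℂ => ‖w‖⁻¹) (Metric.ball (0 : ℂ) 1) := by
  have h := (locInt_inv.integrableOn_isCompact (isCompact_closedBall (0 : ℂ) 1)).norm
  have h2 := h.mono_measure (Measure.restrict_mono_set volume
    (Metric.ball_subset_closedBall : Metric.ball (0 : ℂ) 1 ⊆ _))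
  refine h2.congr (Filter.Eventually.of_forall fun w => ?_)
  simp

theorem norm_cau_le {k : ℂ → ℂ} {R S : ℝ} (hS : 0 ≤ S)
    (hb : ∀ z, ‖k z‖ ≤ S) (hsupp : ∀ z, R < ‖z‖ → k z = 0) (z : ℂ) :
    ‖Cau k z‖ ≤ cauConst R * S := by
  unfold Cau
  rw [norm_mul]
  have hpi : ‖(1 / (Real.pi : ℂ))‖ ≤ 1 := by
    rw [norm_div, norm_one, norm_real, Real.norm_eq_abs, abs_of_pos Real.pi_pos,
      div_le_one Real.pi_pos]
    linarith [Real.pi_gt_three]
  set b := Metric.ball (0 : ℂ) 1 with hbdef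
  set K := Metric.closedBall z R with hK
  have hbm : MeasurableSet b := Metric.isOpen_ball.measurableSet
  have hKm : MeasurableSet K := Metric.isClosed_closedBall.measurableSet
  have hi1 : Integrable (b.indicator fun w : ℂ => ‖w‖⁻¹) :=
    (integrable_indicator_iff hbm).2 integrableOn_inv_norm
  have hi2 : Integrable (K.indicator fun _ : ℂ => (1 : ℝ)) := by
    rw [integrable_indicator_iff hKm]
    exact integrableOn_const (isCompact_closedBall z R).measure_lt_top.ne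
  have hpt : ∀ w : ℂ, ‖k (z - w) / w‖ ≤
      S * (b.indicator (fun w : ℂ => ‖w‖⁻¹) w + K.indicator (fun _ : ℂ => (1 : ℝ)) w) := by
    intro w
    rw [norm_div, div_eq_mul_inv]
    have n1 : 0 ≤ b.indicator (fun w : ℂ => ‖w‖⁻¹) w :=
      Set.indicator_nonneg (fun w _ => inv_nonneg.2 (norm_nonneg _)) w
    have n2 : 0 ≤ K.indicator (fun _ : ℂ => (1 : ℝ)) w :=
      Set.indicator_nonneg (fun w _ => zero_le_one) w
    by_cases hw : w ∈ b
    · rw [Set.indicator_of_mem hw]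
      calc ‖k (z - w)‖ * ‖w‖⁻¹ ≤ S * ‖w‖⁻¹ :=
            mul_le_mul_of_nonneg_right (hb _) (inv_nonneg.2 (norm_nonneg _))
        _ ≤ S * (‖w‖⁻¹ + K.indicator (fun _ : ℂ => (1 : ℝ)) w) :=
            mul_le_mul_of_nonneg_left (le_add_of_nonneg_right n2) hS
    · have hw1 : 1 ≤ ‖w‖ := by
        rw [hbdef, Metric.mem_ball, dist_zero_right] at hw
        exact not_lt.1 hw
      have hinv : ‖w‖⁻¹ ≤ 1 := inv_le_one_of_one_le₀ hw1
      by_cases hwK : w ∈ K
      · rw [Set.indicator_of_mem hwK]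
        calc ‖k (z - w)‖ * ‖w‖⁻¹ ≤ S * 1 :=
              mul_le_mul (hb _) hinv (inv_nonneg.2 (norm_nonneg _)) hS
          _ ≤ S * (b.indicator (fun w : ℂ => ‖w‖⁻¹) w + 1) :=
              mul_le_mul_of_nonneg_left (le_add_of_nonneg_left n1) hS
      · have : k (z - w) = 0 := by
          apply hsupp
          rw [hK, Metric.mem_closedBall, dist_comm, dist_eq_norm] at hwK
          exact not_le.1 hwK
        rw [this, norm_zero, zero_mul]
        exact mul_nonneg hS (add_nonneg n1 n2)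
  have hint : ‖∫ w : ℂ, k (z - w) / w‖ ≤ cauConst R * S := by
    refine (norm_integral_le_of_norm_le ((hi1.add hi2).const_mul S)
      (Filter.Eventually.of_forall hpt)).trans (le_of_eq ?_)
    rw [integral_const_mul, integral_add' hi1 hi2, integral_indicator hbm,
      integral_indicator hKm, setIntegral_const, smul_eq_mul, mul_one]
    unfold cauConst
    rw [measureReal_def, hK, Measure.addHaar_closedBall_center volume z R]
    ring
  calc ‖(1 / (Real.pi : ℂ))‖ * ‖∫ w : ℂ, k (z - w) / w‖ ≤ 1 * (cauConst R * S) :=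
        mul_le_mul hpi hint (norm_nonneg _) zero_le_one
    _ = cauConst R * S := one_mul _

/-- `σ_N = ∑_{n<N} λ^{n+1} C k_n`. -/
noncomputable def sig (μ : ℂ → ℂ) (l : ℂ) (N : ℕ) (z : ℂ) : ℂ :=
  ∑ n ∈ Finset.range N, l ^ (n + 1) * Cau (kseq μ n) z

theorem contDiff_sig {μ : ℂ → ℂ} (hμ : Test μ) (l : ℂ) (N : ℕ) :
    ContDiff ℝ (⊤ : ℕ∞) (sig μ l N) := by
  unfold sig
  exact ContDiff.sum fun n _ => contDiff_const.mul (contDiff_cau (test_kseq hμ n))

theorem dz_sum {ι : Type*} (s : Finset ι) (f : ι → ℂ → ℂ) (z : ℂ)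
    (hf : ∀ i ∈ s, DifferentiableAt ℝ (f i) z) :
    dz (fun w => ∑ i ∈ s, f i w) z = ∑ i ∈ s, dz (f i) z := by
  unfold dz
  rw [fderiv_fun_sum hf]
  simp only [_root_.sum_apply]
  rw [Finset.mul_sum, ← Finset.sum_sub_distrib, Finset.sum_div]

theorem dzb_sum {ι : Type*} (s : Finset ι) (f : ι → ℂ → ℂ) (z : ℂ)
    (hf : ∀ i ∈ s, DifferentiableAt ℝ (f i) z) :
    dzb (fun w => ∑ i ∈ s, f i w) z = ∑ i ∈ s, dzb (f i) z := by
  unfold dzb
  rw [fderiv_fun_sum hf]
  simp only [_root_.sum_apply]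
  rw [Finset.mul_sum, ← Finset.sum_add_distrib, Finset.sum_div]

theorem dz_sig {μ : ℂ → ℂ} (hμ : Test μ) (l : ℂ) (N : ℕ) (z : ℂ) :
    dz (sig μ l N) z = ∑ n ∈ Finset.range N, l ^ (n + 1) * Beu (kseq μ n) z := by
  have e : sig μ l N = fun z => ∑ n ∈ Finset.range N, l ^ (n + 1) * Cau (kseq μ n) z := rfl
  have hd : ∀ n, DifferentiableAt ℝ (Cau (kseq μ n)) z := fun n =>
    differentiable_cau (test_kseq hμ n) z
  rw [e, dz_sum (f := fun n z => l ^ (n + 1) * Cau (kseq μ n) z) _ z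
    (fun n _ => (hd n).const_mul _)]
  refine Finset.sum_congr rfl fun n _ => ?_
  rw [dz_const_mul _ (hd n), dz_cau (test_kseq hμ n)]

theorem dzb_sig (hC : ∀ k : ℂ → ℂ, Test k → Cau (dzb k) = k)
    {μ : ℂ → ℂ} (hμ : Test μ) (l : ℂ) (N : ℕ) (z : ℂ) :
    dzb (sig μ l N) z = ∑ n ∈ Finset.range N, l ^ (n + 1) * kseq μ n z := by
  have e : sig μ l N = fun z => ∑ n ∈ Finset.range N, l ^ (n + 1) * Cau (kseq μ n) z := rfl
  have hd : ∀ n, DifferentiableAt ℝ (Cau (kseq μ n)) z := fun n =>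
    differentiable_cau (test_kseq hμ n) z
  rw [e, dzb_sum (f := fun n z => l ^ (n + 1) * Cau (kseq μ n) z) _ z
    (fun n _ => (hd n).const_mul _)]
  refine Finset.sum_congr rfl fun n _ => ?_
  rw [dzb_const_mul _ (hd n), dzb_cau (test_kseq hμ n), hC _ (test_kseq hμ n)]

theorem dz_exp {s : ℂ → ℂ} {z : ℂ} (hs : DifferentiableAt ℝ s z) :
    dz (fun w => exp (s w)) z = exp (s z) * dz s z := by
  have h : HasFDerivAt (fun w => exp (s w)) (exp (s z) • fderiv ℝ s z) z :=
    hs.hasFDerivAt.cexp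
  unfold dz
  rw [h.fderiv]
  simp only [_root_.smul_apply, smul_eq_mul]
  ring

theorem dzb_exp {s : ℂ → ℂ} {z : ℂ} (hs : DifferentiableAt ℝ s z) :
    dzb (fun w => exp (s w)) z = exp (s z) * dzb s z := by
  have h : HasFDerivAt (fun w => exp (s w)) (exp (s z) • fderiv ℝ s z) z :=
    hs.hasFDerivAt.cexp
  unfold dzb
  rw [h.fderiv]
  simp only [_root_.smul_apply, smul_eq_mul]
  ring

/-- `Ψ = exp σ`. -/
noncomputable def Psi (μ : ℂ → ℂ) (l : ℂ) (N : ℕ) (z : ℂ) : ℂ := exp (sig μ l N z)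

theorem contDiff_Psi {μ : ℂ → ℂ} (hμ : Test μ) (l : ℂ) (N : ℕ) :
    ContDiff ℝ (⊤ : ℕ∞) (Psi μ l N) := (contDiff_sig hμ l N).cexp

theorem tendsto_sig (hdec : ∀ k : ℂ → ℂ, Test k → Tendsto (Cau k) (cocompact ℂ) (𝓝 0))
    {μ : ℂ → ℂ} (hμ : Test μ) (l : ℂ) (N : ℕ) :
    Tendsto (sig μ l N) (cocompact ℂ) (𝓝 0) := by
  have h : Tendsto (fun z => ∑ n ∈ Finset.range N, l ^ (n + 1) * Cau (kseq μ n) z)
      (cocompact ℂ) (𝓝 (∑ n ∈ Finset.range N, l ^ (n + 1) * 0)) :=
    tendsto_finsetSum _ fun n _ => (hdec _ (test_kseq hμ n)).const_mul _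
  have h0 : ∑ n ∈ Finset.range N, l ^ (n + 1) * (0 : ℂ) = 0 := by simp
  rw [h0] at h
  exact h

/-- The main identity `Ψ = 1 + λ T (μ Ψ) - λ^{N+1} C (k_N Ψ)`. -/
theorem Psi_eq (hC : ∀ k : ℂ → ℂ, Test k → Cau (dzb k) = k)
    (hdec : ∀ k : ℂ → ℂ, Test k → Tendsto (Cau k) (cocompact ℂ) (𝓝 0))
    {μ : ℂ → ℂ} (hμ : Test μ) (l : ℂ) (N : ℕ) (z : ℂ) :
    Psi μ l N z = 1 + l * Beu (fun w => μ w * Psi μ l N w) z -
      l ^ (N + 1) * Cau (fun w => kseq μ N w * Psi μ l N w) z := by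
  set P := Psi μ l N with hP
  have hPc : ContDiff ℝ (⊤ : ℕ∞) P := contDiff_Psi hμ l N
  have hPd : Differentiable ℝ P := hPc.differentiable (by simp)
  have hsd : Differentiable ℝ (sig μ l N) := (contDiff_sig hμ l N).differentiable (by simp)
  have hom : Test (fun w => μ w * P w) := hμ.mul_left hPc
  have hq : Test (fun w => kseq μ N w * P w) := (test_kseq hμ N).mul_left hPc
  have hdG : dzb (fun w => P w + -1) =
      fun w => l * dz (fun w => μ w * P w) w + -(l ^ (N + 1)) * (kseq μ N w * P w) := by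
    funext w
    have e1 : dzb (fun w => P w + -1) w = dzb P w := by
      unfold dzb
      rw [fderiv_add_const]
    have e2 : dzb P w = P w * ∑ n ∈ Finset.range N, l ^ (n + 1) * kseq μ n w := by
      rw [hP]
      have : dzb (Psi μ l N) w = exp (sig μ l N w) * dzb (sig μ l N) w := dzb_exp (hsd w)
      rw [this, dzb_sig hC hμ]
      rfl
    have e3 : dz P w = P w * ∑ n ∈ Finset.range N, l ^ (n + 1) * Beu (kseq μ n) w := by
      rw [hP]
      have : dz (Psi μ l N) w = exp (sig μ l N w) * dz (sig μ l N) w := dz_exp (hsd w)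
      rw [this, dz_sig hμ]
      rfl
    have e4 : μ w * ∑ n ∈ Finset.range N, l ^ (n + 1) * Beu (kseq μ n) w =
        ∑ n ∈ Finset.range N, l ^ (n + 1) * kseq μ (n + 1) w := by
      rw [Finset.mul_sum]
      refine Finset.sum_congr rfl fun n _ => ?_
      show _ = l ^ (n + 1) * (μ w * Beu (kseq μ n) w)
      ring
    have e5 : l * (∑ n ∈ Finset.range N, l ^ (n + 1) * kseq μ (n + 1) w + dz μ w) =
        ∑ n ∈ Finset.range (N + 1), l ^ (n + 1) * kseq μ n w := by
      rw [Finset.sum_range_succ', mul_add, Finset.mul_sum]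
      congr 1
      · refine Finset.sum_congr rfl fun n _ => ?_
        ring
      · show _ = l ^ (0 + 1) * dz μ w
        ring
    rw [Finset.sum_range_succ] at e5
    rw [e1, e2, dz_mul (hμ.differentiable w) (hPd w), e3]
    have e6 : μ w * (P w * ∑ n ∈ Finset.range N, l ^ (n + 1) * Beu (kseq μ n) w) + P w * dz μ w =
        P w * (∑ n ∈ Finset.range N, l ^ (n + 1) * kseq μ (n + 1) w + dz μ w) := by
      rw [← e4]; ring
    rw [e6]
    linear_combination (-(P w)) * e5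
  have hTG : Test (dzb (fun w => P w + -1)) := by
    rw [hdG]
    exact (hom.dz.const_mul l).add (hq.const_mul _)
  have hGt : Tendsto (fun w => P w + -1) (cocompact ℂ) (𝓝 0) := by
    have h1 : Tendsto P (cocompact ℂ) (𝓝 1) := by
      have h2 := (Complex.continuous_exp.tendsto 0).comp (tendsto_sig hdec hμ l N)
      rw [Complex.exp_zero] at h2
      exact h2
    have := h1.add_const (-1 : ℂ)
    simpa using this
  have h := congrFun (eq_cau_of_tendsto hC hdec (hPc.add contDiff_const) hTG hGt) z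
  rw [hdG, cau_add (hom.dz.const_mul l) (hq.const_mul _), cau_const_mul, cau_const_mul] at h
  unfold Beu
  simp only at h ⊢
  linear_combination h

end Pool.Agent.Lib.MP_9e2694_an
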