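import Mathlib
import Pool.Agent.Lib.MP_9e2694_an.Key3

/-!
The key estimate.
-/

set_option autoImplicit false

open MeasureTheory Complex Filter Topology
open scoped ENNReal

namespace Pool.Agent.Lib.MP_9e2694_an

theorem geom_zero {x : ℂ} {L : ℕ} (h1 : x ≠ 1) (hL : x ^ L = 1) :
    ∑ j ∈ Finset.range L, x ^ j = 0 := by
  have h := mul_geom_sum x L
  rw [hL, sub_self] at h
  exact (mul_eq_zero.1 h).resolve_left (sub_ne_zero.2 h1)

/-- Scalar Borel-Caratheodory inequality on roots of unity. -/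
theorem scalar_ineq {N : ℕ} (hN : 0 < N) (c : ℕ → ℂ) {ρ M0 : ℝ} (hρ : 0 < ρ) (e : ℕ → ℝ)
    (he : ∀ j, 0 ≤ e j) {ζ : ℂ} (hζ : IsPrimitiveRoot ζ (N + 2))
    (h : ∀ j < N + 2, (∑ n ∈ Finset.range N, ((ρ : ℂ) * ζ ^ j) ^ (n + 1) * c n).re ≤ M0 + e j) :
    ρ * ‖c 0‖ ≤ 2 * M0 + 4 / ((N : ℝ) + 2) * ∑ j ∈ Finset.range (N + 2), e j := by
  set L := N + 2 with hLdef
  set p : ℕ → ℂ := fun j => ∑ n ∈ Finset.range N, ((ρ : ℂ) * ζ ^ j) ^ (n + 1) * c n with hp
  set η : ℂ := (starRingEnd ℂ) ζ with hη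
  have hnorm : ‖ζ‖ = 1 := Complex.norm_eq_one_of_pow_eq_one hζ.pow_eq_one (by omega)
  have hηζ : η * ζ = 1 := by
    rw [hη, mul_comm, Complex.mul_conj, Complex.normSq_eq_norm_sq, hnorm]
    simp
  have hLpos : 0 < L := by omega
  have hpow1 : ∀ m : ℕ, 0 < m → m < L → ζ ^ m ≠ 1 := fun m hm hmL =>
    hζ.pow_ne_one_of_pos_of_lt hm.ne' hmL
  have hpowL : ∀ m : ℕ, (ζ ^ m) ^ L = 1 := by
    intro m
    rw [← pow_mul, mul_comm, pow_mul, hζ.pow_eq_one, one_pow]
  have hgeo : ∀ m : ℕ, 0 < m → m < L → ∑ j ∈ Finset.range L, (ζ ^ m) ^ j = 0 :=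
    fun m hm hmL => geom_zero (hpow1 m hm hmL) (hpowL m)
  -- (1)
  have s1 : ∑ j ∈ Finset.range L, p j = 0 := by
    simp only [hp]
    rw [Finset.sum_comm]
    refine Finset.sum_eq_zero fun n hn => ?_
    have hn' := Finset.mem_range.1 hn
    have : ∀ j ∈ Finset.range L, ((ρ : ℂ) * ζ ^ j) ^ (n + 1) * c n =
        (ρ : ℂ) ^ (n + 1) * c n * (ζ ^ (n + 1)) ^ j := by
      intro j _
      rw [mul_pow, ← pow_mul, ← pow_mul, mul_comm j (n + 1)]
      ring
    rw [Finset.sum_congr rfl this, ← Finset.mul_sum, hgeo (n + 1) (by omega) (by omega), mul_zero]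
  -- (2)
  have s2 : ∑ j ∈ Finset.range L, η ^ j * p j = (L : ℂ) * (ρ * c 0) := by
    simp only [hp, Finset.mul_sum]
    rw [Finset.sum_comm]
    have : ∀ n ∈ Finset.range N, ∑ j ∈ Finset.range L,
        η ^ j * (((ρ : ℂ) * ζ ^ j) ^ (n + 1) * c n) =
        (ρ : ℂ) ^ (n + 1) * c n * ∑ j ∈ Finset.range L, (ζ ^ n) ^ j := by
      intro n _
      rw [Finset.mul_sum]
      refine Finset.sum_congr rfl fun j _ => ?_
      have e1 : η ^ j * ζ ^ (j * (n + 1)) = (ζ ^ n) ^ j := by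
        have : ζ ^ (j * (n + 1)) = ζ ^ j * (ζ ^ n) ^ j := by
          rw [← pow_mul, ← pow_add]; congr 1; ring
        rw [this, ← mul_assoc, ← mul_pow, hηζ, one_pow, one_mul]
      rw [mul_pow, ← pow_mul, ← e1]
      ring
    rw [Finset.sum_congr rfl this, Finset.sum_eq_single_of_mem 0 (Finset.mem_range.2 hN)]
    · simp
      ring
    · intro n hn hn0
      rw [hgeo n (Nat.pos_of_ne_zero hn0) (by have := Finset.mem_range.1 hn; omega), mul_zero]
  -- (3)
  have s3 : ∑ j ∈ Finset.range L, ζ ^ j * p j = 0 := by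
    simp only [hp, Finset.mul_sum]
    rw [Finset.sum_comm]
    refine Finset.sum_eq_zero fun n hn => ?_
    have hn' := Finset.mem_range.1 hn
    have : ∀ j ∈ Finset.range L, ζ ^ j * (((ρ : ℂ) * ζ ^ j) ^ (n + 1) * c n) =
        (ρ : ℂ) ^ (n + 1) * c n * (ζ ^ (n + 2)) ^ j := by
      intro j _
      have e1 : ζ ^ j * ζ ^ (j * (n + 1)) = (ζ ^ (n + 2)) ^ j := by
        rw [← pow_mul, ← pow_add]; congr 1; ring
      rw [mul_pow, ← pow_mul, ← e1]
      ring
    rw [Finset.sum_congr rfl this, ← Finset.mul_sum, hgeo (n + 2) (by omega) (by omega), mul_zero]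
  have s3' : ∑ j ∈ Finset.range L, η ^ j * (starRingEnd ℂ) (p j) = 0 := by
    have h := congrArg (starRingEnd ℂ) s3
    rw [map_sum, map_zero] at h
    rw [← h]
    refine Finset.sum_congr rfl fun j _ => ?_
    rw [map_mul, map_pow]
  have s4 : ∑ j ∈ Finset.range L, η ^ j = 0 := by
    have h0 : ∑ j ∈ Finset.range L, ζ ^ j = 0 := by
      have := hgeo 1 one_pos (by omega)
      simpa using this
    have h := congrArg (starRingEnd ℂ) h0
    rw [map_sum, map_zero] at h
    rw [← h]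
    refine Finset.sum_congr rfl fun j _ => ?_
    rw [map_pow]
  have s5 : (L : ℂ) * (ρ * c 0) =
      2 * ∑ j ∈ Finset.range L, η ^ j * (((p j).re - M0 : ℝ) : ℂ) := by
    have : ∀ j ∈ Finset.range L, η ^ j * (((p j).re - M0 : ℝ) : ℂ) =
        (1 / 2) * (η ^ j * p j) + (1 / 2) * (η ^ j * (starRingEnd ℂ) (p j)) - M0 * η ^ j := by
      intro j _
      have h1 : ((p j).re : ℂ) = (p j + (starRingEnd ℂ) (p j)) / 2 := by
        rw [Complex.re_eq_add_conj]
      rw [Complex.ofReal_sub, h1]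
      ring
    rw [Finset.sum_congr rfl this, Finset.sum_sub_distrib, Finset.sum_add_distrib,
      ← Finset.mul_sum, ← Finset.mul_sum, ← Finset.mul_sum, s2, s3', s4]
    ring
  have hre : ∑ j ∈ Finset.range L, (p j).re = 0 := by
    have := congrArg Complex.re s1
    rw [Complex.re_sum, Complex.zero_re] at this
    exact this
  have hηn : ∀ j, ‖η ^ j‖ = 1 := by
    intro j
    rw [norm_pow, hη, Complex.norm_conj, hnorm, one_pow]
  have s6 : (L : ℝ) * (ρ * ‖c 0‖) ≤ 2 * ∑ j ∈ Finset.range L, |(p j).re - M0| := by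
    have h1 : ‖(L : ℂ) * (ρ * c 0)‖ = (L : ℝ) * (ρ * ‖c 0‖) := by
      rw [norm_mul, norm_mul, Complex.norm_natCast, Complex.norm_real, Real.norm_eq_abs,
        abs_of_pos hρ]
    rw [← h1, s5, norm_mul, Complex.norm_ofNat]
    refine mul_le_mul_of_nonneg_left ?_ (by norm_num)
    refine (norm_sum_le _ _).trans (Finset.sum_le_sum fun j _ => ?_)
    rw [norm_mul, hηn, one_mul, Complex.norm_real, Real.norm_eq_abs]
  have s7 : ∑ j ∈ Finset.range L, |(p j).re - M0| ≤
      (L : ℝ) * M0 + 2 * ∑ j ∈ Finset.range L, e j := by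
    have h1 : ∀ j ∈ Finset.range L, |(p j).re - M0| ≤ (M0 + 2 * e j) - (p j).re := by
      intro j hj
      have := h j (Finset.mem_range.1 hj)
      have hej := he j
      rw [abs_le]
      constructor <;> linarith
    refine (Finset.sum_le_sum h1).trans (le_of_eq ?_)
    rw [Finset.sum_sub_distrib, hre, sub_zero, Finset.sum_add_distrib, Finset.sum_const,
      Finset.card_range, nsmul_eq_mul, Finset.mul_sum]
  have hL0 : (0 : ℝ) < L := by exact_mod_cast hLpos
  have hL2 : (N : ℝ) + 2 = L := by rw [hLdef]; push_cast; ring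
  rw [hL2]
  have s8 : (L : ℝ) * (ρ * ‖c 0‖) ≤
      (L : ℝ) * (2 * M0 + 4 / (L : ℝ) * ∑ j ∈ Finset.range L, e j) := by
    refine s6.trans ?_
    have : (L : ℝ) * (2 * M0 + 4 / (L : ℝ) * ∑ j ∈ Finset.range L, e j) =
        2 * ((L : ℝ) * M0 + 2 * ∑ j ∈ Finset.range L, e j) := by
      field_simp
      ring
    rw [this]
    linarith
  exact le_of_mul_le_mul_left s8 hL0

theorem beu_sub {f g : ℂ → ℂ} (hf : Test f) (hg : Test g) :
    Beu (fun z => f z - g z) = fun z => Beu f z - Beu g z := by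
  have h : (fun z => f z - g z) = fun z => f z + (-1) * g z := by funext z; ring
  rw [h, beu_add hf (hg.const_mul (-1)), beu_const_mul (-1) hg]
  funext z
  ring

theorem test_zero : Test (fun _ => (0 : ℂ)) := ⟨contDiff_const, HasCompactSupport.zero⟩

theorem test_sum (s : Finset ℕ) (f : ℕ → ℂ → ℂ) (hf : ∀ n, Test (f n)) :
    Test (fun z => ∑ n ∈ s, f n z) := by
  classical
  induction s using Finset.induction_on with
  | empty => simpa using test_zero
  | insert a s ha ih =>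
    have : (fun z => ∑ n ∈ insert a s, f n z) = fun z => f a z + ∑ n ∈ s, f n z := by
      funext z; rw [Finset.sum_insert ha]
    rw [this]
    exact (hf a).add ih

theorem beu_zero : Beu (fun _ => (0 : ℂ)) = fun _ => 0 := by
  have h := beu_const_mul (0 : ℂ) test_zero
  simpa using h

theorem beu_sum (s : Finset ℕ) (f : ℕ → ℂ → ℂ) (hf : ∀ n, Test (f n)) :
    Beu (fun z => ∑ n ∈ s, f n z) = fun z => ∑ n ∈ s, Beu (f n) z := by
  classical
  induction s using Finset.induction_on with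
  | empty => simpa using beu_zero
  | insert a s ha ih =>
    have : (fun z => ∑ n ∈ insert a s, f n z) = fun z => f a z + ∑ n ∈ s, f n z := by
      funext z; rw [Finset.sum_insert ha]
    rw [this, beu_add (hf a) (test_sum s f hf), ih]
    funext z
    rw [Finset.sum_insert ha]

/-- The error function `w = μ Ψ - ∑_{n<N} λ^n u_n`. -/
noncomputable def wfun (μ : ℂ → ℂ) (l : ℂ) (N : ℕ) (z : ℂ) : ℂ :=
  μ z * Psi μ l N z - ∑ n ∈ Finset.range N, l ^ n * useq μ n z

theorem test_wfun {μ : ℂ → ℂ} (hμ : Test μ) (l : ℂ) (N : ℕ) : Test (wfun μ l N) :=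
  (hμ.mul_left (contDiff_Psi hμ l N)).sub
    (test_sum _ (fun n z => l ^ n * useq μ n z) fun n => (test_useq hμ n).const_mul _)

theorem Psi_sub (hC : ∀ k : ℂ → ℂ, Test k → Cau (dzb k) = k)
    (hdec : ∀ k : ℂ → ℂ, Test k → Tendsto (Cau k) (cocompact ℂ) (𝓝 0))
    {μ : ℂ → ℂ} (hμ : Test μ) (l : ℂ) (N : ℕ) (z : ℂ) :
    Psi μ l N z = (1 + ∑ n ∈ Finset.range N, l ^ (n + 1) * Beu (useq μ n) z) +
      l * Beu (wfun μ l N) z - l ^ (N + 1) * Cau (fun w => kseq μ N w * Psi μ l N w) z := by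
  have h := Psi_eq hC hdec hμ l N z
  have hb : Beu (wfun μ l N) z = Beu (fun w => μ w * Psi μ l N w) z -
      ∑ n ∈ Finset.range N, l ^ n * Beu (useq μ n) z := by
    have e1 := congrFun (beu_sub (hμ.mul_left (contDiff_Psi hμ l N))
      (test_sum (Finset.range N) (fun n z => l ^ n * useq μ n z)
        fun n => (test_useq hμ n).const_mul _)) z
    have e2 := congrFun (beu_sum (Finset.range N) (fun n z => l ^ n * useq μ n z)
        fun n => (test_useq hμ n).const_mul _) z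
    have e3 : wfun μ l N = fun z => μ z * Psi μ l N z -
      ∑ n ∈ Finset.range N, l ^ n * useq μ n z := rfl
    rw [e3, e1, e2]
    congr 1
    refine Finset.sum_congr rfl fun n _ => ?_
    exact congrFun (beu_const_mul (l ^ n) (test_useq hμ n)) z
  have hs : l * ∑ n ∈ Finset.range N, l ^ n * Beu (useq μ n) z =
      ∑ n ∈ Finset.range N, l ^ (n + 1) * Beu (useq μ n) z := by
    rw [Finset.mul_sum]
    refine Finset.sum_congr rfl fun n _ => ?_
    ring
  rw [h, hb, mul_sub, hs]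
  ring

theorem wfun_eq (hC : ∀ k : ℂ → ℂ, Test k → Cau (dzb k) = k)
    (hdec : ∀ k : ℂ → ℂ, Test k → Tendsto (Cau k) (cocompact ℂ) (𝓝 0))
    {μ : ℂ → ℂ} (hμ : Test μ) (l : ℂ) (N : ℕ) (z : ℂ) :
    wfun μ l N z = μ z * (l * Beu (wfun μ l N) z) +
      (μ z * (-(l ^ (N + 1) * Cau (fun w => kseq μ N w * Psi μ l N w) z)) +
      l ^ N * useq μ N z) := by
  have h := Psi_sub hC hdec hμ l N z
  have h1 : μ z * (1 + ∑ n ∈ Finset.range N, l ^ (n + 1) * Beu (useq μ n) z) =
      ∑ n ∈ Finset.range (N + 1), l ^ n * useq μ n z := by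
    rw [Finset.sum_range_succ', mul_add, Finset.mul_sum, add_comm]
    congr 1
    · refine Finset.sum_congr rfl fun n _ => ?_
      show _ = l ^ (n + 1) * (μ z * Beu (useq μ n) z)
      ring
    · show _ = l ^ 0 * μ z
      ring
  rw [Finset.sum_range_succ] at h1
  have h2 : wfun μ l N z = μ z * Psi μ l N z - ∑ n ∈ Finset.range N, l ^ n * useq μ n z := rfl
  conv_lhs => rw [h2, h]
  linear_combination h1

end Pool.Agent.Lib.MP_9e2694_an
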