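import Pool.Agent.Lib.MP_9e2694_an.UpperA

/-!
The layer inequality (1) of the upper bound (MP_9e2694_an).
-/

set_option autoImplicit false

open MeasureTheory Complex Filter Topology Set
open scoped ContDiff ENNReal

namespace Pool.Agent.Lib.MP_9e2694_an

/-- The key estimate, as a proposition. -/
def KeyEst : Prop :=
  ∀ ρ : ℝ, 0 < ρ → ρ < 1 → ∀ μ : ℂ → ℂ, Test μ → (∀ z, ‖μ z‖ ≤ 1) →
    ∀ F : Set ℂ, MeasurableSet F → volume F ≠ 0 → volume F ≠ ⊤ →
      ∫ x in F, ‖Beu μ x‖ ≤ 2 * (volume F).toReal / ρ *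
        Real.log (1 + ρ / (1 - ρ) * (eLpNorm μ 2 volume).toReal /
          Real.sqrt (volume F).toReal)

namespace Upper

theorem integrableOn_norm_beu
    (hcont : ∀ f : ℂ → ℂ, Test f → Continuous (Beu f))
    (hbdd : ∀ f : ℂ → ℂ, Test f → ∃ C, ∀ z, ‖Beu f z‖ ≤ C)
    {f : ℂ → ℂ} (hf : Test f) {F : Set ℂ} (hF : volume F ≠ ⊤) :
    IntegrableOn (fun x => ‖Beu f x‖) F := by
  obtain ⟨C, hC⟩ := hbdd f hf
  refine Measure.integrableOn_of_bounded hF (hcont f hf).norm.aestronglyMeasurable (M := C) ?_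
  filter_upwards with x
  rw [norm_norm]
  exact hC x

theorem memLp_beu
    (hcont : ∀ f : ℂ → ℂ, Test f → Continuous (Beu f))
    (hL2 : ∀ f : ℂ → ℂ, Test f → eLpNorm (Beu f) 2 volume ≤ eLpNorm f 2 volume)
    {f : ℂ → ℂ} (hf : Test f) : MemLp (Beu f) 2 volume :=
  ⟨(hcont f hf).aestronglyMeasurable,
    (hL2 f hf).trans_lt (hf.continuous.memLp_of_hasCompactSupport hf.2).2⟩

theorem volume_lt_top
    (hcont : ∀ f : ℂ → ℂ, Test f → Continuous (Beu f))
    (hL2 : ∀ f : ℂ → ℂ, Test f → eLpNorm (Beu f) 2 volume ≤ eLpNorm f 2 volume)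
    {f : ℂ → ℂ} (hf : Test f) {s : ℝ} (hs : 0 < s) :
    volume {x | s < ‖Beu f x‖} < ⊤ := by
  have h := (memLp_beu hcont hL2 hf).meas_ge_lt_top two_ne_zero ENNReal.ofNat_ne_top
    (ε := s.toNNReal) (Real.toNNReal_pos.2 hs).ne'
  refine (measure_mono ?_).trans_lt h
  intro x hx
  have hx' : s < ‖Beu f x‖ := hx
  have : s.toNNReal ≤ ‖Beu f x‖₊ := Real.toNNReal_le_iff_le_coe.2 (by
    rw [coe_nnnorm]
    exact hx'.le)
  exact this

theorem volume_g_lt_top {g : ℂ → ℂ} (hg : Test g) {l : ℝ} (hl : 0 ≤ l) :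
    volume {x | l < ‖g x‖} < ⊤ := by
  refine (measure_mono ?_).trans_lt hg.2.isCompact.measure_lt_top
  intro x hx
  refine subset_tsupport g ?_
  rw [Function.mem_support]
  intro h0
  have hx' : l < ‖g x‖ := hx
  rw [h0, norm_zero] at hx'
  linarith

theorem eLpNorm_two_le_of_indicator {f : ℂ → ℂ} {S : Set ℂ} (hS : MeasurableSet S)
    (hSt : volume S ≠ ⊤) {M : ℝ} (hM : 0 ≤ M) (h1 : ∀ x, ‖f x‖ ≤ M) (h0 : ∀ x, x ∉ S → f x = 0) :
    eLpNorm f 2 volume ≤ ENNReal.ofReal (M * Real.sqrt (volume S).toReal) := by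
  have h2 : eLpNorm f 2 volume ≤ eLpNorm (S.indicator fun _ => M) 2 volume := by
    refine eLpNorm_mono_real fun x => ?_
    by_cases hx : x ∈ S
    · rw [indicator_of_mem hx]
      exact h1 x
    · rw [indicator_of_notMem hx, h0 x hx, norm_zero]
  rw [eLpNorm_indicator_const hS two_ne_zero ENNReal.ofNat_ne_top] at h2
  refine h2.trans (le_of_eq ?_)
  rw [ENNReal.ofReal_mul hM, Real.enorm_of_nonneg hM]
  congr 1
  rw [Real.sqrt_eq_rpow, ENNReal.toReal_rpow, ENNReal.ofReal_toReal]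
  · norm_num
  · exact ENNReal.rpow_ne_top_of_nonneg (by norm_num) hSt

/-- Left Riemann sums of an antitone function are below the integral. -/
theorem sum_le_lintegral {G : ℝ → ℝ} (hG : AntitoneOn G (Ioi 0)) (hG0 : ∀ l, 0 ≤ G l)
    {δ : ℝ} (hδ : 0 < δ) (J : ℕ) :
    ENNReal.ofReal (∑ j ∈ Finset.range J, δ * G (((j : ℝ) + 1) * δ)) ≤
      ∫⁻ l in Ioc 0 (J * δ), ENNReal.ofReal (G l) := by
  induction J with
  | zero => simp
  | succ J ih =>
    have hJ : (0 : ℝ) ≤ J := Nat.cast_nonneg J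
    have h0 : 0 ≤ (J : ℝ) * δ := by positivity
    have h1 : (J : ℝ) * δ ≤ ((J + 1 : ℕ) : ℝ) * δ := by
      push_cast
      nlinarith
    rw [Finset.sum_range_succ, ← Ioc_union_Ioc_eq_Ioc h0 h1,
      lintegral_union measurableSet_Ioc (Ioc_disjoint_Ioc_of_le le_rfl),
      ENNReal.ofReal_add (Finset.sum_nonneg fun j _ => mul_nonneg hδ.le (hG0 _))
        (mul_nonneg hδ.le (hG0 _))]
    refine add_le_add ih ?_
    calc ENNReal.ofReal (δ * G (((J : ℝ) + 1) * δ))
        = ∫⁻ _ in Ioc ((J : ℝ) * δ) (((J + 1 : ℕ) : ℝ) * δ),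
            ENNReal.ofReal (G (((J : ℝ) + 1) * δ)) := by
          rw [lintegral_const, Measure.restrict_apply_univ, Real.volume_Ioc, mul_comm δ,
            ENNReal.ofReal_mul (hG0 _)]
          congr 2
          push_cast
          ring
      _ ≤ _ := by
          refine setLIntegral_mono' measurableSet_Ioc fun l hl => ?_
          refine ENNReal.ofReal_le_ofReal (hG ?_ ?_ ?_)
          · exact lt_of_le_of_lt h0 hl.1
          · show 0 < ((J : ℝ) + 1) * δ
            positivity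
          · have := hl.2
            push_cast at this
            exact this

theorem layer_aux
    (hadd : ∀ f g : ℂ → ℂ, Test f → Test g →
      Beu (fun z => f z + g z) = fun z => Beu f z + Beu g z)
    (hmul : ∀ (c : ℂ) (f : ℂ → ℂ), Test f → Beu (fun z => c * f z) = fun z => c * Beu f z)
    (hcont : ∀ f : ℂ → ℂ, Test f → Continuous (Beu f))
    (hbdd : ∀ f : ℂ → ℂ, Test f → ∃ C, ∀ z, ‖Beu f z‖ ≤ C)
    (hL2 : ∀ f : ℂ → ℂ, Test f → eLpNorm (Beu f) 2 volume ≤ eLpNorm f 2 volume)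
    (hK : KeyEst) {g : ℂ → ℂ} (hg : Test g) {ρ : ℝ} (hρ : 0 < ρ) (hρ1 : ρ < 1)
    {s : ℝ} (hs : 0 < s) (hF0 : volume {x | s < ‖Beu g x‖} ≠ 0) {δ : ℝ} (hδ : 0 < δ)
    {J : ℕ} (hJ : ∀ x, ‖g x‖ ≤ J * δ) :
    ρ * s * (volume {x | s < ‖Beu g x‖}).toReal ≤
      (∑ j ∈ Finset.range J, δ * (2 * (volume {x | s < ‖Beu g x‖}).toReal *
        Real.log (1 + ρ / (1 - ρ) *
          Real.sqrt (volume {x | ((j : ℝ) + 1) * δ < ‖g x‖}).toReal /
          Real.sqrt (volume {x | s < ‖Beu g x‖}).toReal))) +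
      ρ * (2 * δ * Real.sqrt (volume {x | 0 < ‖g x‖}).toReal *
        Real.sqrt (volume {x | s < ‖Beu g x‖}).toReal) := by
  set F : Set ℂ := {x | s < ‖Beu g x‖} with hF
  have hFm : MeasurableSet F := measurableSet_lt measurable_const (hcont g hg).norm.measurable
  have hFt : volume F ≠ ⊤ := (volume_lt_top hcont hL2 hg hs).ne
  set b := (volume F).toReal with hb
  have hb0 : 0 < b := ENNReal.toReal_pos hF0 hFt
  have h1ρ : 0 < 1 - ρ := by linarith
  set e : ℂ → ℂ := fun z => g z - ∑ j ∈ Finset.range J, (δ : ℂ) * eta δ j (g z) with he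
  have hte : Test e := hg.sub (test_sum hg hδ J)
  -- lower bound
  have hlow : s * b ≤ ∫ x in F, ‖Beu g x‖ := by
    have h := setIntegral_mono_on (μ := volume) (s := F) (f := fun _ => s)
      (g := fun x => ‖Beu g x‖) (integrableOn_const hFt)
      (integrableOn_norm_beu hcont hbdd hg hFt) hFm (fun x hx => le_of_lt hx)
    rw [setIntegral_const, smul_eq_mul, mul_comm] at h
    exact h
  -- decomposition
  have hint1 : ∀ j ∈ Finset.range J,
      Integrable (fun x => δ * ‖Beu (fun z => eta δ j (g z)) x‖) (volume.restrict F) :=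
    fun j _ => (integrableOn_norm_beu hcont hbdd (test_eta hg hδ j) hFt).const_mul δ
  have hdec : ∫ x in F, ‖Beu g x‖ ≤
      (∑ j ∈ Finset.range J, δ * ∫ x in F, ‖Beu (fun z => eta δ j (g z)) x‖) +
        ∫ x in F, ‖Beu e x‖ := by
    calc ∫ x in F, ‖Beu g x‖ ≤ ∫ x in F, ((∑ j ∈ Finset.range J,
            δ * ‖Beu (fun z => eta δ j (g z)) x‖) + ‖Beu e x‖) := by
          refine integral_mono (integrableOn_norm_beu hcont hbdd hg hFt)
            ((integrable_finsetSum _ hint1).add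
              (integrableOn_norm_beu hcont hbdd hte hFt)) fun x => ?_
          exact beu_decomp hadd hmul hg hδ J x
      _ = _ := by
          rw [integral_add (integrable_finsetSum _ hint1)
            (integrableOn_norm_beu hcont hbdd hte hFt), integral_finsetSum _ hint1]
          congr 1
          refine Finset.sum_congr rfl fun j _ => ?_
          rw [integral_const_mul]
  -- pieces
  have hpiece : ∀ j ∈ Finset.range J, ∫ x in F, ‖Beu (fun z => eta δ j (g z)) x‖ ≤
      2 * b / ρ * Real.log (1 + ρ / (1 - ρ) *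
          Real.sqrt (volume {x | ((j : ℝ) + 1) * δ < ‖g x‖}).toReal / Real.sqrt b) := by
    intro j _
    have hjδ : 0 ≤ ((j : ℝ) + 1) * δ := by positivity
    have h := hK ρ hρ hρ1 _ (test_eta hg hδ j) (fun z => norm_eta_le δ j (g z)) F hFm hF0 hFt
    refine h.trans ?_
    have hSm : MeasurableSet {x | ((j : ℝ) + 1) * δ < ‖g x‖} :=
      measurableSet_lt measurable_const hg.continuous.norm.measurable
    have h2 := eLpNorm_two_le_of_indicator (f := fun z => eta δ j (g z)) hSm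
      (volume_g_lt_top hg hjδ).ne zero_le_one (fun x => norm_eta_le δ j (g x))
      (fun x hx => eta_eq_zero hδ (not_lt.1 hx))
    rw [one_mul] at h2
    have h3 := ENNReal.toReal_le_of_le_ofReal (Real.sqrt_nonneg _) h2
    have hc : 0 ≤ ρ / (1 - ρ) := by positivity
    refine mul_le_mul_of_nonneg_left (Real.log_le_log (by positivity) ?_) (by positivity)
    gcongr
  -- error term
  have herr : ∫ x in F, ‖Beu e x‖ ≤
      2 * δ * Real.sqrt (volume {x | 0 < ‖g x‖}).toReal * Real.sqrt b := by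
    have h0m : MeasurableSet {x | 0 < ‖g x‖} :=
      measurableSet_lt measurable_const hg.continuous.norm.measurable
    have h2 := eLpNorm_two_le_of_indicator (f := e) h0m
      (volume_g_lt_top hg le_rfl).ne (M := 2 * δ) (by positivity)
      (fun x => norm_sub_sum_le hδ J (hJ x))
      (fun x hx => by
        have hx0 : g x = 0 := by
          by_contra hne
          exact hx (norm_pos_iff.2 hne)
        simp [he, hx0, eta_zero])
    have h3 : eLpNorm (Beu e) 1 (volume.restrict F) ≤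
        ENNReal.ofReal (2 * δ * Real.sqrt (volume {x | 0 < ‖g x‖}).toReal) *
          ENNReal.ofReal (Real.sqrt b) := by
      refine (eLpNorm_le_eLpNorm_mul_rpow_measure_univ (p := 1) (q := 2) (by norm_num)
        (hcont e hte).aestronglyMeasurable).trans ?_
      refine mul_le_mul' ?_ ?_
      · exact (eLpNorm_restrict_le _ _ _ _).trans ((hL2 e hte).trans h2)
      · rw [Measure.restrict_apply_univ, Real.sqrt_eq_rpow, hb, ENNReal.toReal_rpow,
          ENNReal.ofReal_toReal (ENNReal.rpow_ne_top_of_nonneg (by norm_num) hFt)]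
        norm_num
    rw [← ENNReal.ofReal_mul (by positivity), eLpNorm_one_eq_lintegral_enorm] at h3
    rw [integral_norm_eq_lintegral_enorm (hcont e hte).aestronglyMeasurable]
    exact ENNReal.toReal_le_of_le_ofReal (by positivity) h3
  have hsum : ∑ j ∈ Finset.range J, δ * ∫ x in F, ‖Beu (fun z => eta δ j (g z)) x‖ ≤
      ∑ j ∈ Finset.range J, δ * (2 * b / ρ * Real.log (1 + ρ / (1 - ρ) *
          Real.sqrt (volume {x | ((j : ℝ) + 1) * δ < ‖g x‖}).toReal / Real.sqrt b)) :=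
    Finset.sum_le_sum fun j hj => mul_le_mul_of_nonneg_left (hpiece j hj) hδ.le
  have htot : s * b ≤ (∑ j ∈ Finset.range J, δ * (2 * b / ρ * Real.log (1 + ρ / (1 - ρ) *
          Real.sqrt (volume {x | ((j : ℝ) + 1) * δ < ‖g x‖}).toReal / Real.sqrt b))) +
      2 * δ * Real.sqrt (volume {x | 0 < ‖g x‖}).toReal * Real.sqrt b :=
    hlow.trans (hdec.trans (add_le_add hsum herr))
  have hfin := mul_le_mul_of_nonneg_left htot hρ.le
  calc ρ * s * b = ρ * (s * b) := by ring
    _ ≤ _ := hfin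
    _ = _ := by
      rw [mul_add, Finset.mul_sum]
      congr 1
      refine Finset.sum_congr rfl fun j _ => ?_
      field_simp

/-- Inequality (1). -/
theorem layer
    (hadd : ∀ f g : ℂ → ℂ, Test f → Test g →
      Beu (fun z => f z + g z) = fun z => Beu f z + Beu g z)
    (hmul : ∀ (c : ℂ) (f : ℂ → ℂ), Test f → Beu (fun z => c * f z) = fun z => c * Beu f z)
    (hcont : ∀ f : ℂ → ℂ, Test f → Continuous (Beu f))
    (hbdd : ∀ f : ℂ → ℂ, Test f → ∃ C, ∀ z, ‖Beu f z‖ ≤ C)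
    (hL2 : ∀ f : ℂ → ℂ, Test f → eLpNorm (Beu f) 2 volume ≤ eLpNorm f 2 volume)
    (hK : KeyEst) {g : ℂ → ℂ} (hg : Test g) {ρ : ℝ} (hρ : 0 < ρ) (hρ1 : ρ < 1)
    {s : ℝ} (hs : 0 < s) (hF0 : volume {x | s < ‖Beu g x‖} ≠ 0) :
    ENNReal.ofReal (ρ * s * (volume {x | s < ‖Beu g x‖}).toReal) ≤
      ∫⁻ l in Ioi (0 : ℝ), ENNReal.ofReal (2 * (volume {x | s < ‖Beu g x‖}).toReal *
        Real.log (1 + ρ / (1 - ρ) *
          Real.sqrt (volume {x | l < ‖g x‖}).toReal /
          Real.sqrt (volume {x | s < ‖Beu g x‖}).toReal)) := by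
  have hFt : volume {x | s < ‖Beu g x‖} ≠ ⊤ := (volume_lt_top hcont hL2 hg hs).ne
  set b := (volume {x | s < ‖Beu g x‖}).toReal with hb
  have hb0 : 0 < b := ENNReal.toReal_pos hF0 hFt
  have h1ρ : 0 < 1 - ρ := by linarith
  have hc : 0 ≤ ρ / (1 - ρ) := by positivity
  set G : ℝ → ℝ := fun l => 2 * b * Real.log (1 + ρ / (1 - ρ) *
          Real.sqrt (volume {x | l < ‖g x‖}).toReal / Real.sqrt b) with hG
  have hG0 : ∀ l, 0 ≤ G l := by
    intro l
    refine mul_nonneg (by positivity) (Real.log_nonneg ?_)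
    have : 0 ≤ ρ / (1 - ρ) * Real.sqrt (volume {x | l < ‖g x‖}).toReal / Real.sqrt b := by
      positivity
    linarith
  have hGa : AntitoneOn G (Ioi 0) := by
    intro l hl l' hl' hll
    have hm : (volume {x | l' < ‖g x‖}).toReal ≤ (volume {x | l < ‖g x‖}).toReal := by
      refine ENNReal.toReal_mono (volume_g_lt_top hg (le_of_lt hl)).ne (measure_mono ?_)
      intro x hx
      exact lt_of_le_of_lt hll hx
    refine mul_le_mul_of_nonneg_left (Real.log_le_log (by positivity) ?_) (by positivity)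
    gcongr
  set q := ρ * (2 * Real.sqrt (volume {x | 0 < ‖g x‖}).toReal * Real.sqrt b) with hq
  have hq0 : 0 ≤ q := by positivity
  obtain ⟨R, hR⟩ := hg.2.exists_bound_of_continuous hg.continuous
  refine ENNReal.le_of_forall_pos_le_add fun ε hε _ => ?_
  have hδ : 0 < (ε : ℝ) / (q + 1) := by positivity
  set δ := (ε : ℝ) / (q + 1) with hδd
  obtain ⟨J, hJ⟩ := exists_nat_ge (R / δ)
  have hJ' : ∀ x, ‖g x‖ ≤ J * δ := fun x => (hR x).trans (by rwa [div_le_iff₀ hδ] at hJ)
  have h := layer_aux hadd hmul hcont hbdd hL2 hK hg hρ hρ1 hs hF0 hδ hJ'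
  rw [← hb] at h
  have hqδ : ρ * (2 * δ * Real.sqrt (volume {x | 0 < ‖g x‖}).toReal * Real.sqrt b) ≤ ε := by
    have e1 : ρ * (2 * δ * Real.sqrt (volume {x | 0 < ‖g x‖}).toReal * Real.sqrt b) =
        δ * q := by
      rw [hq]
      ring
    rw [e1, hδd, div_mul_eq_mul_div, div_le_iff₀ (by positivity)]
    nlinarith [ε.coe_nonneg]
  have h2 : ρ * s * b ≤ (∑ j ∈ Finset.range J, δ * G (((j : ℝ) + 1) * δ)) + ε :=
    h.trans (add_le_add_right hqδ _)
  refine (ENNReal.ofReal_le_ofReal h2).trans ?_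
  rw [ENNReal.ofReal_add (Finset.sum_nonneg fun j _ => mul_nonneg hδ.le (hG0 _)) ε.coe_nonneg,
    ENNReal.ofReal_coe_nnreal]
  refine add_le_add_left ?_ _
  refine (sum_le_lintegral hGa hG0 hδ J).trans ?_
  exact lintegral_mono_set Ioc_subset_Ioi_self

end Upper

end Pool.Agent.Lib.MP_9e2694_an
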