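import Mathlib
import Pool.Agent.Lib.MP_9e2694_an.Key4
import Pool.Agent.Lib.MP_9e2694_an.CauPV
import Pool.Agent.Lib.MP_9e2694_an.CauL2
import Pool.Agent.Lib.MP_9e2694_an.UpperB

/-!
The key estimate, final part.
-/

set_option autoImplicit false

open MeasureTheory Complex Filter Topology
open scoped ENNReal

namespace Pool.Agent.Lib.MP_9e2694_an

theorem hC0 : ∀ k : ℂ → ℂ, Test k → Cau (dzb k) = k := fun _ hk => cau_dzb hk

theorem hL20 : ∀ k : ℂ → ℂ, Test k → eLpNorm (Beu k) 2 volume ≤ eLpNorm k 2 volume :=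
  fun _ hk => eLpNorm_beu_le hk (cau_dzb hk)

theorem hdec0 : ∀ k : ℂ → ℂ, Test k → Tendsto (Cau k) (cocompact ℂ) (𝓝 0) := by
  intro k hk
  obtain ⟨C, hC0, hC⟩ := cau_bound hk
  rw [tendsto_zero_iff_norm_tendsto_zero]
  refine squeeze_zero (fun z => norm_nonneg _) hC ?_
  have h1 : Tendsto (fun z : ℂ => 1 + ‖z‖) (cocompact ℂ) atTop :=
    tendsto_atTop_add_const_left _ _ (tendsto_norm_cocompact_atTop (E := ℂ))
  exact h1.const_div_atTop C

/-- Uniform smallness of the remainder. -/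
theorem exists_rem_bound {μ : ℂ → ℂ} (hμ : Test μ) (h1 : ∀ z, ‖μ z‖ ≤ 1)
    {ρ : ℝ} (hρ0 : 0 < ρ) (hρ1 : ρ < 1) :
    ∃ r : ℕ → ℝ, (∀ N, 0 ≤ r N) ∧ Tendsto r atTop (𝓝 0) ∧
      ∀ l : ℂ, ‖l‖ = ρ → ∀ N z,
        ‖l ^ (N + 1) * Cau (fun w => kseq μ N w * Psi μ l N w) z‖ ≤ r N := by
  obtain ⟨C, hC, hk⟩ := exists_kseq_bound hμ h1 hL20
  obtain ⟨R, hR⟩ := hμ.2.isCompact.isBounded.subset_closedBall (0 : ℂ)
  have hsupp : ∀ n z, R < ‖z‖ → kseq μ n z = 0 := by
    intro n z hz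
    refine (kseq_eventually_zero (fun h => ?_) n).eq_of_nhds
    have := hR h
    rw [Metric.mem_closedBall, dist_zero_right] at this
    linarith
  have hcc := cauConst_nonneg R
  have hsum : Summable fun n : ℕ => ρ ^ (n + 1) * ((n : ℝ) + 1) ^ 2 := by
    have h := summable_pow_mul_geometric_of_norm_lt_one (R := ℝ) 2 (r := ρ)
      (by rw [Real.norm_eq_abs, abs_of_pos hρ0]; exact hρ1)
    have h2 := (summable_nat_add_iff 1).2 h
    refine h2.congr fun n => ?_
    push_cast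
    ring
  set B0 := ∑' n : ℕ, ρ ^ (n + 1) * ((n : ℝ) + 1) ^ 2 with hB0
  set B := cauConst R * C * B0 with hB
  have hsig : ∀ l : ℂ, ‖l‖ = ρ → ∀ N z, ‖sig μ l N z‖ ≤ B := by
    intro l hl N z
    unfold sig
    refine (norm_sum_le _ _).trans ?_
    have h2 : ∀ n ∈ Finset.range N, ‖l ^ (n + 1) * Cau (kseq μ n) z‖ ≤
        cauConst R * C * (ρ ^ (n + 1) * ((n : ℝ) + 1) ^ 2) := by
      intro n _
      rw [norm_mul, norm_pow, hl]
      have h3 := norm_cau_le (k := kseq μ n) (R := R) (S := C * ((n : ℝ) + 1) ^ 2)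
        (by positivity) (hk n) (hsupp n) z
      calc ρ ^ (n + 1) * ‖Cau (kseq μ n) z‖
          ≤ ρ ^ (n + 1) * (cauConst R * (C * ((n : ℝ) + 1) ^ 2)) :=
            mul_le_mul_of_nonneg_left h3 (by positivity)
        _ = _ := by ring
    refine (Finset.sum_le_sum h2).trans ?_
    rw [← Finset.mul_sum, hB]
    exact mul_le_mul_of_nonneg_left (hsum.sum_le_tsum _ fun n _ => by positivity)
      (mul_nonneg hcc hC)
  have hPsi : ∀ l : ℂ, ‖l‖ = ρ → ∀ N z, ‖Psi μ l N z‖ ≤ Real.exp B := by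
    intro l hl N z
    unfold Psi
    rw [Complex.norm_exp]
    exact Real.exp_le_exp.2 ((Complex.re_le_norm _).trans (hsig l hl N z))
  refine ⟨fun N => cauConst R * (C * Real.exp B) * (ρ ^ (N + 1) * ((N : ℝ) + 1) ^ 2),
    fun N => by positivity, ?_, ?_⟩
  · have h := hsum.tendsto_atTop_zero.const_mul (cauConst R * (C * Real.exp B))
    rwa [mul_zero] at h
  · intro l hl N z
    have h3 := norm_cau_le (k := fun w => kseq μ N w * Psi μ l N w) (R := R)
      (S := C * ((N : ℝ) + 1) ^ 2 * Real.exp B) (by positivity)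
      (fun w => by
        rw [norm_mul]
        exact mul_le_mul (hk N w) (hPsi l hl N w) (norm_nonneg _) (by positivity))
      (fun w hw => by simp only [hsupp N w hw, zero_mul]) z
    rw [norm_mul, norm_pow, hl]
    calc ρ ^ (N + 1) * ‖Cau (fun w => kseq μ N w * Psi μ l N w) z‖
        ≤ ρ ^ (N + 1) * (cauConst R * (C * ((N : ℝ) + 1) ^ 2 * Real.exp B)) :=
          mul_le_mul_of_nonneg_left h3 (by positivity)
      _ = _ := by ring

/-- Smallness of `w` in `L²`. -/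
theorem wfun_small {μ : ℂ → ℂ} (hμ : Test μ) (h1 : ∀ z, ‖μ z‖ ≤ 1)
    {ρ : ℝ} (hρ0 : 0 < ρ) (hρ1 : ρ < 1) {l : ℂ} (hl : ‖l‖ = ρ) {N : ℕ} {r : ℝ} (hr : 0 ≤ r)
    (hrem : ∀ z, ‖l ^ (N + 1) * Cau (fun w => kseq μ N w * Psi μ l N w) z‖ ≤ r) :
    (eLpNorm (wfun μ l N) 2 volume).toReal ≤
      (r + ρ ^ N) * (eLpNorm μ 2 volume).toReal / (1 - ρ) := by
  have hw := test_wfun hμ l N
  have e1 : wfun μ l N = (fun z => μ z * (l * Beu (wfun μ l N) z)) +
      ((fun z => (-(l ^ (N + 1) * Cau (fun w => kseq μ N w * Psi μ l N w) z)) * μ z) +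
      fun z => l ^ N * useq μ N z) := by
    funext z
    rw [Pi.add_apply, Pi.add_apply]
    have := wfun_eq hC0 hdec0 hμ l N z
    rw [this]
    ring
  have m1 : AEStronglyMeasurable (fun z => μ z * (l * Beu (wfun μ l N) z)) volume :=
    (hμ.continuous.mul (continuous_const.mul (contDiff_beu hw).continuous)).aestronglyMeasurable
  have hq : Test (fun w => kseq μ N w * Psi μ l N w) :=
    (test_kseq hμ N).mul_left (contDiff_Psi hμ l N)
  have m2 : AEStronglyMeasurable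
      (fun z => (-(l ^ (N + 1) * Cau (fun w => kseq μ N w * Psi μ l N w) z)) * μ z) volume :=
    (((continuous_const.mul (contDiff_cau hq).continuous).neg).mul
      hμ.continuous).aestronglyMeasurable
  have m3 : AEStronglyMeasurable (fun z => l ^ N * useq μ N z) volume :=
    (continuous_const.mul (test_useq hμ N).continuous).aestronglyMeasurable
  have b1 : eLpNorm (fun z => μ z * (l * Beu (wfun μ l N) z)) 2 volume ≤
      ENNReal.ofReal ρ * eLpNorm (wfun μ l N) 2 volume := by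
    refine (eLpNorm_two_mul_le h1).trans ?_
    rw [ENNReal.ofReal_one, one_mul]
    refine (eLpNorm_two_mul_le (f := fun _ => l) (M := ρ) (fun _ => hl.le)).trans ?_
    exact mul_le_mul_right (hL20 _ hw) _
  have b2 : eLpNorm (fun z => (-(l ^ (N + 1) * Cau (fun w => kseq μ N w * Psi μ l N w) z)) * μ z)
      2 volume ≤ ENNReal.ofReal r * eLpNorm μ 2 volume :=
    eLpNorm_two_mul_le (fun z => by rw [norm_neg]; exact hrem z)
  have b3 : eLpNorm (fun z => l ^ N * useq μ N z) 2 volume ≤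
      ENNReal.ofReal (ρ ^ N) * eLpNorm μ 2 volume := by
    refine (eLpNorm_two_mul_le (f := fun _ => l ^ N) (M := ρ ^ N)
      (fun _ => by rw [norm_pow, hl])).trans ?_
    exact mul_le_mul_right (eLpNorm_useq hμ h1 hL20 N) _
  have hle : eLpNorm (wfun μ l N) 2 volume ≤
      ENNReal.ofReal ρ * eLpNorm (wfun μ l N) 2 volume +
      (ENNReal.ofReal r * eLpNorm μ 2 volume + ENNReal.ofReal (ρ ^ N) * eLpNorm μ 2 volume) := by
    conv_lhs => rw [e1]
    refine (eLpNorm_add_le m1 (m2.add m3) (by norm_num)).trans ?_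
    refine add_le_add b1 ((eLpNorm_add_le m2 m3 (by norm_num)).trans (add_le_add b2 b3))
  have hX : eLpNorm (wfun μ l N) 2 volume ≠ ∞ := (hw.eLpNorm_lt_top 2).ne
  have hA : eLpNorm μ 2 volume ≠ ∞ := (hμ.eLpNorm_lt_top 2).ne
  set X := eLpNorm (wfun μ l N) 2 volume with hXd
  set A := eLpNorm μ 2 volume with hAd
  have hle' : X.toReal ≤ ρ * X.toReal + (r * A.toReal + ρ ^ N * A.toReal) := by
    have t1 : ENNReal.ofReal ρ * X ≠ ∞ := ENNReal.mul_ne_top ENNReal.ofReal_ne_top hX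
    have t2 : ENNReal.ofReal r * A ≠ ∞ := ENNReal.mul_ne_top ENNReal.ofReal_ne_top hA
    have t3 : ENNReal.ofReal (ρ ^ N) * A ≠ ∞ := ENNReal.mul_ne_top ENNReal.ofReal_ne_top hA
    have := ENNReal.toReal_mono (ENNReal.add_ne_top.2 ⟨t1, ENNReal.add_ne_top.2 ⟨t2, t3⟩⟩) hle
    rw [ENNReal.toReal_add t1 (ENNReal.add_ne_top.2 ⟨t2, t3⟩), ENNReal.toReal_add t2 t3,
      ENNReal.toReal_mul, ENNReal.toReal_mul, ENNReal.toReal_mul, ENNReal.toReal_ofReal hρ0.le,
      ENNReal.toReal_ofReal hr, ENNReal.toReal_ofReal (by positivity)] at this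
    exact this
  rw [le_div_iff₀ (by linarith)]
  nlinarith [hle']

theorem log_add_le {a e : ℝ} (ha : 0 ≤ a) (he : 0 ≤ e) :
    Real.log (1 + a + e) ≤ Real.log (1 + a) + e := by
  have h1 : 0 < 1 + a := by linarith
  have h2 : 1 + a + e ≤ (1 + a) * (1 + e) := by nlinarith
  calc Real.log (1 + a + e) ≤ Real.log ((1 + a) * (1 + e)) :=
        Real.log_le_log (by linarith) h2
    _ = Real.log (1 + a) + Real.log (1 + e) := Real.log_mul h1.ne' (by linarith)
    _ ≤ Real.log (1 + a) + e := by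
        have := Real.log_le_sub_one_of_pos (show 0 < 1 + e by linarith)
        linarith

/-- The pointwise inequality. -/
theorem pointwise {μ : ℂ → ℂ} (hμ : Test μ)
    {ρ : ℝ} (hρ0 : 0 < ρ) {N : ℕ} (hN : 0 < N) {r : ℝ} (hr : 0 ≤ r)
    (hrem : ∀ l : ℂ, ‖l‖ = ρ → ∀ z,
      ‖l ^ (N + 1) * Cau (fun w => kseq μ N w * Psi μ l N w) z‖ ≤ r)
    {ζ : ℂ} (hζ : IsPrimitiveRoot ζ (N + 2)) (x : ℂ) :
    ρ * ‖Beu μ x‖ ≤
      2 * Real.log (1 + (∑ n ∈ Finset.range N, ρ ^ (n + 1) * ‖Beu (useq μ n) x‖ + r)) +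
      4 / ((N : ℝ) + 2) * ∑ j ∈ Finset.range (N + 2),
        ρ * ‖Beu (wfun μ ((ρ : ℂ) * ζ ^ j) N) x‖ := by
  have hnorm : ‖ζ‖ = 1 := Complex.norm_eq_one_of_pow_eq_one hζ.pow_eq_one (by omega)
  have hl : ∀ j : ℕ, ‖(ρ : ℂ) * ζ ^ j‖ = ρ := by
    intro j
    rw [norm_mul, norm_pow, hnorm, one_pow, mul_one, Complex.norm_real, Real.norm_eq_abs,
      abs_of_pos hρ0]
  refine scalar_ineq hN (fun n => Cau (kseq μ n) x) hρ0
    (fun j => ρ * ‖Beu (wfun μ ((ρ : ℂ) * ζ ^ j) N) x‖) (fun j => by positivity) hζ ?_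
  intro j _
  set l : ℂ := (ρ : ℂ) * ζ ^ j with hldef
  have hln := hl j
  rw [← hldef] at hln
  show (sig μ l N x).re ≤ _
  have e1 : (sig μ l N x).re = Real.log ‖Psi μ l N x‖ := by
    unfold Psi
    rw [Complex.norm_exp, Real.log_exp]
  have e2 := Psi_sub hC0 hdec0 hμ l N x
  set S := ∑ n ∈ Finset.range N, ρ ^ (n + 1) * ‖Beu (useq μ n) x‖ with hS
  have hS0 : 0 ≤ S := Finset.sum_nonneg fun n _ => by positivity
  have hsum : ‖∑ n ∈ Finset.range N, l ^ (n + 1) * Beu (useq μ n) x‖ ≤ S := by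
    refine (norm_sum_le _ _).trans (le_of_eq ?_)
    refine Finset.sum_congr rfl fun n _ => ?_
    rw [norm_mul, norm_pow, hln]
  have hP : ‖Psi μ l N x‖ ≤ 1 + (S + r) + ρ * ‖Beu (wfun μ l N) x‖ := by
    rw [e2]
    refine (norm_sub_le _ _).trans ?_
    have h1 := norm_add_le (1 + ∑ n ∈ Finset.range N, l ^ (n + 1) * Beu (useq μ n) x)
      (l * Beu (wfun μ l N) x)
    have h2 := norm_add_le (1 : ℂ) (∑ n ∈ Finset.range N, l ^ (n + 1) * Beu (useq μ n) x)
    have h3 : ‖l * Beu (wfun μ l N) x‖ = ρ * ‖Beu (wfun μ l N) x‖ := by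
      rw [norm_mul, hln]
    have h4 := hrem l hln x
    rw [norm_one] at h2
    linarith
  have hpos : 0 < ‖Psi μ l N x‖ := by
    rw [norm_pos_iff]
    exact Complex.exp_ne_zero _
  rw [e1]
  exact (Real.log_le_log hpos hP).trans (log_add_le (by linarith) (by positivity))

/-- Cauchy-Schwarz on a set of finite measure. -/
theorem setIntegral_norm_le {g : ℂ → ℂ} (hg : MemLp g 2 volume) {F : Set ℂ}
    (hF : volume F ≠ ∞) :
    ∫ x in F, ‖g x‖ ≤ Real.sqrt (volume F).toReal * (eLpNorm g 2 volume).toReal := by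
  have h1 := eLpNorm_le_eLpNorm_mul_rpow_measure_univ (μ := volume.restrict F) (f := g)
    (p := 1) (q := 2) (by norm_num) hg.1.restrict
  have h2 : eLpNorm g 2 (volume.restrict F) ≤ eLpNorm g 2 volume :=
    eLpNorm_mono_measure g Measure.restrict_le_self
  rw [Measure.restrict_apply_univ] at h1
  have h3 : (1 / (1 : ℝ≥0∞).toReal - 1 / (2 : ℝ≥0∞).toReal) = (1 / 2 : ℝ) := by
    norm_num
  rw [h3] at h1
  have h4 : eLpNorm g 1 (volume.restrict F) ≤
      eLpNorm g 2 volume * (volume F) ^ (1 / 2 : ℝ) :=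
    h1.trans (mul_le_mul_left h2 _)
  have h5 : ∫ x in F, ‖g x‖ = (eLpNorm g 1 (volume.restrict F)).toReal := by
    rw [eLpNorm_one_eq_lintegral_enorm, ← integral_norm_eq_lintegral_enorm hg.1.restrict]
  rw [h5]
  have h6 : eLpNorm g 2 volume * (volume F) ^ (1 / 2 : ℝ) ≠ ∞ :=
    ENNReal.mul_ne_top hg.2.ne (ENNReal.rpow_ne_top_of_nonneg (by norm_num) hF)
  refine (ENNReal.toReal_mono h6 h4).trans (le_of_eq ?_)
  rw [ENNReal.toReal_mul, ← ENNReal.toReal_rpow, ← Real.sqrt_eq_rpow, mul_comm]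

/-- Jensen for the logarithm. -/
theorem setIntegral_log_le {h : ℂ → ℝ} {F : Set ℂ} (hFm : MeasurableSet F)
    (hF : volume F ≠ ∞) (hh0 : ∀ x, 0 ≤ h x) (hc : Continuous h) (hi : IntegrableOn h F)
    {m : ℝ} (hm : 0 ≤ m) (hle : ∫ x in F, h x ≤ m * (volume F).toReal) :
    ∫ x in F, Real.log (1 + h x) ≤ (volume F).toReal * Real.log (1 + m) := by
  have hpt : ∀ x, Real.log (1 + h x) ≤ Real.log (1 + m) + (h x - m) / (1 + m) := by
    intro x
    have h0 := hh0 x
    have h1 : 0 < 1 + m := by linarith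
    have h2 : 0 < 1 + h x := by linarith
    have h3 := Real.log_le_sub_one_of_pos (div_pos h2 h1)
    rw [Real.log_div h2.ne' h1.ne'] at h3
    have h4 : (1 + h x) / (1 + m) - 1 = (h x - m) / (1 + m) := by field_simp; ring
    linarith
  have hcl : Continuous fun x => Real.log (1 + h x) :=
    Continuous.log (f := fun x => 1 + h x) (continuous_const.add hc)
      fun x => (by have := hh0 x; linarith : (0 : ℝ) < 1 + h x).ne'
  have hi1 : IntegrableOn (fun x => Real.log (1 + h x)) F := by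
    refine hi.mono' hcl.aestronglyMeasurable (Filter.Eventually.of_forall fun x => ?_)
    have h0 := hh0 x
    rw [Real.norm_eq_abs, abs_of_nonneg (Real.log_nonneg (by linarith))]
    have := Real.log_le_sub_one_of_pos (show 0 < 1 + h x by linarith)
    linarith
  have hc1 : IntegrableOn (fun _ : ℂ => Real.log (1 + m)) F := integrableOn_const hF
  have hc2 : IntegrableOn (fun x : ℂ => (h x - m) / (1 + m)) F :=
    (hi.sub (integrableOn_const hF)).div_const _
  have h6 : ∫ x in F, (Real.log (1 + m) + (h x - m) / (1 + m)) =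
      (volume F).toReal * Real.log (1 + m) +
      ((∫ x in F, h x) - m * (volume F).toReal) / (1 + m) := by
    rw [integral_add hc1 hc2, setIntegral_const, smul_eq_mul, measureReal_def, integral_div,
      integral_sub hi (integrableOn_const hF), setIntegral_const, smul_eq_mul, measureReal_def,
      mul_comm m]
  have h7 : ∫ x in F, Real.log (1 + h x) ≤
      ∫ x in F, (Real.log (1 + m) + (h x - m) / (1 + m)) :=
    setIntegral_mono hi1 (hc1.add hc2) hpt
  have h8 : ((∫ x in F, h x) - m * (volume F).toReal) / (1 + m) ≤ 0 :=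
    div_nonpos_of_nonpos_of_nonneg (by linarith) (by linarith)
  rw [h6] at h7
  linarith

/-- The key estimate at level `N`. -/
theorem key_level {μ : ℂ → ℂ} (hμ : Test μ) (h1 : ∀ z, ‖μ z‖ ≤ 1)
    {ρ : ℝ} (hρ0 : 0 < ρ) (hρ1 : ρ < 1) {N : ℕ} (hN : 0 < N) {r : ℝ} (hr : 0 ≤ r)
    (hrem : ∀ l : ℂ, ‖l‖ = ρ → ∀ z,
      ‖l ^ (N + 1) * Cau (fun w => kseq μ N w * Psi μ l N w) z‖ ≤ r)
    {F : Set ℂ} (hFm : MeasurableSet F) (hF0 : volume F ≠ 0) (hF : volume F ≠ ∞) :
    ρ * ∫ x in F, ‖Beu μ x‖ ≤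
      2 * ((volume F).toReal * Real.log (1 + (ρ / (1 - ρ) * (eLpNorm μ 2 volume).toReal /
        Real.sqrt (volume F).toReal + r))) +
      4 * ρ * (Real.sqrt (volume F).toReal *
        ((r + ρ ^ N) * (eLpNorm μ 2 volume).toReal / (1 - ρ))) := by
  set ζ : ℂ := exp (2 * Real.pi * I / ((N + 2 : ℕ) : ℂ)) with hζdef
  have hζ : IsPrimitiveRoot ζ (N + 2) := Complex.isPrimitiveRoot_exp (N + 2) (by omega)
  have hnorm : ‖ζ‖ = 1 := Complex.norm_eq_one_of_pow_eq_one hζ.pow_eq_one (by omega)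
  have hl : ∀ j : ℕ, ‖(ρ : ℂ) * ζ ^ j‖ = ρ := by
    intro j
    rw [norm_mul, norm_pow, hnorm, one_pow, mul_one, Complex.norm_real, Real.norm_eq_abs,
      abs_of_pos hρ0]
  set v := (volume F).toReal with hv
  have hv0 : 0 < v := ENNReal.toReal_pos hF0 hF
  set A := (eLpNorm μ 2 volume).toReal with hA
  have hA0 : 0 ≤ A := ENNReal.toReal_nonneg
  set X := (r + ρ ^ N) * A / (1 - ρ) with hX
  have hmem : ∀ f : ℂ → ℂ, Test f → MemLp (Beu f) 2 volume := fun f hf =>
    ⟨(contDiff_beu hf).continuous.aestronglyMeasurable,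
      (hL20 f hf).trans_lt (hf.eLpNorm_lt_top 2)⟩
  have hfin : IsFiniteMeasure (volume.restrict F) := isFiniteMeasure_restrict.2 hF
  have hint : ∀ f : ℂ → ℂ, Test f → IntegrableOn (fun x => ‖Beu f x‖) F := fun f hf =>
    (((hmem f hf).restrict F).integrable (by norm_num)).norm
  have hCS : ∀ f : ℂ → ℂ, Test f → ∫ x in F, ‖Beu f x‖ ≤
      Real.sqrt v * (eLpNorm f 2 volume).toReal := fun f hf =>
    (setIntegral_norm_le (hmem f hf) hF).trans (mul_le_mul_of_nonneg_left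
      (ENNReal.toReal_mono (hf.eLpNorm_lt_top 2).ne (hL20 f hf)) (Real.sqrt_nonneg _))
  set h : ℂ → ℝ := fun x => ∑ n ∈ Finset.range N, ρ ^ (n + 1) * ‖Beu (useq μ n) x‖ + r with hh
  set g : ℂ → ℝ := fun x => ∑ j ∈ Finset.range (N + 2),
        ρ * ‖Beu (wfun μ ((ρ : ℂ) * ζ ^ j) N) x‖ with hg
  have hpt : ∀ x, ρ * ‖Beu μ x‖ ≤ 2 * Real.log (1 + h x) + 4 / ((N : ℝ) + 2) * g x :=
    fun x => pointwise hμ hρ0 hN hr hrem hζ x
  have hh0 : ∀ x, 0 ≤ h x := fun x =>
    add_nonneg (Finset.sum_nonneg fun n _ => by positivity) hr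
  have hhc : Continuous h := by
    refine Continuous.add (continuous_finsetSum _ fun n _ => ?_) continuous_const
    exact continuous_const.mul (contDiff_beu (test_useq hμ n)).continuous.norm
  have hhi1 : ∀ n, IntegrableOn (fun x => ρ ^ (n + 1) * ‖Beu (useq μ n) x‖) F := fun n =>
    (hint _ (test_useq hμ n)).const_mul _
  have hhi2 : IntegrableOn (fun x => ∑ n ∈ Finset.range N, ρ ^ (n + 1) * ‖Beu (useq μ n) x‖) F :=
    integrable_finsetSum _ fun n _ => hhi1 n
  have hhi : IntegrableOn h F := hhi2.add (integrableOn_const hF)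
  have hgi1 : ∀ j, IntegrableOn (fun x => ρ * ‖Beu (wfun μ ((ρ : ℂ) * ζ ^ j) N) x‖) F :=
    fun j => (hint _ (test_wfun hμ _ N)).const_mul _
  have hgi : IntegrableOn g F := integrable_finsetSum _ fun j _ => hgi1 j
  have hli : IntegrableOn (fun x => Real.log (1 + h x)) F := by
    have hcl : Continuous fun x => Real.log (1 + h x) :=
      Continuous.log (f := fun x => 1 + h x) (continuous_const.add hhc)
        fun x => (by have := hh0 x; linarith : (0 : ℝ) < 1 + h x).ne'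
    refine hhi.mono' hcl.aestronglyMeasurable (Filter.Eventually.of_forall fun x => ?_)
    have h0 := hh0 x
    rw [Real.norm_eq_abs, abs_of_nonneg (Real.log_nonneg (by linarith))]
    have := Real.log_le_sub_one_of_pos (show 0 < 1 + h x by linarith)
    linarith
  -- integral of g
  have hgle : ∫ x in F, g x ≤ ((N : ℝ) + 2) * (ρ * (Real.sqrt v * X)) := by
    rw [hg, integral_finsetSum _ fun j _ => hgi1 j]
    have : ∀ j ∈ Finset.range (N + 2),
        ∫ x in F, ρ * ‖Beu (wfun μ ((ρ : ℂ) * ζ ^ j) N) x‖ ≤ ρ * (Real.sqrt v * X) := by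
      intro j _
      rw [integral_const_mul]
      refine mul_le_mul_of_nonneg_left ((hCS _ (test_wfun hμ _ N)).trans ?_) hρ0.le
      refine mul_le_mul_of_nonneg_left ?_ (Real.sqrt_nonneg _)
      exact wfun_small hμ h1 hρ0 hρ1 (hl j) hr (hrem _ (hl j))
    refine (Finset.sum_le_sum this).trans (le_of_eq ?_)
    rw [Finset.sum_const, Finset.card_range, nsmul_eq_mul]
    push_cast
    ring
  -- integral of h
  have hm0 : 0 ≤ ρ / (1 - ρ) * A / Real.sqrt v + r := by
    have : 0 < 1 - ρ := by linarith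
    positivity
  have hhle : ∫ x in F, h x ≤ (ρ / (1 - ρ) * A / Real.sqrt v + r) * v := by
    rw [hh]
    rw [integral_add hhi2 (integrableOn_const hF), integral_finsetSum _ fun n _ => hhi1 n,
      setIntegral_const, smul_eq_mul, measureReal_def, ← hv]
    have : ∀ n ∈ Finset.range N, ∫ x in F, ρ ^ (n + 1) * ‖Beu (useq μ n) x‖ ≤
        ρ ^ (n + 1) * (Real.sqrt v * A) := by
      intro n _
      rw [integral_const_mul]
      refine mul_le_mul_of_nonneg_left ((hCS _ (test_useq hμ n)).trans ?_) (by positivity)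
      refine mul_le_mul_of_nonneg_left ?_ (Real.sqrt_nonneg _)
      exact ENNReal.toReal_mono (hμ.eLpNorm_lt_top 2).ne (eLpNorm_useq hμ h1 hL20 n)
    have hgeo : ∑ n ∈ Finset.range N, ρ ^ (n + 1) ≤ ρ / (1 - ρ) := by
      have e : ∀ n ∈ Finset.range N, ρ ^ (n + 1) = ρ * ρ ^ n := fun n _ => by ring
      rw [Finset.sum_congr rfl e, ← Finset.mul_sum, div_eq_mul_inv]
      refine mul_le_mul_of_nonneg_left ?_ hρ0.le
      rw [← tsum_geometric_of_lt_one hρ0.le hρ1]
      exact (summable_geometric_of_lt_one hρ0.le hρ1).sum_le_tsum _ fun n _ => by positivity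
    have hs := Finset.sum_le_sum this
    rw [← Finset.sum_mul] at hs
    have hs2 := hs.trans (mul_le_mul_of_nonneg_right hgeo
      (mul_nonneg (Real.sqrt_nonneg v) hA0))
    have hsq : Real.sqrt v * Real.sqrt v = v := Real.mul_self_sqrt hv0.le
    have hsq0 : 0 < Real.sqrt v := Real.sqrt_pos.2 hv0
    have e2 : (ρ / (1 - ρ) * A / Real.sqrt v + r) * v =
        ρ / (1 - ρ) * (Real.sqrt v * A) + v * r := by
      have e3 : A / Real.sqrt v * v = Real.sqrt v * A := by
        rw [div_mul_eq_mul_div, div_eq_iff hsq0.ne']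
        linear_combination (-A) * hsq
      calc (ρ / (1 - ρ) * A / Real.sqrt v + r) * v
          = ρ / (1 - ρ) * (A / Real.sqrt v * v) + v * r := by ring
        _ = _ := by rw [e3]
    rw [e2]
    linarith
  have hlog := setIntegral_log_le hFm hF hh0 hhc hhi hm0 hhle
  have htot : ∫ x in F, ρ * ‖Beu μ x‖ ≤
      ∫ x in F, (2 * Real.log (1 + h x) + 4 / ((N : ℝ) + 2) * g x) :=
    setIntegral_mono ((hint μ hμ).const_mul _) ((hli.const_mul _).add (hgi.const_mul _)) hpt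
  rw [integral_const_mul, integral_add (hli.const_mul _) (hgi.const_mul _),
    integral_const_mul, integral_const_mul] at htot
  refine htot.trans (add_le_add (mul_le_mul_of_nonneg_left hlog (by norm_num)) ?_)
  have hN2 : (0 : ℝ) < (N : ℝ) + 2 := by positivity
  calc 4 / ((N : ℝ) + 2) * ∫ x in F, g x
      ≤ 4 / ((N : ℝ) + 2) * (((N : ℝ) + 2) * (ρ * (Real.sqrt v * X))) :=
        mul_le_mul_of_nonneg_left hgle (by positivity)
    _ = 4 * ρ * (Real.sqrt v * X) := by field_simp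

theorem keyEst : KeyEst := by
  intro ρ hρ0 hρ1 μ hμ h1 F hFm hF0 hF
  obtain ⟨r, hr0, hrt, hrem⟩ := exists_rem_bound hμ h1 hρ0 hρ1
  set v := (volume F).toReal with hv
  have hv0 : 0 < v := ENNReal.toReal_pos hF0 hF
  set A := (eLpNorm μ 2 volume).toReal with hA
  have hA0 : 0 ≤ A := ENNReal.toReal_nonneg
  set m := ρ / (1 - ρ) * A / Real.sqrt v with hm
  have hm0 : 0 ≤ m := by
    have : 0 < 1 - ρ := by linarith
    positivity
  have hlev : ∀ᶠ N : ℕ in atTop, ρ * ∫ x in F, ‖Beu μ x‖ ≤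
      2 * (v * Real.log (1 + (m + r N))) +
      4 * ρ * (Real.sqrt v * ((r N + ρ ^ N) * A / (1 - ρ))) := by
    filter_upwards [eventually_gt_atTop 0] with N hN
    exact key_level hμ h1 hρ0 hρ1 hN (hr0 N) (fun l hl z => hrem l hl N z) hFm hF0 hF
  have ht1 : Tendsto (fun N : ℕ => 2 * (v * Real.log (1 + (m + r N)))) atTop
      (𝓝 (2 * (v * Real.log (1 + (m + 0))))) := by
    refine Tendsto.const_mul _ (Tendsto.const_mul _ ?_)
    refine Tendsto.log (tendsto_const_nhds.add (tendsto_const_nhds.add hrt)) ?_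
    linarith
  have ht2 : Tendsto (fun N : ℕ => 4 * ρ * (Real.sqrt v * ((r N + ρ ^ N) * A / (1 - ρ)))) atTop
      (𝓝 (4 * ρ * (Real.sqrt v * ((0 + 0) * A / (1 - ρ))))) := by
    refine Tendsto.const_mul _ (Tendsto.const_mul _ (Tendsto.div_const (Tendsto.mul_const _ ?_) _))
    exact hrt.add (tendsto_pow_atTop_nhds_zero_of_lt_one hρ0.le hρ1)
  have hlim := ge_of_tendsto (ht1.add ht2) hlev
  rw [add_zero, add_zero, zero_mul, zero_div, mul_zero, mul_zero, add_zero] at hlim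
  have hfin : ∫ x in F, ‖Beu μ x‖ ≤ 2 * (v * Real.log (1 + m)) / ρ := by
    rw [le_div_iff₀ hρ0, mul_comm]
    exact hlim
  refine hfin.trans (le_of_eq ?_)
  ring

end Pool.Agent.Lib.MP_9e2694_an
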