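import Pool.Agent.Lib.MP_9e2694_an.Basic

/-!
Smooth truncation pieces for the layer decomposition (MP_9e2694_an).
-/

set_option autoImplicit false

open MeasureTheory Complex Filter Topology Set
open scoped ContDiff ENNReal

namespace Pool.Agent.Lib.MP_9e2694_an

namespace Upper

/-- The smooth truncation pieces. -/
noncomputable def eta (δ : ℝ) (j : ℕ) (w : ℂ) : ℂ :=
  ((Real.smoothTransition (‖w‖ / δ - ((j : ℝ) + 1)) / ‖w‖ : ℝ) : ℂ) * w

theorem eta_zero (δ : ℝ) (j : ℕ) : eta δ j 0 = 0 := by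
  simp [eta]

theorem eta_eq_zero {δ : ℝ} (hδ : 0 < δ) {j : ℕ} {w : ℂ} (hw : ‖w‖ ≤ ((j : ℝ) + 1) * δ) :
    eta δ j w = 0 := by
  have h : ‖w‖ / δ - ((j : ℝ) + 1) ≤ 0 := by
    rw [sub_nonpos, div_le_iff₀ hδ]
    exact hw
  simp [eta, Real.smoothTransition.zero_of_nonpos h]

theorem norm_eta {δ : ℝ} (j : ℕ) {w : ℂ} (hw : w ≠ 0) :
    ‖eta δ j w‖ = Real.smoothTransition (‖w‖ / δ - ((j : ℝ) + 1)) := by
  have hn : ‖w‖ ≠ 0 := norm_ne_zero_iff.2 hw
  have h0 := Real.smoothTransition.nonneg (‖w‖ / δ - ((j : ℝ) + 1))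
  rw [eta, norm_mul, Complex.norm_real, norm_div, Real.norm_of_nonneg h0, norm_norm]
  field_simp

theorem norm_eta_le (δ : ℝ) (j : ℕ) (w : ℂ) : ‖eta δ j w‖ ≤ 1 := by
  by_cases hw : w = 0
  · subst hw
    simp [eta_zero]
  · rw [norm_eta j hw]
    exact Real.smoothTransition.le_one _

theorem eta_contDiff {δ : ℝ} (hδ : 0 < δ) (j : ℕ) : ContDiff ℝ (⊤ : ℕ∞) (eta δ j) := by
  rw [contDiff_iff_contDiffAt]
  intro w
  by_cases hw : w = 0
  · subst hw
    have h : eta δ j =ᶠ[𝓝 0] fun _ => (0 : ℂ) := by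
      filter_upwards [Metric.ball_mem_nhds (0 : ℂ) hδ] with z hz
      rw [mem_ball_zero_iff] at hz
      refine eta_eq_zero hδ (hz.le.trans ?_)
      have : (0 : ℝ) ≤ (j : ℝ) := Nat.cast_nonneg j
      nlinarith
    exact contDiffAt_const.congr_of_eventuallyEq h
  · have hn : ContDiffAt ℝ (⊤ : ℕ∞) (fun z : ℂ => ‖z‖) w := contDiffAt_norm ℝ hw
    have h1 : ContDiffAt ℝ (⊤ : ℕ∞)
        (fun z : ℂ => Real.smoothTransition (‖z‖ / δ - ((j : ℝ) + 1)) / ‖z‖) w := by
      refine ContDiffAt.div ?_ hn (norm_ne_zero_iff.2 hw)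
      exact (Real.smoothTransition.contDiff (n := ⊤)).contDiffAt.comp w
        ((hn.div_const δ).sub contDiffAt_const)
    have h2 : ContDiffAt ℝ (⊤ : ℕ∞)
        (fun z : ℂ => ((Real.smoothTransition (‖z‖ / δ - ((j : ℝ) + 1)) / ‖z‖ : ℝ) : ℂ)) w :=
      Complex.ofRealCLM.contDiff.contDiffAt.comp w h1
    exact h2.mul contDiffAt_id

theorem chi_sum (J : ℕ) : ∀ x : ℝ, 0 ≤ x → x ≤ J →
    0 ≤ x - ∑ j ∈ Finset.range J, Real.smoothTransition (x - ((j : ℝ) + 1)) ∧
      x - ∑ j ∈ Finset.range J, Real.smoothTransition (x - ((j : ℝ) + 1)) ≤ 2 := by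
  induction J with
  | zero =>
    intro x h0 h1
    simp at h1 ⊢
    exact ⟨h0, by linarith⟩
  | succ J ih =>
    intro x h0 h1
    rw [Finset.sum_range_succ]
    have hl : Real.smoothTransition (x - ((J : ℝ) + 1)) = 0 := by
      refine Real.smoothTransition.zero_of_nonpos ?_
      push_cast at h1
      linarith
    rw [hl, add_zero]
    by_cases hx : x ≤ J
    · exact ih x h0 hx
    · push Not at hx
      push_cast at h1
      cases J with
      | zero => simp at h1 ⊢; exact ⟨h0, by linarith⟩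
      | succ J' =>
        rw [Finset.sum_range_succ]
        have hs : ∑ j ∈ Finset.range J', Real.smoothTransition (x - ((j : ℝ) + 1)) = J' := by
          rw [Finset.sum_congr rfl (g := fun _ => (1 : ℝ))]
          · simp
          · intro j hj
            rw [Finset.mem_range] at hj
            refine Real.smoothTransition.one_of_one_le ?_
            have : (j : ℝ) + 1 ≤ J' := by exact_mod_cast hj
            push_cast at hx
            linarith
        rw [hs]
        have ha := Real.smoothTransition.nonneg (x - ((J' : ℝ) + 1))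
        have hb := Real.smoothTransition.le_one (x - ((J' : ℝ) + 1))
        push_cast at hx h1
        constructor <;> linarith

theorem norm_sub_sum_le {δ : ℝ} (hδ : 0 < δ) (J : ℕ) {w : ℂ} (hw : ‖w‖ ≤ J * δ) :
    ‖w - ∑ j ∈ Finset.range J, (δ : ℂ) * eta δ j w‖ ≤ 2 * δ := by
  by_cases h0 : w = 0
  · subst h0
    simp [eta_zero, hδ.le]
  have hn : ‖w‖ ≠ 0 := norm_ne_zero_iff.2 h0
  have hnp : 0 < ‖w‖ := norm_pos_iff.2 h0
  have key := chi_sum J (‖w‖ / δ) (by positivity) (by rwa [div_le_iff₀ hδ])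
  set X := ∑ j ∈ Finset.range J, Real.smoothTransition (‖w‖ / δ - ((j : ℝ) + 1)) with hX
  have e : w - ∑ j ∈ Finset.range J, (δ : ℂ) * eta δ j w =
      (((‖w‖ / δ - X) * δ / ‖w‖ : ℝ) : ℂ) * w := by
    have e2 : ∑ j ∈ Finset.range J, (δ : ℂ) * eta δ j w = ((δ * X / ‖w‖ : ℝ) : ℂ) * w := by
      rw [hX, Finset.mul_sum, Finset.sum_div, Complex.ofReal_sum, Finset.sum_mul]
      refine Finset.sum_congr rfl fun j _ => ?_
      rw [eta]
      push_cast
      ring
    rw [e2]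
    have e3 : ((‖w‖ / δ - X) * δ / ‖w‖ : ℝ) = 1 - δ * X / ‖w‖ := by
      field_simp
    rw [e3]
    push_cast
    ring
  rw [e, norm_mul, Complex.norm_real, norm_div, norm_mul, norm_norm,
    Real.norm_of_nonneg key.1, Real.norm_of_nonneg hδ.le, div_mul_cancel₀ _ hn]
  exact mul_le_mul_of_nonneg_right key.2 hδ.le

/-- `eta ∘ g` is a test function. -/
theorem test_eta {g : ℂ → ℂ} (hg : Test g) {δ : ℝ} (hδ : 0 < δ) (j : ℕ) :
    Test (fun z => eta δ j (g z)) :=
  ⟨(eta_contDiff hδ j).comp hg.1, hg.2.comp_left (g := eta δ j) (eta_zero δ j)⟩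

theorem test_sum {g : ℂ → ℂ} (hg : Test g) {δ : ℝ} (hδ : 0 < δ) (J : ℕ) :
    Test (fun z => ∑ j ∈ Finset.range J, (δ : ℂ) * eta δ j (g z)) := by
  induction J with
  | zero =>
    simp only [Finset.range_zero, Finset.sum_empty]
    exact ⟨contDiff_const, HasCompactSupport.zero⟩
  | succ J ih =>
    simp only [Finset.sum_range_succ]
    exact ih.add ((test_eta hg hδ J).const_mul _)

theorem beu_sum
    (hadd : ∀ f g : ℂ → ℂ, Test f → Test g →
      Beu (fun z => f z + g z) = fun z => Beu f z + Beu g z)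
    (hmul : ∀ (c : ℂ) (f : ℂ → ℂ), Test f → Beu (fun z => c * f z) = fun z => c * Beu f z)
    {g : ℂ → ℂ} (hg : Test g) {δ : ℝ} (hδ : 0 < δ) (J : ℕ) :
    Beu (fun z => ∑ j ∈ Finset.range J, (δ : ℂ) * eta δ j (g z)) =
      fun z => ∑ j ∈ Finset.range J, (δ : ℂ) * Beu (fun z => eta δ j (g z)) z := by
  induction J with
  | zero =>
    have h := hmul 0 g hg
    simp only [zero_mul] at h
    simpa using h
  | succ J ih =>
    simp only [Finset.sum_range_succ]
    rw [hadd _ _ (test_sum hg hδ J) ((test_eta hg hδ J).const_mul _), ih,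
      hmul _ _ (test_eta hg hδ J)]

/-- decomposition of the Beurling transform. -/
theorem beu_decomp
    (hadd : ∀ f g : ℂ → ℂ, Test f → Test g →
      Beu (fun z => f z + g z) = fun z => Beu f z + Beu g z)
    (hmul : ∀ (c : ℂ) (f : ℂ → ℂ), Test f → Beu (fun z => c * f z) = fun z => c * Beu f z)
    {g : ℂ → ℂ} (hg : Test g) {δ : ℝ} (hδ : 0 < δ) (J : ℕ) (z : ℂ) :
    ‖Beu g z‖ ≤ (∑ j ∈ Finset.range J, δ * ‖Beu (fun z => eta δ j (g z)) z‖) +
      ‖Beu (fun z => g z - ∑ j ∈ Finset.range J, (δ : ℂ) * eta δ j (g z)) z‖ := by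
  have h1 : Beu g = fun z => Beu (fun z => ∑ j ∈ Finset.range J, (δ : ℂ) * eta δ j (g z)) z +
      Beu (fun z => g z - ∑ j ∈ Finset.range J, (δ : ℂ) * eta δ j (g z)) z := by
    rw [← hadd _ _ (test_sum hg hδ J) (hg.sub (test_sum hg hδ J))]
    congr 1
    funext z
    ring
  rw [h1, beu_sum hadd hmul hg hδ J]
  refine (norm_add_le _ _).trans (add_le_add_left ?_ _)
  refine (norm_sum_le _ _).trans (Finset.sum_le_sum fun j _ => ?_)
  rw [norm_mul, Complex.norm_real, Real.norm_of_nonneg hδ.le]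

end Upper

end Pool.Agent.Lib.MP_9e2694_an
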